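import Pool.Agent.P.MP_bf3635_an.Defs

/-!
An ideal with a bounded approximate identity in a commutative normed algebra densely spanned by a
bounded locally finite group is amenable.
-/

open Filter Topology

noncomputable section

namespace Pool.Agent.P.MP_bf3635_an

universe u

section approx

variable {B : Type*} [NormedCommRing B] [NormedAlgebra ℂ B] {R : NonUnitalSubalgebra ℂ B}
  {Y : Type*} [NormedAddCommGroup Y] [NormedSpace ℂ Y]

/-- multiplication of an element of the ideal by an element of the ambient algebra -/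
def mulR (hR : ∀ b : B, ∀ a ∈ R, b * a ∈ R) : B →ₗ[ℂ] R →ₗ[ℂ] R :=
  LinearMap.mk₂ ℂ (fun b a => ⟨b * a, hR b a a.2⟩)
    (fun _ _ _ => Subtype.ext (add_mul _ _ _))
    (fun c b a => Subtype.ext (smul_mul_assoc c b (a : B)))
    (fun _ _ _ => Subtype.ext (mul_add _ _ _))
    (fun c b a => Subtype.ext (mul_smul_comm c b (a : B)))

@[simp] theorem coe_mulR (hR : ∀ b : B, ∀ a ∈ R, b * a ∈ R) (b : B) (a : R) :
    (mulR hR b a : B) = b * a := rfl

theorem norm_mulR_le (hR : ∀ b : B, ∀ a ∈ R, b * a ∈ R) (b : B) (a : R) :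
    ‖mulR hR b a‖ ≤ ‖b‖ * ‖a‖ := norm_mul_le b (a : B)

theorem approx_inner (hR : ∀ b : B, ∀ a ∈ R, b * a ∈ R)
    {G : Type*} [CommGroup G] (d : G →* B) (hd : ∀ g, ‖d g‖ ≤ 1)
    (hdense : ∀ P : Submodule ℂ B, IsClosed (P : Set B) → (∀ g, d g ∈ P) → P = ⊤)
    (K : ℕ → Finset G) (hK : ∀ n, (K n).Nonempty)
    (hKinv : ∀ h, ∀ᶠ n in atTop, ∀ g, h * g ∈ K n ↔ g ∈ K n)
    (f q r : ℕ → R) (C : ℝ) (hC : 0 ≤ C) (hf : ∀ n, ‖f n‖ ≤ C) (hq : ∀ n, ‖q n‖ ≤ C)
    (hr : ∀ n, ‖r n‖ ≤ C) (hfqr : ∀ n, f n * f n = q n + r n - q n * r n)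
    (hqa : ∀ a : R, Tendsto (fun n => a * q n) atTop (𝓝 a))
    (hra : ∀ a : R, Tendsto (fun n => r n * a) atTop (𝓝 a))
    (L Rr : R →L[ℂ] Y →L[ℂ] Y) (hL : ∀ a b y, L (a * b) y = L a (L b y))
    (hLR : ∀ a b y, L a (Rr b y) = Rr b (L a y))
    (D : R →L[ℂ] Y) (hD : ∀ a b, D (a * b) = L a (D b) + Rr b (D a)) :
    ∃ (θ : ℕ → Y) (C' : ℝ), (∀ n, ‖θ n‖ ≤ C') ∧
      ∀ a, Tendsto (fun n => L a (θ n) - Rr a (θ n)) atTop (𝓝 (D a)) := by
  classical
  set m := mulR hR with hm
  -- basic bound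
  have hLD : ∀ a b : R, ‖L a (D b)‖ ≤ ‖L‖ * ‖D‖ * (‖a‖ * ‖b‖) := by
    intro a b
    calc ‖L a (D b)‖ ≤ ‖L‖ * ‖a‖ * ‖D b‖ := L.le_opNorm₂ a (D b)
      _ ≤ ‖L‖ * ‖a‖ * (‖D‖ * ‖b‖) := by gcongr; exact D.le_opNorm b
      _ = _ := by ring
  have hmf : ∀ (b : B) (n : ℕ), ‖m b (f n)‖ ≤ ‖b‖ * C := fun b n =>
    (norm_mulR_le hR b (f n)).trans (by gcongr; exact hf n)
  have hmd : ∀ (c : B) (g : G) (n : ℕ), ‖m (c * d g) (f n)‖ ≤ ‖c‖ * C := by
    intro c g n
    refine (hmf _ n).trans ?_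
    gcongr
    exact (norm_mul_le _ _).trans (mul_le_of_le_one_right (norm_nonneg _) (hd g))
  have hmd1 : ∀ (g : G) (n : ℕ), ‖m (d g) (f n)‖ ≤ C := fun g n =>
    (hmf _ n).trans (mul_le_of_le_one_left hC (hd g))
  let w : ℕ → ℂ := fun n => ((K n).card : ℂ)⁻¹
  have havg : ∀ (n : ℕ) (F : G → Y) (c : ℝ), (∀ g, ‖F g‖ ≤ c) → ‖w n • ∑ g ∈ K n, F g‖ ≤ c := by
    intro n F c hF
    have hpos : (0 : ℝ) < (K n).card := by exact_mod_cast (hK n).card_pos
    rw [norm_smul]
    have h1 : ‖∑ g ∈ K n, F g‖ ≤ (K n).card * c := by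
      refine (norm_sum_le _ _).trans ?_
      simpa using Finset.sum_le_card_nsmul (K n) (fun g => ‖F g‖) c (fun g _ => hF g)
    have h2 : ‖w n‖ = ((K n).card : ℝ)⁻¹ := by simp [w]
    rw [h2]
    calc ((K n).card : ℝ)⁻¹ * ‖∑ g ∈ K n, F g‖ ≤ ((K n).card : ℝ)⁻¹ * ((K n).card * c) := by
          gcongr
      _ = c := by field_simp
  have havgc : ∀ (n : ℕ) (y : Y), w n • ∑ _g ∈ K n, y = y := by
    intro n y
    have hpos : ((K n).card : ℂ) ≠ 0 := by exact_mod_cast (hK n).card_pos.ne'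
    rw [Finset.sum_const, ← Nat.cast_smul_eq_nsmul ℂ, smul_smul]
    simp [w, hpos]
  -- the defect operator
  let Ψ : ℕ → B → Y := fun n c => w n • ∑ g ∈ K n,
    (L (m (c * d g) (f n)) (D (m (d g⁻¹) (f n))) - L (m (d g) (f n)) (D (m (c * d g⁻¹) (f n))))
  have Ψadd : ∀ n c c', Ψ n (c + c') = Ψ n c + Ψ n c' := by
    intro n c c'
    simp only [Ψ, add_mul, map_add, LinearMap.add_apply, add_apply,
      ← smul_add, ← Finset.sum_add_distrib]
    congr 1
    exact Finset.sum_congr rfl fun g _ => by abel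
  have Ψsmul : ∀ n (s : ℂ) c, Ψ n (s • c) = s • Ψ n c := by
    intro n s c
    simp only [Ψ, smul_mul_assoc, map_smul, LinearMap.smul_apply, smul_apply,
      ← smul_sub, ← Finset.smul_sum]
    rw [smul_comm]
  have Ψbd : ∀ n c, ‖Ψ n c‖ ≤ 2 * (‖L‖ * ‖D‖ * (C * C)) * ‖c‖ := by
    intro n c
    refine havg n _ _ fun g => (norm_sub_le _ _).trans ?_
    have h1 := hLD (m (c * d g) (f n)) (m (d g⁻¹) (f n))
    have h2 := hLD (m (d g) (f n)) (m (c * d g⁻¹) (f n))
    have h3 : ‖m (c * d g) (f n)‖ * ‖m (d g⁻¹) (f n)‖ ≤ ‖c‖ * C * C := by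
      gcongr
      · exact hmd _ _ _
      · exact hmd1 _ _
    have h4 : ‖m (d g) (f n)‖ * ‖m (c * d g⁻¹) (f n)‖ ≤ C * (‖c‖ * C) := by
      gcongr
      · exact hmd1 _ _
      · exact hmd _ _ _
    have h5 : 0 ≤ ‖L‖ * ‖D‖ := by positivity
    nlinarith [mul_le_mul_of_nonneg_left h3 h5, mul_le_mul_of_nonneg_left h4 h5]
  have Ψd : ∀ h, ∀ᶠ n in atTop, Ψ n (d h) = 0 := by
    intro h
    filter_upwards [hKinv h] with n hn
    simp only [Ψ, Finset.sum_sub_distrib]
    rw [sub_eq_zero.2, smul_zero]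
    refine Finset.sum_bijective (fun g => h * g) (Group.mulLeft_bijective h)
      (fun g => (hn g).symm) (fun g _ => ?_)
    simp only [← map_mul]
    congr 4
    simp [mul_comm]
  have Ψlim : ∀ c, Tendsto (fun n => Ψ n c) atTop (𝓝 0) := by
    let P : Submodule ℂ B :=
      { carrier := {c | Tendsto (fun n => Ψ n c) atTop (𝓝 0)}
        zero_mem' := by
          have : ∀ n, Ψ n 0 = 0 := fun n => by simpa using Ψsmul n 0 0
          simp [this]
        add_mem' := fun {a b} ha hb => by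
          simpa [Ψadd] using Tendsto.add ha hb
        smul_mem' := fun s a ha => by
          simpa [Ψsmul] using Tendsto.const_smul ha s }
    have hP : P = ⊤ := by
      refine hdense P ?_ fun g => ?_
      · rw [← closure_subset_iff_isClosed]
        intro c hc
        change Tendsto (fun n => Ψ n c) atTop (𝓝 0)
        rw [NormedAddGroup.tendsto_nhds_zero]
        intro ε hε
        set C' := 2 * (‖L‖ * ‖D‖ * (C * C)) with hC'
        have hC'0 : 0 ≤ C' := by positivity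
        obtain ⟨c', hc', hcc⟩ := Metric.mem_closure_iff.1 hc (ε / 2 / (C' + 1)) (by positivity)
        have := (NormedAddGroup.tendsto_nhds_zero.1 hc') (ε / 2) (by positivity)
        filter_upwards [this] with n hn
        have e1 : Ψ n c = Ψ n c' + Ψ n (c - c') := by rw [← Ψadd]; simp
        rw [dist_eq_norm] at hcc
        have e2 : ‖Ψ n (c - c')‖ ≤ ε / 2 := by
          refine (Ψbd n _).trans ?_
          rw [lt_div_iff₀ (by positivity)] at hcc
          nlinarith [norm_nonneg (c - c')]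
        rw [e1]
        exact (norm_add_le _ _).trans_lt (by linarith)
      · exact tendsto_const_nhds.congr' ((Ψd g).mono fun n hn => hn.symm)
    intro c
    have : c ∈ P := hP ▸ Submodule.mem_top
    exact this
  let ξ : ℕ → Y := fun n => w n • ∑ g ∈ K n, L (m (d g) (f n)) (D (m (d g⁻¹) (f n)))
  have hξ : ∀ (a : R) n, L a (ξ n) - Rr a (ξ n) = Ψ n a + L (f n * f n) (D a) := by
    intro a n
    rw [← havgc n (L (f n * f n) (D a))]
    simp only [ξ, Ψ, map_smul, map_sum, ← smul_sub, ← smul_add, ← Finset.sum_sub_distrib,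
      ← Finset.sum_add_distrib]
    congr 1
    refine Finset.sum_congr rfl fun g _ => ?_
    have e1 : m (a * d g) (f n) = a * m (d g) (f n) := Subtype.ext (by simp [hm, mul_assoc])
    have e2 : m (a * d g⁻¹) (f n) = m (d g⁻¹) (f n) * a :=
      Subtype.ext (by simp only [hm, coe_mulR, MulMemClass.coe_mul]; ring)
    have e3 : m (d g) (f n) * m (d g⁻¹) (f n) = f n * f n := Subtype.ext (by
      simp only [hm, coe_mulR, MulMemClass.coe_mul]
      have : d g * d g⁻¹ = 1 := by rw [← map_mul]; simp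
      linear_combination (f n : B) * (f n : B) * this)
    rw [e1, e2, hD, ← e3, hL, hL, map_add, hLR]
    abel
  refine ⟨fun n => ξ n + (L (q n) (D (r n)) - D (r n)),
    ‖L‖ * ‖D‖ * (C * C) + (‖L‖ * ‖D‖ * (C * C) + ‖D‖ * C), fun n => ?_, fun a => ?_⟩
  · refine (norm_add_le _ _).trans (add_le_add ?_ ((norm_sub_le _ _).trans (add_le_add ?_ ?_)))
    · refine havg n _ _ fun g => (hLD _ _).trans ?_
      gcongr
      · exact hmd1 _ _
      · exact hmd1 _ _
    · refine (hLD _ _).trans ?_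
      gcongr
      · exact hq n
      · exact hr n
    · exact (D.le_opNorm _).trans (by gcongr; exact hr n)
  · have key : ∀ n, L a (ξ n + (L (q n) (D (r n)) - D (r n))) -
        Rr a (ξ n + (L (q n) (D (r n)) - D (r n))) =
        Ψ n a + L (a * q n - a) (D (r n)) + D (r n * a) - L (q n) (D (r n * a - a)) := by
      intro n
      have h1 := hξ a n
      rw [hfqr] at h1
      simp only [map_add, map_sub, add_apply, sub_apply,
        hL, hD, hLR] at h1 ⊢
      rw [← sub_eq_zero] at h1 ⊢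
      rw [← h1]
      abel
    simp only [key]
    have t1 : Tendsto (fun n => L (a * q n - a) (D (r n))) atTop (𝓝 0) := by
      have h0 : Tendsto (fun n => ‖L‖ * ‖D‖ * (‖a * q n - a‖ * C)) atTop (𝓝 0) := by
        have := ((tendsto_iff_norm_sub_tendsto_zero.1 (hqa a)).mul_const C).const_mul (‖L‖ * ‖D‖)
        simpa using this
      refine squeeze_zero_norm (fun n => (hLD _ _).trans ?_) h0
      gcongr
      exact hr n
    have t2 : Tendsto (fun n => L (q n) (D (r n * a - a))) atTop (𝓝 0) := by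
      have h0 : Tendsto (fun n => ‖L‖ * ‖D‖ * (C * ‖r n * a - a‖)) atTop (𝓝 0) := by
        have := ((tendsto_iff_norm_sub_tendsto_zero.1 (hra a)).const_mul C).const_mul (‖L‖ * ‖D‖)
        simpa using this
      refine squeeze_zero_norm (fun n => (hLD _ _).trans ?_) h0
      gcongr
      exact hq n
    have t3 : Tendsto (fun n => D (r n * a)) atTop (𝓝 (D a)) :=
      (D.continuous.tendsto a).comp (hra a)
    simpa using (((Ψlim a).add t1).add t3).sub t2

end approx

theorem isAmenable_of_bai {B : Type*} [NormedCommRing B] [NormedAlgebra ℂ B]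
    (R : NonUnitalSubalgebra ℂ B) [CompleteSpace R] (hR : ∀ b : B, ∀ a ∈ R, b * a ∈ R)
    {G : Type*} [CommGroup G] (d : G →* B) (hd : ∀ g, ‖d g‖ ≤ 1)
    (hdense : ∀ P : Submodule ℂ B, IsClosed (P : Set B) → (∀ g, d g ∈ P) → P = ⊤)
    (K : ℕ → Finset G) (hK : ∀ n, (K n).Nonempty)
    (hKinv : ∀ h, ∀ᶠ n in atTop, ∀ g, h * g ∈ K n ↔ g ∈ K n)
    (e : ℕ → R) (C : ℝ) (he : ∀ n, ‖e n‖ ≤ C)
    (hea : ∀ a : R, Tendsto (fun n => a * e n) atTop (𝓝 a)) : IsAmenable.{u} R := by
  intro X _ _ _ M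
  refine ⟨fun D hD => ?_⟩
  have hC : 0 ≤ C := (norm_nonneg _).trans (he 0)
  let L : R →L[ℂ] StrongDual ℂ X →L[ℂ] StrongDual ℂ X :=
    (ContinuousLinearMap.compL ℂ X X ℂ).flip.comp M.r
  let Rr : R →L[ℂ] StrongDual ℂ X →L[ℂ] StrongDual ℂ X :=
    (ContinuousLinearMap.compL ℂ X X ℂ).flip.comp M.l
  let f : ℕ → R := fun n => e n + e n - e n * e n
  let r : ℕ → R := fun n => e n - f n + e n * f n
  have hcomm : ∀ a b : R, a * b = b * a := fun a b => Subtype.ext (mul_comm (a : B) b)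
  have hf : ∀ n, ‖f n‖ ≤ C + C + C * C := fun n =>
    (norm_sub_le _ _).trans (add_le_add ((norm_add_le _ _).trans (add_le_add (he n) (he n)))
      (norm_mul_le_of_le (he n) (he n)))
  have hr : ∀ n, ‖r n‖ ≤ C + (C + C + C * C) + C * (C + C + C * C) := fun n =>
    (norm_add_le _ _).trans (add_le_add ((norm_sub_le _ _).trans (add_le_add (he n) (hf n)))
      (norm_mul_le_of_le (he n) (hf n)))
  have hmul : ∀ (s t : ℕ → R) (c : ℝ), (∀ n, ‖t n‖ ≤ c) →
      (∀ a : R, Tendsto (fun n => a * s n) atTop (𝓝 a)) →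
      (∀ a : R, Tendsto (fun n => a * t n) atTop (𝓝 a)) →
      ∀ a : R, Tendsto (fun n => a * (s n * t n)) atTop (𝓝 a) := by
    intro s t c ht hs hta a
    have h0 : Tendsto (fun n => (a * s n - a) * t n) atTop (𝓝 0) := by
      have := (tendsto_iff_norm_sub_tendsto_zero.1 (hs a)).mul_const c
      rw [zero_mul] at this
      exact squeeze_zero_norm (fun n => norm_mul_le_of_le le_rfl (ht n)) this
    have := h0.add (hta a)
    rw [zero_add] at this
    refine this.congr fun n => ?_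
    rw [sub_mul, mul_assoc, sub_add_cancel]
  have hfa : ∀ a : R, Tendsto (fun n => a * f n) atTop (𝓝 a) := by
    intro a
    have := ((hea a).add (hea a)).sub (hmul e e C he hea hea a)
    simpa [f, mul_sub, mul_add] using this
  have hra : ∀ a : R, Tendsto (fun n => r n * a) atTop (𝓝 a) := by
    intro a
    have := ((hea a).sub (hfa a)).add (hmul e f _ hf hea hfa a)
    simp only [sub_self, zero_add] at this
    refine this.congr fun n => ?_
    rw [hcomm (r n) a]
    simp only [r, mul_add, mul_sub]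
  obtain ⟨θ, C', hθ, hlim⟩ := approx_inner hR d hd hdense K hK hKinv f e r
    (C + (C + C + C * C) + C * (C + C + C * C)) (by positivity)
    (fun n => (hf n).trans (by nlinarith [mul_nonneg hC hC]))
    (fun n => (he n).trans (by nlinarith [mul_nonneg hC hC])) hr
    (fun n => Subtype.ext (by
      simp only [f, r, MulMemClass.coe_mul, AddMemClass.coe_add, AddSubgroupClass.coe_sub]
      ring))
    hea hra L Rr (fun a b y => by ext x; simp [L, M.r_mul])
    (fun a b y => by ext x; simp [L, Rr, M.l_r]) D (fun a b => by ext x; exact hD a b x)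
  have hcpt := WeakDual.isCompact_closedBall (𝕜 := ℂ) (E := X) 0 C'
  obtain ⟨ξ, -, hξ⟩ := hcpt.exists_mapClusterPt (f := atTop)
    (u := fun n => StrongDual.toWeakDual (θ n))
    (by
      rw [le_principal_iff, mem_map]
      exact Eventually.of_forall fun n => by simpa using hθ n)
  refine ⟨WeakDual.toStrongDual ξ, fun a x => ?_⟩
  let φ : WeakDual ℂ X → ℂ := fun η => η (M.r a x) - η (M.l a x)
  have hφ : Continuous φ := (WeakDual.eval_continuous _).sub (WeakDual.eval_continuous _)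
  have h1 : MapClusterPt (φ ξ) atTop (φ ∘ fun n => StrongDual.toWeakDual (θ n)) :=
    hξ.continuousAt_comp hφ.continuousAt
  have h2 : Tendsto (φ ∘ fun n => StrongDual.toWeakDual (θ n)) atTop (𝓝 (D a x)) :=
    ((ContinuousLinearMap.apply ℂ ℂ x).continuous.tendsto _).comp (hlim a)
  have h3 : φ ξ = D a x := eq_of_nhds_neBot (h1.clusterPt.mono h2)
  exact h3.symm

end Pool.Agent.P.MP_bf3635_an
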