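import Pool.Agent.P.MP_bf3635_an.Defs

/-! Basic facts on `ℓ¹(G)`, the Fourier transform, and finitely supported measures. -/

open Filter Topology

set_option linter.unusedSectionVars false

noncomputable section

namespace Pool.Agent.P.MP_bf3635_an

namespace L1

variable {G : Type}

open Classical in
theorem val_delta (g x : G) : (delta g).val x = if x = g then 1 else 0 := rfl

theorem norm_delta (g : G) : ‖delta g‖ = 1 := by
  classical
  refine (delta g).hasSum_norm.unique ?_
  have := hasSum_ite_eq g (1 : ℝ)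
  convert this using 2 with x
  rw [val_delta]
  split_ifs <;> simp

theorem hasSum_delta (f : L1 G) : HasSum (fun g => f.val g • delta g) f := by
  classical
  have := lp.hasSum_single (p := 1) (by simp) (show lp (fun _ : G => ℂ) 1 from f)
  have e : (fun g => f.val g • delta g) =
      fun g => (show L1 G from lp.single (E := fun _ : G => ℂ) 1 g (f.val g)) := by
    funext g
    refine L1.ext fun x => ?_
    rw [val_smul, val_delta]
    change _ = (Pi.single g (f.val g) : G → ℂ) x
    rw [Pi.single_apply]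
    split_ifs <;> simp
  rw [e]
  exact this

theorem dense_delta (P : Submodule ℂ (L1 G)) (hP : IsClosed (P : Set (L1 G)))
    (h : ∀ g, delta g ∈ P) : P = ⊤ := by
  rw [eq_top_iff]
  intro f _
  exact hP.mem_of_tendsto (hasSum_delta f) (Eventually.of_forall fun s =>
    P.sum_mem fun g _ => P.smul_mem _ (h g))

theorem norm_clm_le (Φ : L1 G →L[ℂ] ℂ) (c : ℝ) (h : ∀ g, ‖Φ (delta g)‖ ≤ c) (f : L1 G) :
    ‖Φ f‖ ≤ ‖f‖ * c := by
  have h1 := (hasSum_delta f).mapL Φ
  rw [← h1.tsum_eq]
  refine tsum_of_norm_bounded (f.hasSum_norm.mul_right c) fun g => ?_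
  rw [map_smul, norm_smul]
  gcongr
  exact h g

variable [CommGroup G]

theorem delta_mul (g h : G) : delta g * delta h = delta (g * h) := by
  refine L1.ext fun x => ?_
  change (conv (delta g) (delta h)).val x = _
  rw [val_conv, tsum_eq_single g]
  · simp only [val_delta, if_true, one_mul]
    congr 1
    exact propext inv_mul_eq_iff_eq_mul
  · intro y hy
    simp [val_delta, hy]

/-- The point masses, as a monoid homomorphism. -/
def deltaHom : G →* L1 G where
  toFun := delta
  map_one' := rfl
  map_mul' g h := (delta_mul g h).symm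

instance : NormOneClass (L1 G) := ⟨norm_delta 1⟩

end L1

variable {G : Type} [CommGroup G] [TopologicalSpace G]

theorem norm_fourier_le (f : L1 G) (γ : PontryaginDual G) : ‖fourier f γ‖ ≤ ‖f‖ := by
  refine tsum_of_norm_bounded f.hasSum_norm fun g => ?_
  simp only [norm_mul, Circle.norm_coe, mul_one, le_refl]

theorem fourier_sub (f h : L1 G) (γ : PontryaginDual G) :
    fourier (f - h) γ = fourier f γ - fourier h γ := map_sub (fourierChar γ) f h

theorem continuous_fourier_left (γ : PontryaginDual G) :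
    Continuous fun f : L1 G => fourier f γ := map_continuous (fourierChar γ)

theorem mem_idealI {E : Set (PontryaginDual G)} {f : L1 G} :
    f ∈ idealI fourierChar E ↔ ∀ γ ∈ E, fourier f γ = 0 := Iff.rfl

theorem mem_idealJ {E : Set (PontryaginDual G)} {f : L1 G} :
    f ∈ idealJ fourierChar E ↔ ∃ U ∈ 𝓝ˢ E, ∀ γ ∈ U, fourier f γ = 0 := Iff.rfl

theorem fourier_sum {ι : Type*} (s : Finset ι) (f : ι → L1 G) (γ : PontryaginDual G) :
    fourier (∑ i ∈ s, f i) γ = ∑ i ∈ s, fourier (f i) γ := map_sum (fourierChar γ) f s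

theorem fourier_prod {ι : Type*} (s : Finset ι) (f : ι → L1 G) (γ : PontryaginDual G) :
    fourier (∏ i ∈ s, f i) γ = ∏ i ∈ s, fourier (f i) γ := map_prod (fourierChar γ) f s

theorem fourier_hasSum {ι : Type*} {f : ι → L1 G} {a : L1 G} (h : HasSum f a)
    (γ : PontryaginDual G) : HasSum (fun i => fourier (f i) γ) (fourier a γ) :=
  h.map (fourierChar γ).toAddMonoidHom (continuous_fourier_left γ)

/-! ### Finitely supported complex measures on a monoid -/

section integ

variable {Γ : Type} [CommGroup Γ]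

/-- integration of a function against a finitely supported measure -/
def integ : MonoidAlgebra ℂ Γ →ₗ[ℂ] (Γ → ℂ) →ₗ[ℂ] ℂ :=
  LinearMap.mk₂ ℂ (fun T F => T.coeff.sum fun γ c => c * F γ)
    (fun T T' F => by
      rw [MonoidAlgebra.coeff_add, Finsupp.sum_add_index'] <;> simp [add_mul])
    (fun c T F => by
      rw [MonoidAlgebra.coeff_smul, Finsupp.sum_smul_index', smul_eq_mul, Finsupp.mul_sum]
      · simp [mul_assoc]
      · simp)
    (fun T F F' => by simp [mul_add, Finsupp.sum_add])
    (fun c T F => by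
      simp only [Pi.smul_apply, smul_eq_mul, Finsupp.mul_sum]
      exact Finsupp.sum_congr fun _ _ => by ring)

theorem integ_apply (T : MonoidAlgebra ℂ Γ) (F : Γ → ℂ) :
    integ T F = T.coeff.sum fun γ c => c * F γ := rfl

@[simp] theorem integ_single (γ : Γ) (c : ℂ) (F : Γ → ℂ) :
    integ (MonoidAlgebra.single γ c) F = c * F γ := by
  rw [integ_apply, MonoidAlgebra.coeff_single, Finsupp.sum_single_index]
  simp

theorem integ_one (F : Γ → ℂ) : integ (1 : MonoidAlgebra ℂ Γ) F = F 1 := by
  rw [MonoidAlgebra.one_def, integ_single, one_mul]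

theorem integ_single_mul (x : Γ) (c : ℂ) (h : MonoidAlgebra ℂ Γ) (F : Γ → ℂ) :
    integ (MonoidAlgebra.single x c * h) F = c * integ h (fun y => F (x * y)) := by
  induction h using MonoidAlgebra.induction_linear with
  | zero => simp
  | add f g hf hg => simp only [mul_add, map_add, LinearMap.add_apply, hf, hg]
  | single y b => simp [MonoidAlgebra.single_mul_single, mul_assoc]

theorem integ_mul (T h : MonoidAlgebra ℂ Γ) (F : Γ → ℂ) :
    integ (T * h) F = integ T (fun x => integ h (fun y => F (x * y))) := by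
  induction T using MonoidAlgebra.induction_linear with
  | zero => simp
  | add f g hf hg => simp only [add_mul, map_add, LinearMap.add_apply, hf, hg]
  | single x c => rw [integ_single_mul, integ_single]

theorem integ_hom (T : MonoidAlgebra ℂ Γ) (φ : Γ →* ℂ) :
    integ T φ = MonoidAlgebra.lift ℂ ℂ Γ φ T := by
  rw [MonoidAlgebra.lift_apply, integ_apply]
  rfl

theorem integ_const_mul (T : MonoidAlgebra ℂ Γ) (c : ℂ) (F : Γ → ℂ) :
    integ T (fun γ => c * F γ) = c * integ T F := map_smul (integ T) c F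

/-- total variation -/
def mass (T : MonoidAlgebra ℂ Γ) : ℝ := T.coeff.sum fun _ c => ‖c‖

theorem mass_nonneg (T : MonoidAlgebra ℂ Γ) : 0 ≤ mass T :=
  Finset.sum_nonneg fun _ _ => norm_nonneg _

theorem norm_integ_le (T : MonoidAlgebra ℂ Γ) (F : Γ → ℂ) (c : ℝ) (h : ∀ γ, ‖F γ‖ ≤ c) :
    ‖integ T F‖ ≤ mass T * c := by
  rw [integ_apply, mass, Finsupp.sum, Finsupp.sum, Finset.sum_mul]
  refine (norm_sum_le _ _).trans (Finset.sum_le_sum fun γ _ => ?_)
  rw [norm_mul]
  gcongr
  exact h γ

/-- the measure `T` lives on the set `S` -/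
def SuppIn (T : MonoidAlgebra ℂ Γ) (S : Set Γ) : Prop :=
  ∀ F : Γ → ℂ, (∀ γ ∈ S, F γ = 0) → integ T F = 0

theorem SuppIn.congr {T : MonoidAlgebra ℂ Γ} {S : Set Γ} (h : SuppIn T S) {F F' : Γ → ℂ}
    (H : ∀ γ ∈ S, F γ = F' γ) : integ T F = integ T F' := by
  rw [← sub_eq_zero, ← map_sub]
  exact h _ fun γ hγ => by simp [H γ hγ]

theorem SuppIn.mono {T : MonoidAlgebra ℂ Γ} {S S' : Set Γ} (h : SuppIn T S) (H : S ⊆ S') :
    SuppIn T S' := fun F hF => h F fun γ hγ => hF γ (H hγ)

theorem SuppIn.norm_le {T : MonoidAlgebra ℂ Γ} {S : Set Γ} (h : SuppIn T S) (F : Γ → ℂ) (c : ℝ)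
    (hc : 0 ≤ c) (H : ∀ γ ∈ S, ‖F γ‖ ≤ c) : ‖integ T F‖ ≤ mass T * c := by
  classical
  rw [h.congr (F' := fun γ => if γ ∈ S then F γ else 0) (fun γ hγ => by simp [hγ])]
  refine norm_integ_le _ _ _ fun γ => ?_
  split_ifs with hγ
  · exact H γ hγ
  · simpa using hc

theorem suppIn_single (γ : Γ) (c : ℂ) {S : Set Γ} (h : γ ∈ S) :
    SuppIn (MonoidAlgebra.single γ c) S := fun F hF => by simp [hF γ h]

theorem SuppIn.sum {ι : Type*} {s : Finset ι} {T : ι → MonoidAlgebra ℂ Γ} {S : Set Γ}
    (h : ∀ i ∈ s, SuppIn (T i) S) : SuppIn (∑ i ∈ s, T i) S := fun F hF => by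
  rw [map_sum, LinearMap.sum_apply]
  exact Finset.sum_eq_zero fun i hi => h i hi F hF

theorem SuppIn.smul {T : MonoidAlgebra ℂ Γ} {S : Set Γ} (h : SuppIn T S) (c : ℂ) :
    SuppIn (c • T) S := fun F hF => by
  rw [map_smul, LinearMap.smul_apply, h F hF, smul_zero]

theorem SuppIn.mul {T h : MonoidAlgebra ℂ Γ} {S S' S'' : Set Γ} (hT : SuppIn T S)
    (hh : SuppIn h S') (H : ∀ x ∈ S, ∀ y ∈ S', x * y ∈ S'') : SuppIn (T * h) S'' := fun F hF => by
  rw [integ_mul]
  exact hT _ fun x hx => hh _ fun y hy => hF _ (H x hx y hy)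

/-- one step of a signed Markov chain -/
def step (T : MonoidAlgebra ℂ Γ) (h : Γ → MonoidAlgebra ℂ Γ) : MonoidAlgebra ℂ Γ :=
  T.coeff.sum fun x c => MonoidAlgebra.single x c * h x

theorem integ_step (T : MonoidAlgebra ℂ Γ) (h : Γ → MonoidAlgebra ℂ Γ) (F : Γ → ℂ) :
    integ (step T h) F = integ T (fun x => integ (h x) (fun y => F (x * y))) := by
  rw [step, Finsupp.sum, map_sum, LinearMap.sum_apply, integ_apply T, Finsupp.sum]
  exact Finset.sum_congr rfl fun x _ => integ_single_mul _ _ _ _

end integ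

/-- a finitely supported measure on the dual group, as a functional on `ℓ¹(G)` -/
def pairCLM (T : MonoidAlgebra ℂ (PontryaginDual G)) : L1 G →L[ℂ] ℂ :=
  LinearMap.mkContinuous
    { toFun := fun f => integ T (fourier f)
      map_add' := fun f h => by
        rw [← map_add]
        congr 1
        exact funext fun γ => fourier_add f h γ
      map_smul' := fun c f => by
        rw [RingHom.id_apply, ← map_smul]
        congr 1
        exact funext fun γ => fourier_smul c f γ }
    (mass T) (fun f => norm_integ_le T _ _ fun γ => norm_fourier_le f γ)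

theorem pairCLM_apply (T : MonoidAlgebra ℂ (PontryaginDual G)) (f : L1 G) :
    pairCLM T f = integ T (fourier f) := rfl

/-- evaluation of characters at a group element -/
def evg (g : G) : PontryaginDual G →* ℂ where
  toFun γ := γ g
  map_one' := rfl
  map_mul' _ _ := Circle.coe_mul _ _

theorem evg_apply (g : G) (γ : PontryaginDual G) : evg g γ = γ g := rfl

theorem norm_evg (g : G) (γ : PontryaginDual G) : ‖evg g γ‖ = 1 := Circle.norm_coe _

theorem continuous_evg (g : G) : Continuous fun γ : PontryaginDual G => evg g γ := by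
  have : Continuous fun γ : PontryaginDual G => γ g :=
    continuous_eval_const (F := G →ₜ* Circle) g
  exact continuous_subtype_val.comp this

end Pool.Agent.P.MP_bf3635_an
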