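import Mathlib

/-! The finite combinatorial core: Chebyshev polynomials averaged over permutations. -/

open Polynomial

noncomputable section

namespace Pool.Agent.P.MP_bf3635_an

theorem cheb_growth (δ : ℝ) (hδ : 0 ≤ δ) (n : ℕ) :
    1 + (n : ℝ) ^ 2 * δ ≤ (Chebyshev.T ℝ n).eval (1 + δ) := by
  have key : ∀ n : ℕ, 1 + (n : ℝ) ^ 2 * δ ≤ (Chebyshev.T ℝ n).eval (1 + δ) ∧
      (Chebyshev.T ℝ n).eval (1 + δ) + (2 * n + 1) * δ ≤
        (Chebyshev.T ℝ ((n : ℤ) + 1)).eval (1 + δ) := by
    intro n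
    induction n with
    | zero => simp
    | succ n ih =>
      obtain ⟨h1, h2⟩ := ih
      have h3 := congrArg (eval (1 + δ)) (Chebyshev.T_add_two ℝ (n : ℤ))
      simp only [eval_sub, eval_mul, eval_ofNat, eval_X] at h3
      have h4 : (1 : ℝ) ≤ (Chebyshev.T ℝ ((n : ℤ) + 1)).eval (1 + δ) :=
        Chebyshev.one_le_eval_T_real _ (by linarith)
      push_cast
      refine ⟨by nlinarith, ?_⟩
      rw [add_assoc (n : ℤ) 1 1, one_add_one_eq_two, h3]
      nlinarith
  exact (key n).1

theorem exists_poly (ε η : ℝ) (hε : 0 < ε) (hη : 0 < η) :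
    ∃ (N : ℕ) (Q : ℝ[X]), Even N ∧ 0 < N ∧ 2 * (Q.natDegree : ℝ) / N ≤ ε ∧ Q.eval 1 = 1 ∧
      (∀ t : ℝ, -1 ≤ t → t ≤ 1 - 2 / N → |Q.eval t| ≤ η) ∧ 2 / (N : ℝ) ≤ η := by
  obtain ⟨k, hk⟩ := exists_nat_ge (1 / ε)
  have hk0 : (0 : ℝ) < k := lt_of_lt_of_le (by positivity) hk
  have hk1 : (1 : ℝ) ≤ k := by exact_mod_cast (Nat.cast_pos.1 hk0)
  obtain ⟨d, hd⟩ := exists_nat_ge (k / η)
  have hd0 : (0 : ℝ) < d := lt_of_lt_of_le (by positivity) hd
  rw [div_le_iff₀ hε] at hk
  rw [div_le_iff₀ hη] at hd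
  set δ : ℝ := 1 / (k * d) with hδ
  have hδ0 : 0 < δ := by positivity
  have hN : 2 / ((2 * k * d : ℕ) : ℝ) = δ := by
    push_cast
    rw [hδ]
    field_simp
  set c : ℝ := (Chebyshev.T ℝ d).eval (1 + δ) with hc
  have hcg : 1 + d / k ≤ c := by
    have := cheb_growth δ hδ0.le d
    have e : (d : ℝ) ^ 2 * δ = d / k := by rw [hδ]; field_simp
    rwa [e] at this
  have hc0 : 0 < c := lt_of_lt_of_le (by positivity) hcg
  refine ⟨2 * k * d, C c⁻¹ * (Chebyshev.T ℝ d).comp (X + C δ), ⟨k * d, by ring⟩,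
    by exact_mod_cast (show (0 : ℝ) < 2 * k * d by positivity), ?_, ?_, ?_, ?_⟩
  · have h1 : (C c⁻¹ * (Chebyshev.T ℝ d).comp (X + C δ)).natDegree ≤ d := by
      refine (natDegree_C_mul_le _ _).trans (natDegree_comp_le.trans ?_)
      rw [natDegree_X_add_C, Chebyshev.natDegree_T]
      simp
    have h2 : ((C c⁻¹ * (Chebyshev.T ℝ d).comp (X + C δ)).natDegree : ℝ) ≤ d := by
      exact_mod_cast h1
    push_cast
    rw [div_le_iff₀ (by positivity)]
    nlinarith
  · simp only [eval_mul, eval_C, eval_comp, eval_add, eval_X]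
    exact inv_mul_cancel₀ hc0.ne'
  · intro t h1 h2
    rw [hN] at h2
    simp only [eval_mul, eval_C, eval_comp, eval_add, eval_X, abs_mul]
    have h3 := Chebyshev.abs_eval_T_real_le_one d (x := t + δ) (abs_le.2 ⟨by linarith, by linarith⟩)
    rw [abs_of_pos (inv_pos.2 hc0)]
    refine (mul_le_of_le_one_right (inv_pos.2 hc0).le h3).trans ?_
    rw [inv_le_comm₀ hc0 hη]
    refine le_trans ?_ hcg
    have : η⁻¹ ≤ d / k := by
      rw [le_div_iff₀ hk0, inv_mul_le_iff₀ hη]
      linarith
    linarith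
  · rw [hN, hδ, div_le_iff₀ (by positivity)]
    nlinarith

theorem perm_count {N : ℕ} (a b : Fin N → ℝ)
    (hnc : ∃ p q, b p ≠ b q) :
    (Finset.univ.filter fun π : Equiv.Perm (Fin N) => ∀ j, a j = b (π j)).card * N ≤
      2 * N.factorial := by
  classical
  -- choose `p` in the minority class
  obtain ⟨p, hp⟩ : ∃ p, N ≤ 2 * (Finset.univ.filter fun q => b q ≠ b p).card := by
    obtain ⟨p, q, hpq⟩ := hnc
    by_contra! h
    have h1 := h p
    have h2 := h q
    have h3 : (Finset.univ : Finset (Fin N)) ⊆ (Finset.univ.filter fun r => b r ≠ b p) ∪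
        (Finset.univ.filter fun r => b r ≠ b q) := by
      intro r _
      simp only [Finset.mem_union, Finset.mem_filter, Finset.mem_univ, true_and]
      by_contra! h4
      exact hpq (h4.1.symm.trans h4.2)
    have h4 := (Finset.card_le_card h3).trans (Finset.card_union_le _ _)
    rw [Finset.card_univ, Fintype.card_fin] at h4
    omega
  set A := Finset.univ.filter fun π : Equiv.Perm (Fin N) => ∀ j, a j = b (π j) with hA
  set M := Finset.univ.filter fun q => b q ≠ b p with hM
  have hinj : (A ×ˢ M).card ≤ (Finset.univ : Finset (Equiv.Perm (Fin N))).card := by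
    refine Finset.card_le_card_of_injOn (fun x => Equiv.swap p x.2 * x.1)
      (fun _ _ => Finset.mem_coe.2 (Finset.mem_univ _)) ?_
    rintro ⟨π, q⟩ h1 ⟨π', q'⟩ h2 h
    simp only [hA, hM, Finset.coe_product, Set.mem_prod, Finset.coe_filter, Finset.mem_univ,
      true_and, Set.mem_ofPred_eq] at h1 h2
    have hq : q = q' := by
      by_contra hqq
      have e1 : Equiv.swap p q (π (π⁻¹ p)) = Equiv.swap p q' (π' (π⁻¹ p)) :=
        congrArg (fun σ : Equiv.Perm (Fin N) => σ (π⁻¹ p)) h
      have e2 : b (π (π⁻¹ p)) = b (π' (π⁻¹ p)) := (h1.1 _).symm.trans (h2.1 _)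
      simp only [Equiv.Perm.coe_inv, Equiv.apply_symm_apply, Equiv.swap_apply_left] at e1 e2
      have hqp : q ≠ p := fun e => h1.2 (by rw [e])
      have e3 : π' (π.symm p) = q := by
        have := congrArg (Equiv.swap p q') e1
        rw [Equiv.swap_apply_self, Equiv.swap_apply_of_ne_of_ne hqp hqq] at this
        exact this.symm
      rw [e3] at e2
      exact h1.2 e2.symm
    subst hq
    exact Prod.ext (mul_left_cancel h) rfl
  rw [Finset.card_product, Finset.card_univ, Fintype.card_perm, Fintype.card_fin] at hinj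
  nlinarith

theorem corr_cases {N : ℕ} (hN : 0 < N) (a c : Fin N → ℝ) (ha : ∀ j, a j = 1 ∨ a j = -1)
    (hc : ∀ j, c j = 1 ∨ c j = -1) :
    ((∀ j, a j = c j) ∧ (N : ℝ)⁻¹ * ∑ j, a j * c j = 1) ∨
      (¬ (∀ j, a j = c j) ∧ -1 ≤ (N : ℝ)⁻¹ * ∑ j, a j * c j ∧
        (N : ℝ)⁻¹ * ∑ j, a j * c j ≤ 1 - 2 / N) := by
  classical
  have hN' : (0 : ℝ) < N := by exact_mod_cast hN
  by_cases h : ∀ j, a j = c j
  · left
    refine ⟨h, ?_⟩
    have : ∀ j, a j * c j = 1 := fun j => by
      rw [← h j]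
      rcases ha j with e | e <;> rw [e] <;> norm_num
    simp [this, hN'.ne']
  · right
    refine ⟨h, ?_, ?_⟩
    · have : ∑ _j : Fin N, (-1 : ℝ) ≤ ∑ j, a j * c j := Finset.sum_le_sum fun j _ => by
        rcases ha j with e | e <;> rcases hc j with e' | e' <;> rw [e, e'] <;> norm_num
      simp only [Finset.sum_const, Finset.card_univ, Fintype.card_fin, nsmul_eq_mul] at this
      rw [le_inv_mul_iff₀ hN']
      exact this
    · push Not at h
      obtain ⟨p, hp⟩ := h
      have : ∑ j, a j * c j ≤ ∑ j : Fin N, ((1 : ℝ) - if j = p then 2 else 0) :=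
        Finset.sum_le_sum fun j _ => by
          split_ifs with hj
          · subst hj
            rcases ha j with e | e <;> rcases hc j with e' | e' <;> rw [e, e'] at hp ⊢ <;>
              first | exact (hp rfl).elim | norm_num
          · rcases ha j with e | e <;> rcases hc j with e' | e' <;> rw [e, e'] <;> norm_num
      simp only [Finset.sum_sub_distrib, Finset.sum_const, Finset.card_univ, Fintype.card_fin,
        nsmul_eq_mul, mul_one, Finset.sum_ite_eq', Finset.mem_univ, if_true] at this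
      rw [inv_mul_le_iff₀ hN']
      refine this.trans (le_of_eq ?_)
      field_simp

theorem avg_bound {N : ℕ} (hN : 0 < N) (Q : ℝ[X]) (η : ℝ) (hQ1 : Q.eval 1 = 1)
    (hQ : ∀ t : ℝ, -1 ≤ t → t ≤ 1 - 2 / N → |Q.eval t| ≤ η) (hη : 2 / (N : ℝ) ≤ η)
    (a b : Fin N → ℝ) (ha : ∀ j, a j = 1 ∨ a j = -1) (hb : ∀ j, b j = 1 ∨ b j = -1)
    (h : ¬ ∃ β, ∀ j, a j = β ∧ b j = β) :
    |((N.factorial : ℝ))⁻¹ * ∑ π : Equiv.Perm (Fin N), Q.eval ((N : ℝ)⁻¹ * ∑ j, a j * b (π j))| ≤
      2 * η := by
  classical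
  have hN' : (0 : ℝ) < N := by exact_mod_cast hN
  have hF : (0 : ℝ) < N.factorial := by exact_mod_cast N.factorial_pos
  have hη0 : 0 ≤ η := le_trans (by positivity) hη
  set A := Finset.univ.filter fun π : Equiv.Perm (Fin N) => ∀ j, a j = b (π j) with hA
  have hcard : (A.card : ℝ) ≤ η * N.factorial := by
    by_cases hnc : ∃ p q, b p ≠ b q
    · have h1 : (A.card : ℝ) * N ≤ 2 * N.factorial := by exact_mod_cast perm_count a b hnc
      rw [div_le_iff₀ hN'] at hη
      have : (A.card : ℝ) * N ≤ η * N.factorial * N := by nlinarith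
      exact le_of_mul_le_mul_right this hN'
    · push Not at hnc
      have : A = ∅ := by
        rw [hA, Finset.filter_eq_empty_iff]
        intro π _ hπ
        exact h ⟨b ⟨0, hN⟩, fun j => ⟨(hπ j).trans (hnc _ _), hnc _ _⟩⟩
      rw [this]
      simp only [Finset.card_empty, Nat.cast_zero]
      positivity
  have h1 : ∀ π : Equiv.Perm (Fin N), |Q.eval ((N : ℝ)⁻¹ * ∑ j, a j * b (π j))| ≤
      η + if π ∈ A then 1 else 0 := by
    intro π
    rcases corr_cases hN a (fun j => b (π j)) ha (fun j => hb _) with ⟨e1, e2⟩ | ⟨e1, e2, e3⟩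
    · have : π ∈ A := by simpa [hA] using e1
      rw [e2, hQ1, if_pos this]
      simpa using hη0
    · refine (hQ _ e2 e3).trans ?_
      split_ifs <;> linarith
  have h2 : |∑ π : Equiv.Perm (Fin N), Q.eval ((N : ℝ)⁻¹ * ∑ j, a j * b (π j))| ≤
      N.factorial * η + A.card := by
    refine (Finset.abs_sum_le_sum_abs _ _).trans ((Finset.sum_le_sum fun π _ => h1 π).trans ?_)
    rw [Finset.sum_add_distrib, Finset.sum_const, Finset.card_univ, Fintype.card_perm,
      Fintype.card_fin, nsmul_eq_mul]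
    simp
  rw [abs_mul, abs_of_pos (inv_pos.2 hF), inv_mul_le_iff₀ hF]
  nlinarith

theorem avg_const {N : ℕ} (hN : 0 < N) (Q : ℝ[X]) (hQ1 : Q.eval 1 = 1)
    (a b : Fin N → ℝ) (ha : ∀ j, a j = 1 ∨ a j = -1) (β : ℝ) (h : ∀ j, a j = β ∧ b j = β) :
    ((N.factorial : ℝ))⁻¹ * ∑ π : Equiv.Perm (Fin N), Q.eval ((N : ℝ)⁻¹ * ∑ j, a j * b (π j)) =
      1 := by
  have hN' : (0 : ℝ) < N := by exact_mod_cast hN
  have hF : (0 : ℝ) < N.factorial := by exact_mod_cast N.factorial_pos
  have h1 : ∀ (π : Equiv.Perm (Fin N)) j, a j * b (π j) = 1 := by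
    intro π j
    rw [(h (π j)).2, ← (h j).1]
    rcases ha j with e | e <;> rw [e] <;> norm_num
  simp [h1, hN'.ne', hQ1, Fintype.card_perm, hF.ne']

/-- A convex set containing the vertices of a cube contains the cube. -/
theorem cube_convex {α : Type*} (A : Finset α) (P : (α → ℝ) → Prop)
    (hconv : ∀ c c' (t : ℝ), 0 ≤ t → t ≤ 1 → P c → P c' → P (fun a => t * c a + (1 - t) * c' a))
    (hvert : ∀ c, (∀ a ∈ A, c a = 1 ∨ c a = -1) → P c) :
    ∀ c, (∀ a ∈ A, |c a| ≤ 1) → P c := by
  classical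
  have key : ∀ S : Finset α, ∀ c, (∀ a ∈ A, |c a| ≤ 1) →
      (∀ a ∈ A, a ∉ S → c a = 1 ∨ c a = -1) → P c := by
    intro S
    induction S using Finset.induction_on with
    | empty => exact fun c _ h => hvert c fun a ha => h a ha (Finset.notMem_empty a)
    | insert s S hs ih =>
      intro c h1 h2
      by_cases hsA : s ∈ A
      · have hup : ∀ z : ℝ, z = 1 ∨ z = -1 → P (Function.update c s z) := by
          intro z hz
          refine ih _ (fun a ha => ?_) (fun a ha haS => ?_)
          · by_cases e : a = s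
            · subst e
              rcases hz with e | e <;> simp [e]
            · simpa [Function.update_of_ne e] using h1 a ha
          · by_cases e : a = s
            · subst e
              simpa using hz
            · rw [Function.update_of_ne e]
              exact h2 a ha (by simp [e, haS])
        have hb := abs_le.1 (h1 s hsA)
        have := hconv _ _ ((1 + c s) / 2) (by linarith) (by linarith) (hup 1 (Or.inl rfl))
          (hup (-1) (Or.inr rfl))
        convert this using 2 with a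
        by_cases e : a = s
        · subst e
          simp only [Function.update_self]
          ring
        · simp only [Function.update_of_ne e]
          ring
      · refine ih c h1 fun a ha haS => h2 a ha ?_
        rw [Finset.mem_insert, not_or]
        exact ⟨fun e => hsA (e ▸ ha), haS⟩
  exact fun c hc => key A c hc fun a ha ha' => (ha' ha).elim

end Pool.Agent.P.MP_bf3635_an
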