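import Pool.Agent.P.MP_bf3635_an.Coord
import Pool.Agent.P.MP_bf3635_an.Cheb

/-! The building block of the construction. -/

open Filter Topology Polynomial

noncomputable section

namespace Pool.Agent.P.MP_bf3635_an

/-- finitely supported measures on the dual group -/
abbrev Meas : Type := MonoidAlgebra ℂ Γ0

/-- The data attached to the block number `m`. -/
structure Block (m : ℕ) (ε η : ℝ) where
  /-- average of the first half of the coordinates -/
  v : L1 G0
  /-- average of the second half of the coordinates -/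
  w : L1 G0
  /-- the two measures -/
  h : Bool → Meas
  norm_v : ‖v‖ ≤ 1
  norm_w : ‖w‖ ≤ 1
  lc_v : IsLocallyConstant (fourier v)
  lc_w : IsLocallyConstant (fourier w)
  inv_v : ∀ γ ζ : Γ0, (∀ i : Idx, i.1 = m → xc i ζ = 1) → fourier v (γ * ζ) = fourier v γ
  inv_w : ∀ γ ζ : Γ0, (∀ i : Idx, i.1 = m → xc i ζ = 1) → fourier w (γ * ζ) = fourier w γ
  supp : ∀ s, SuppIn (h s) {ζ | (∀ i : Idx, i.1 ≠ m → xc i ζ = 1) ∧
    fourier w ζ = sb s * fourier v ζ ∧ ‖fourier v ζ - 1‖ ≤ ε}
  mass_one : ∀ s, integ (h s) (fun _ => 1) = 1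
  dich : ∀ g, (∀ s, integ (h s) (evg g) = 1) ∨ (∀ s, ‖integ (h s) (evg g)‖ ≤ η)
  small : ∀ s, ‖integ (h s) (fourier v)‖ ≤ η

/-- average of the coordinates of one half of a block -/
def avgv (m N : ℕ) (b : Bool) : L1 G0 :=
  (N : ℂ)⁻¹ • ∑ j : Fin N, L1.delta (bas (m, b, j))

theorem fourier_avgv (m N : ℕ) (b : Bool) (γ : Γ0) :
    fourier (avgv m N b) γ = (N : ℂ)⁻¹ * ∑ j : Fin N, xc (m, b, j) γ := by
  rw [avgv, fourier_smul, fourier_sum]
  simp only [fourier_delta']
  rfl

theorem norm_avgv (m N : ℕ) (b : Bool) : ‖avgv m N b‖ ≤ 1 := by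
  rw [avgv, norm_smul]
  have h : ‖∑ j : Fin N, L1.delta (bas (m, b, j))‖ ≤ N := by
    refine (norm_sum_le _ _).trans ?_
    simp [L1.norm_delta]
  calc ‖(N : ℂ)⁻¹‖ * ‖∑ j : Fin N, L1.delta (bas (m, b, j))‖ ≤ ‖(N : ℂ)⁻¹‖ * N := by gcongr
    _ ≤ 1 := by
      simp only [norm_inv, Complex.norm_natCast]
      exact inv_mul_le_one

theorem lc_sum {X ι : Type*} [TopologicalSpace X] (s : Finset ι) (f : ι → X → ℂ)
    (h : ∀ i, IsLocallyConstant (f i)) : IsLocallyConstant fun x => ∑ i ∈ s, f i x := by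
  classical
  induction s using Finset.induction_on with
  | empty =>
    simp only [Finset.sum_empty]
    exact IsLocallyConstant.const (0 : ℂ)
  | insert a s ha ih =>
    simp only [Finset.sum_insert ha]
    exact (h a).add ih

theorem lc_avgv (m N : ℕ) (b : Bool) : IsLocallyConstant (fourier (avgv m N b)) := by
  have : fourier (avgv m N b) = fun γ => (N : ℂ)⁻¹ * ∑ j : Fin N, xc (m, b, j) γ :=
    funext (fourier_avgv m N b)
  rw [this]
  exact (IsLocallyConstant.const _).mul (lc_sum _ _ fun j => lc_xc _)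

theorem inv_avgv (m N : ℕ) (b : Bool) (γ ζ : Γ0) (h : ∀ j : Fin N, xc (m, b, j) ζ = 1) :
    fourier (avgv m N b) (γ * ζ) = fourier (avgv m N b) γ := by
  simp only [fourier_avgv, map_mul, h, mul_one]

/-- one step of the coupled random walk -/
def stp (m N : ℕ) (π : Equiv.Perm (Fin N)) (j : Fin N) : Γ0 :=
  flp (m, false, j) * flp (m, true, π j)

/-- the law of one step of the coupled random walk -/
def lam (m N : ℕ) (π : Equiv.Perm (Fin N)) : Meas :=
  (N : ℂ)⁻¹ • ∑ j : Fin N, MonoidAlgebra.single (stp m N π j) 1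

/-- where the coupled random walk is after `k` steps -/
def Wset (m N : ℕ) (π : Equiv.Perm (Fin N)) (k : ℕ) : Set Γ0 :=
  {ζ | (∀ i : Idx, i.1 ≠ m → xc i ζ = 1) ∧ (∀ j : Fin N, xc (m, true, π j) ζ = xc (m, false, j) ζ) ∧
    ‖fourier (avgv m N false) ζ - 1‖ ≤ 2 * k / N}

theorem xc_stp_false (m N : ℕ) (π : Equiv.Perm (Fin N)) (j j' : Fin N) :
    xc (m, false, j') (stp m N π j) = if j' = j then -1 else 1 := by
  simp [stp, xc_flp, Fin.val_inj]

theorem xc_stp_true (m N : ℕ) (π : Equiv.Perm (Fin N)) (j j' : Fin N) :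
    xc (m, true, π j') (stp m N π j) = if j' = j then -1 else 1 := by
  simp [stp, xc_flp, Fin.val_inj]

theorem xc_stp_ne (m N : ℕ) (π : Equiv.Perm (Fin N)) (j : Fin N) (i : Idx) (hi : i.1 ≠ m) :
    xc i (stp m N π j) = 1 := by
  have : ∀ b k, i ≠ (m, b, k) := fun b k e => hi (by rw [e])
  simp [stp, xc_flp, this]

theorem suppIn_lam_pow (m N : ℕ) (hN : 0 < N) (π : Equiv.Perm (Fin N)) (k : ℕ) :
    SuppIn (lam m N π ^ k) (Wset m N π k) := by
  have hN' : (0 : ℝ) < N := by exact_mod_cast hN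
  have hNc : (N : ℂ) ≠ 0 := by exact_mod_cast hN.ne'
  induction k with
  | zero =>
    rw [pow_zero, MonoidAlgebra.one_def]
    refine suppIn_single _ _ ⟨fun i _ => map_one _, fun j => by simp, ?_⟩
    simp [fourier_avgv, hNc]
  | succ k ih =>
    rw [pow_succ]
    refine ih.mul (S' := Set.range (stp m N π))
      (SuppIn.smul (SuppIn.sum fun j _ => suppIn_single _ _ (Set.mem_range_self j)) _) ?_
    rintro ζ ⟨h1, h2, h3⟩ _ ⟨j, rfl⟩
    refine ⟨fun i hi => by rw [map_mul, h1 i hi, xc_stp_ne _ _ _ _ _ hi, mul_one],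
      fun j' => by rw [map_mul, map_mul, h2, xc_stp_false, xc_stp_true], ?_⟩
    have e : fourier (avgv m N false) (ζ * stp m N π j) =
        fourier (avgv m N false) ζ - (N : ℂ)⁻¹ * (2 * xc (m, false, j) ζ) := by
      rw [fourier_avgv, fourier_avgv, ← mul_sub]
      congr 1
      have : 2 * xc (m, false, j) ζ =
          ∑ j' : Fin N, if j' = j then 2 * xc (m, false, j') ζ else 0 := by simp
      rw [this, ← Finset.sum_sub_distrib]
      refine Finset.sum_congr rfl fun j' _ => ?_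
      rw [map_mul, xc_stp_false]
      split_ifs <;> ring
    have e2 : ‖(N : ℂ)⁻¹ * (2 * xc (m, false, j) ζ)‖ = 2 / N := by
      rcases xc_cases (m, false, j) ζ with e | e <;> rw [e] <;> simp [div_eq_inv_mul]
    rw [e, sub_right_comm]
    refine (norm_sub_le _ _).trans ?_
    rw [e2]
    push_cast
    rw [mul_add, add_div, mul_one]
    gcongr

theorem suppIn_aeval (m N : ℕ) (hN : 0 < N) (π : Equiv.Perm (Fin N)) (Q : ℝ[X]) :
    SuppIn (aeval (lam m N π) Q) (Wset m N π Q.natDegree) := by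
  rw [aeval_eq_sum_range]
  refine SuppIn.sum fun k hk => ?_
  rw [← Complex.coe_smul]
  refine SuppIn.smul ((suppIn_lam_pow m N hN π k).mono ?_) _
  rintro ζ ⟨h1, h2, h3⟩
  refine ⟨h1, h2, h3.trans ?_⟩
  have : (k : ℝ) ≤ Q.natDegree := by exact_mod_cast Nat.lt_succ_iff.1 (Finset.mem_range.1 hk)
  gcongr

theorem integ_aeval (m N : ℕ) (π : Equiv.Perm (Fin N)) (Q : ℝ[X]) (g : G0) :
    integ (aeval (lam m N π) Q) (evg g) =
      (Q.eval ((N : ℝ)⁻¹ * ∑ j : Fin N, sg (co g (m, false, j)) * sg (co g (m, true, π j))) : ℝ) := by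
  rw [integ_hom]
  have h1 := aeval_algHom_apply ((MonoidAlgebra.lift ℂ ℂ Γ0 (evg g)).restrictScalars ℝ)
    (lam m N π) Q
  rw [AlgHom.restrictScalars_apply, AlgHom.restrictScalars_apply] at h1
  rw [← h1]
  have h2 : MonoidAlgebra.lift ℂ ℂ Γ0 (evg g) (lam m N π) = algebraMap ℝ ℂ
      ((N : ℝ)⁻¹ * ∑ j : Fin N, sg (co g (m, false, j)) * sg (co g (m, true, π j))) := by
    simp [lam, stp, evg_flp]
  rw [h2, aeval_algebraMap_apply, coe_aeval_eq_eval]
  rfl

/-- the character flipping all the coordinates of the second half -/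
def zz (m N : ℕ) : Γ0 := ∏ j : Fin N, flp (m, true, j)

theorem xc_zz_true (m N : ℕ) (j : Fin N) : xc (m, true, j) (zz m N) = -1 := by
  simp [zz, xc_flp, Fin.val_inj]

theorem xc_zz_false (m N : ℕ) (j : ℕ) : xc (m, false, j) (zz m N) = 1 := by
  simp [zz, xc_flp]

theorem xc_zz_ne (m N : ℕ) (i : Idx) (hi : i.1 ≠ m) : xc i (zz m N) = 1 := by
  have : ∀ b k, i ≠ (m, b, k) := fun b k e => hi (by rw [e])
  simp [zz, xc_flp, this]

theorem exists_block (m : ℕ) (ε η : ℝ) (hε : 0 < ε) (hη : 0 < η) : Nonempty (Block m ε η) := by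
  obtain ⟨N, Q, hNe, hN, hdeg, hQ1, hQ, hNη⟩ := exists_poly ε (η / 2) hε (by positivity)
  have hNc : (N : ℂ) ≠ 0 := by exact_mod_cast hN.ne'
  let H : Meas := (N.factorial : ℂ)⁻¹ • ∑ π : Equiv.Perm (Fin N), aeval (lam m N π) Q
  let h : Bool → Meas := fun s => MonoidAlgebra.single (if s then 1 else zz m N) 1 * H
  have hH : ∀ g, integ H (evg g) = (((N.factorial : ℝ)⁻¹ * ∑ π : Equiv.Perm (Fin N),
      Q.eval ((N : ℝ)⁻¹ * ∑ j : Fin N, sg (co g (m, false, j)) * sg (co g (m, true, π j))) : ℝ) :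
      ℂ) := by
    intro g
    simp only [H, map_smul, map_sum, LinearMap.smul_apply, LinearMap.sum_apply, integ_aeval,
      smul_eq_mul]
    push_cast
    rfl
  have hh : ∀ s g, integ (h s) (evg g) = evg g (if s then 1 else zz m N) * integ H (evg g) := by
    intro s g
    simp only [h, integ_single_mul, one_mul, map_mul]
    exact integ_const_mul _ _ _
  have alt1 : ∀ g, (∃ β, ∀ j : Fin N, sg (co g (m, false, j)) = β ∧ sg (co g (m, true, j)) = β) →
      ∀ s, integ (h s) (evg g) = 1 := by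
    rintro g ⟨β, hβ⟩ s
    rw [hh, hH, avg_const hN Q hQ1 (fun j : Fin N => sg (co g (m, false, j)))
      (fun j : Fin N => sg (co g (m, true, j))) (fun j => sg_cases _) β hβ]
    cases s
    · have hb : β = 1 ∨ β = -1 := (hβ ⟨0, hN⟩).1 ▸ sg_cases _
      simp only [zz, Bool.false_eq_true, if_false, map_prod, evg_flp, fun j => (hβ j).2]
      rcases hb with e | e <;> simp [e, hNe.neg_one_pow]
    · simp
  have alt2 : ∀ g, (¬ ∃ β, ∀ j : Fin N, sg (co g (m, false, j)) = β ∧ sg (co g (m, true, j)) = β) →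
      ∀ s, ‖integ (h s) (evg g)‖ ≤ η := by
    intro g hg s
    rw [hh, hH, norm_mul, norm_evg, one_mul, Complex.norm_real, Real.norm_eq_abs]
    have := avg_bound hN Q (η / 2) hQ1 hQ hNη (fun j : Fin N => sg (co g (m, false, j)))
      (fun j : Fin N => sg (co g (m, true, j))) (fun j => sg_cases _) (fun j => sg_cases _) hg
    linarith
  refine ⟨{
    v := avgv m N false
    w := avgv m N true
    h := h
    norm_v := norm_avgv _ _ _
    norm_w := norm_avgv _ _ _
    lc_v := lc_avgv _ _ _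
    lc_w := lc_avgv _ _ _
    inv_v := fun γ ζ hζ => inv_avgv _ _ _ _ _ fun j => hζ _ rfl
    inv_w := fun γ ζ hζ => inv_avgv _ _ _ _ _ fun j => hζ _ rfl
    supp := fun s => ?_
    mass_one := fun s => by
      have e : (fun _ => 1 : Γ0 → ℂ) = evg 1 := funext fun γ => by simp [evg_apply]
      rw [e]
      exact alt1 1 ⟨1, fun j => by simp [sg]⟩ s
    dich := fun g => (em _).imp (alt1 g) (alt2 g)
    small := fun s => ?_ }⟩
  · refine (suppIn_single _ _ (Set.mem_singleton _)).mul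
      (S' := ⋃ π, Wset m N π Q.natDegree)
      (SuppIn.smul (SuppIn.sum fun π _ => (suppIn_aeval m N hN π Q).mono
        (Set.subset_iUnion (fun π => Wset m N π Q.natDegree) π)) _) ?_
    rintro _ rfl ζ hζ
    obtain ⟨π, h1, h2, h3⟩ := Set.mem_iUnion.1 hζ
    have hw : fourier (avgv m N true) ζ = fourier (avgv m N false) ζ := by
      rw [fourier_avgv, fourier_avgv, ← Equiv.sum_comp π]
      simp only [h2]
    cases s
    · simp only [Bool.false_eq_true, if_false]
      have hv : fourier (avgv m N false) (zz m N * ζ) = fourier (avgv m N false) ζ := by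
        rw [mul_comm]
        exact inv_avgv _ _ _ _ _ fun j => xc_zz_false _ _ _
      refine ⟨fun i hi => by rw [map_mul, xc_zz_ne _ _ _ hi, h1 i hi, mul_one], ?_, ?_⟩
      · rw [hv, ← hw, fourier_avgv, fourier_avgv]
        simp [xc_zz_true, sb]
      · rw [hv]
        exact h3.trans hdeg
    · simp only [if_true, one_mul]
      exact ⟨h1, by simp [hw, sb], h3.trans hdeg⟩
  · have e : fourier (avgv m N false) = (N : ℂ)⁻¹ • ∑ j : Fin N, ⇑(evg (bas (m, false, j))) := by
      funext γ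
      rw [fourier_avgv]
      simp [xc]
    rw [e, map_smul, map_sum, norm_smul]
    have h1 : ‖∑ j : Fin N, integ (h s) (evg (bas (m, false, j)))‖ ≤ N * η := by
      refine (norm_sum_le _ _).trans ?_
      have : ∀ j : Fin N, ‖integ (h s) (evg (bas (m, false, j)))‖ ≤ η := by
        intro j
        refine alt2 _ ?_ s
        rintro ⟨β, hβ⟩
        have h2 := (hβ j).1.trans (hβ j).2.symm
        simp [bas, sg] at h2
        norm_num at h2
      simpa using Finset.sum_le_card_nsmul Finset.univ _ η fun j _ => this j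
    calc ‖(N : ℂ)⁻¹‖ * ‖∑ j : Fin N, integ (h s) (evg (bas (m, false, j)))‖
        ≤ ‖(N : ℂ)⁻¹‖ * (N * η) := by gcongr
      _ = η := by
        have hN' : (N : ℝ) ≠ 0 := by exact_mod_cast hN.ne'
        simp [hN']

end Pool.Agent.P.MP_bf3635_an
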