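import Pool.Agent.P.MP_bf3635_an.Block

/-! The recursive construction of the set `E` and of the measures `T_m`. -/

open Filter Topology

noncomputable section

namespace Pool.Agent.P.MP_bf3635_an

open Classical in
/-- the sign pattern of a character on a finite set of coordinates -/
def pat (Λ : Finset Idx) (γ : Γ0) : Finset Idx := Λ.filter fun i => xc i γ = -1

theorem pat_subset (Λ : Finset Idx) (γ : Γ0) : pat Λ γ ⊆ Λ := Finset.filter_subset _ _

theorem pat_eq_iff (Λ : Finset Idx) (γ γ' : Γ0) :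
    pat Λ γ = pat Λ γ' ↔ ∀ i ∈ Λ, xc i γ = xc i γ' := by
  constructor
  · intro h i hi
    have : i ∈ pat Λ γ ↔ i ∈ pat Λ γ' := by rw [h]
    simp only [pat, Finset.mem_filter, hi, true_and] at this
    rcases xc_cases i γ with e | e <;> rcases xc_cases i γ' with e' | e'
    · rw [e, e']
    · exact (this.2 e').trans e'.symm
    · exact e.trans (this.1 e).symm
    · rw [e, e']
  · intro h
    exact Finset.filter_congr fun i hi => by rw [h i hi]

theorem lc_pat (Λ : Finset Idx) : IsLocallyConstant (pat Λ) := by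
  rw [IsLocallyConstant.iff_eventually_eq]
  intro γ
  have : ∀ᶠ γ' in 𝓝 γ, ∀ i ∈ Λ, xc i γ' = xc i γ :=
    (eventually_all_finset Λ).2 fun i _ => (lc_xc i).eventually_eq γ
  filter_upwards [this] with γ' h using (pat_eq_iff _ _ _).2 h

theorem exists_psi : ∃ ψ : ℕ → Γ0 → Bool, (∀ k, IsLocallyConstant (ψ k)) ∧
    (∀ k γ ζ, (∀ i : Idx, i.1 < k → xc i ζ = 1) → ψ k (γ * ζ) = ψ k γ) ∧
    ∀ (Λ : Finset Idx) (P : Finset (Finset Idx)) (M : ℕ), ∃ k, M ≤ k ∧
      ∀ γ, (ψ k γ = true ↔ pat Λ γ ∈ P) := by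
  classical
  obtain ⟨f, hf⟩ := exists_surjective_nat (Finset Idx × Finset (Finset Idx))
  let c : ℕ → Finset Idx × Finset (Finset Idx) := fun k =>
    if ∀ i ∈ (f k.unpair.1).1, i.1 < k then f k.unpair.1 else (∅, ∅)
  have hc : ∀ k, ∀ i ∈ (c k).1, i.1 < k := by
    intro k
    simp only [c]
    split_ifs with h
    · exact h
    · simp
  refine ⟨fun k γ => decide (pat (c k).1 γ ∈ (c k).2), fun k => ?_, fun k γ ζ h => ?_,
    fun Λ P M => ?_⟩
  · exact (lc_pat (c k).1).comp fun S => decide (S ∈ (c k).2)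
  · have : pat (c k).1 (γ * ζ) = pat (c k).1 γ :=
      (pat_eq_iff _ _ _).2 fun i hi => by rw [map_mul, h i (hc k i hi), mul_one]
    simp only [this]
  · obtain ⟨a, ha⟩ := hf (Λ, P)
    refine ⟨Nat.pair a (M + Λ.sup (fun i => i.1) + 1), ?_, fun γ => ?_⟩
    · have := Nat.right_le_pair a (M + Λ.sup (fun i => i.1) + 1)
      omega
    · have : c (Nat.pair a (M + Λ.sup (fun i => i.1) + 1)) = (Λ, P) := by
        simp only [c, Nat.unpair_pair, ha]
        rw [if_pos]
        intro i hi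
        have h1 := Nat.right_le_pair a (M + Λ.sup (fun i => i.1) + 1)
        have h2 : i.1 ≤ Λ.sup (fun i => i.1) := Finset.le_sup (f := fun i : Idx => i.1) hi
        omega
      simp [this]

/-- the sequence of sign functions -/
def psi : ℕ → Γ0 → Bool := exists_psi.choose

theorem lc_psi (k : ℕ) : IsLocallyConstant (psi k) := exists_psi.choose_spec.1 k

theorem psi_inv (k : ℕ) (γ ζ : Γ0) (h : ∀ i : Idx, i.1 < k → xc i ζ = 1) :
    psi k (γ * ζ) = psi k γ := exists_psi.choose_spec.2.1 k γ ζ h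

theorem psi_surj (Λ : Finset Idx) (P : Finset (Finset Idx)) (M : ℕ) :
    ∃ k, M ≤ k ∧ ∀ γ, (psi k γ = true ↔ pat Λ γ ∈ P) := exists_psi.choose_spec.2.2 Λ P M

/-- the tolerances -/
def eps (k : ℕ) : ℝ := (1 / 2) ^ k / 32

theorem eps_pos (k : ℕ) : 0 < eps k := by unfold eps; positivity

/-- the smallness parameter for the next block -/
def etaOf (T : Meas) : ℝ := 1 / (4 * (mass T + 1))

theorem etaOf_pos (T : Meas) : 0 < etaOf T := by
  have := mass_nonneg T
  unfold etaOf
  positivity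

theorem etaOf_le (T : Meas) : etaOf T ≤ 1 / 4 := by
  have := mass_nonneg T
  unfold etaOf
  gcongr
  linarith

theorem mass_mul_etaOf (T : Meas) : mass T * etaOf T ≤ 1 := by
  have := mass_nonneg T
  unfold etaOf
  rw [mul_one_div, div_le_one (by positivity)]
  linarith

/-- a choice of block -/
def blk (m : ℕ) (T : Meas) : Block m (eps m) (etaOf T) :=
  Classical.choice (exists_block m _ _ (eps_pos m) (etaOf_pos T))

/-- the measures converging to a pseudomeasure supported on `E` -/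
def Tm : ℕ → Meas
  | 0 => 1
  | m + 1 => step (Tm m) fun x => (blk m (Tm m)).h (psi m x)

/-- the blocks used -/
def BB (m : ℕ) : Block m (eps m) (etaOf (Tm m)) := blk m (Tm m)

theorem integ_Tm_succ (m : ℕ) (F : Γ0 → ℂ) : integ (Tm (m + 1)) F =
    integ (Tm m) fun x => integ ((BB m).h (psi m x)) fun y => F (x * y) := integ_step _ _ _

/-- the `k`-th condition -/
def Cond (k : ℕ) : Set Γ0 :=
  {γ | fourier (BB k).w γ = sb (psi k γ) * fourier (BB k).v γ ∧
    ‖fourier (BB k).v γ - 1‖ ≤ eps k}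

theorem isClopen_Cond (k : ℕ) : IsClopen (Cond k) := by
  have h := ((BB k).lc_w.prodMk ((BB k).lc_v.prodMk (lc_psi k)))
  let S : Set (ℂ × ℂ × Bool) := {p | p.1 = sb p.2.2 * p.2.1 ∧ ‖p.2.1 - 1‖ ≤ eps k}
  exact ⟨isOpen_compl_iff.1 (h Sᶜ), h S⟩

/-- the compact set -/
def EE : Set Γ0 := ⋂ k, Cond k

theorem isCompact_EE : IsCompact EE :=
  (isClosed_iInter fun k => (isClopen_Cond k).isClosed).isCompact

theorem Cond_mem_nhdsSet (k : ℕ) : Cond k ∈ 𝓝ˢ EE :=
  (isClopen_Cond k).isOpen.mem_nhdsSet.2 (Set.iInter_subset _ k)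

theorem exists_subset_of_mem_nhdsSet {V : Set Γ0} (hV : V ∈ 𝓝ˢ EE) :
    ∃ m, ∀ γ, (∀ k < m, γ ∈ Cond k) → γ ∈ V := by
  obtain ⟨O, hOV, hO, hEO⟩ := mem_nhdsSet.1 hV
  obtain ⟨t, ht⟩ := (hO.isClosed_compl.isCompact).elim_finite_subfamily_closed Cond
    (fun k => (isClopen_Cond k).isClosed)
    (Set.eq_empty_iff_forall_notMem.2 fun γ h => h.1 (hEO h.2))
  refine ⟨t.sup id + 1, fun γ hγ => hOV ?_⟩
  by_contra h
  refine Set.eq_empty_iff_forall_notMem.1 ht γ ⟨h, Set.mem_iInter₂.2 fun k hk => hγ k ?_⟩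
  exact Nat.lt_succ_of_le (Finset.le_sup (f := id) hk)

theorem suppIn_Tm (m : ℕ) :
    SuppIn (Tm m) {γ | (∀ k < m, γ ∈ Cond k) ∧ ∀ i : Idx, m ≤ i.1 → xc i γ = 1} := by
  induction m with
  | zero =>
    change SuppIn (MonoidAlgebra.single 1 1) _
    exact suppIn_single _ _ ⟨fun k hk => absurd hk (Nat.not_lt_zero k), fun i _ => map_one _⟩
  | succ m ih =>
    intro F hF
    rw [integ_Tm_succ]
    refine ih _ fun x ⟨hx1, hx2⟩ => (BB m).supp _ _ fun y ⟨hy1, hy2, hy3⟩ => hF _ ⟨?_, ?_⟩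
    · intro k hk
      have hp : psi k (x * y) = psi k x := psi_inv k x y fun i hi => hy1 i (by omega)
      rcases (Nat.lt_succ_iff.1 hk).lt_or_eq with h | rfl
      · have hv := (BB k).inv_v x y fun i hi => hy1 i (by omega)
        have hw := (BB k).inv_w x y fun i hi => hy1 i (by omega)
        change _ ∧ _
        rw [hv, hw, hp]
        exact hx1 k h
      · have hv := (BB k).inv_v y x fun i hi => hx2 i (by omega)
        have hw := (BB k).inv_w y x fun i hi => hx2 i (by omega)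
        change _ ∧ _
        rw [hp, mul_comm x y, hv, hw]
        exact ⟨hy2, hy3⟩
    · intro i hi
      rw [map_mul, hx2 i (by omega), hy1 i (by omega), mul_one]

theorem norm_Tm_evg (m : ℕ) (g : G0) : ‖integ (Tm m) (evg g)‖ ≤ 1 := by
  induction m with
  | zero =>
    change ‖integ 1 _‖ ≤ 1
    simp [integ_one]
  | succ m ih =>
    rw [integ_Tm_succ]
    simp only [map_mul, integ_const_mul]
    rcases (BB m).dich g with h | h
    · have : ∀ s, integ ((BB m).h s) (fun γ => evg g γ) = 1 := h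
      simp only [this, mul_one]
      exact ih
    · refine (norm_integ_le _ _ (etaOf (Tm m)) fun x => ?_).trans (mass_mul_etaOf _)
      rw [norm_mul, norm_evg, one_mul]
      exact h _

theorem Tm_one (m : ℕ) : integ (Tm m) (fun _ => 1) = 1 := by
  induction m with
  | zero => exact integ_one _
  | succ m ih =>
    rw [integ_Tm_succ]
    simp only [(BB m).mass_one]
    exact ih

theorem norm_Tm_v (m : ℕ) : ‖integ (Tm (m + 1)) (fourier (BB 0).v)‖ ≤ 1 / 4 := by
  induction m with
  | zero =>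
    rw [integ_Tm_succ]
    change ‖integ 1 _‖ ≤ _
    rw [integ_one]
    simp only [one_mul]
    exact ((BB 0).small _).trans (etaOf_le _)
  | succ m ih =>
    rw [integ_Tm_succ]
    have : ∀ x, (integ ((BB (m + 1)).h (psi (m + 1) x)) fun y => fourier (BB 0).v (x * y)) =
        fourier (BB 0).v x := by
      intro x
      rw [((BB (m + 1)).supp _).congr (F' := fun _ => fourier (BB 0).v x * 1), integ_const_mul,
        (BB (m + 1)).mass_one, mul_one]
      intro y hy
      rw [mul_one]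
      exact (BB 0).inv_v x y fun i hi => hy.1 i (by omega)
    simp only [this]
    exact ih

theorem norm_pair_Tm (m : ℕ) (f : L1 G0) : ‖pairCLM (Tm m) f‖ ≤ ‖f‖ := by
  simpa using L1.norm_clm_le (pairCLM (Tm m)) 1 (fun g => by
    rw [pairCLM_apply, fourier_delta']
    exact norm_Tm_evg m g) f

end Pool.Agent.P.MP_bf3635_an
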