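import Pool.Agent.P.MP_bf3635_an.Basic

/-! The group `G0 = ⊕ ℤ/2` and coordinates on its dual (the Cantor group). -/

open Filter Topology

noncomputable section

namespace Pool.Agent.P.MP_bf3635_an

/-- coordinates: block number, half of the block, position -/
abbrev Idx : Type := ℕ × Bool × ℕ

/-- the countable direct sum of copies of `ℤ/2` -/
def G0 : Type := Multiplicative (Idx →₀ ZMod 2)

instance : CommGroup G0 := inferInstanceAs (CommGroup (Multiplicative (Idx →₀ ZMod 2)))

instance : TopologicalSpace G0 := ⊥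

instance : DiscreteTopology G0 := ⟨rfl⟩

/-- the dual group -/
abbrev Γ0 : Type := PontryaginDual G0

/-- coefficients of an element of `G0` -/
def co (g : G0) : Idx →₀ ZMod 2 := Multiplicative.toAdd (α := Idx →₀ ZMod 2) g

/-- the element of `G0` with given coefficients -/
def ofCo (f : Idx →₀ ZMod 2) : G0 := Multiplicative.ofAdd f

@[simp] theorem co_ofCo (f : Idx →₀ ZMod 2) : co (ofCo f) = f := rfl
@[simp] theorem ofCo_co (g : G0) : ofCo (co g) = g := rfl
@[simp] theorem co_mul (g h : G0) : co (g * h) = co g + co h := rfl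
@[simp] theorem co_one : co 1 = 0 := rfl
theorem co_inj {g h : G0} (H : co g = co h) : g = h := H

theorem ofCo_sum {ι : Type*} (s : Finset ι) (f : ι → Idx →₀ ZMod 2) :
    ofCo (∑ i ∈ s, f i) = ∏ i ∈ s, ofCo (f i) := ofAdd_sum s f

theorem G0_mul_self (g : G0) : g * g = 1 := by
  refine co_inj ?_
  ext i
  simp only [co_mul, Finsupp.add_apply, co_one, Finsupp.coe_zero, Pi.zero_apply]
  exact CharTwo.add_self_eq_zero _

theorem G0_inv (g : G0) : g⁻¹ = g := inv_eq_of_mul_eq_one_right (G0_mul_self g)

/-- basis vectors -/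
def bas (i : Idx) : G0 := ofCo (Finsupp.single i 1)

/-- the sign of an element of `ℤ/2` -/
def sg (a : ZMod 2) : ℝ := if a = 0 then 1 else -1

theorem sg_cases (a : ZMod 2) : sg a = 1 ∨ sg a = -1 := by
  unfold sg
  split_ifs <;> simp

theorem toCircle_two (a : ZMod 2) : (ZMod.toCircle a : ℂ) = sg a := by
  have h : a = 0 ∨ a = 1 := by revert a; decide
  rcases h with rfl | rfl
  · simp [sg]
  · rw [ZMod.toCircle_apply]
    have : (1 : ZMod 2).val = 1 := rfl
    rw [this, sg, if_neg one_ne_zero]
    push_cast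
    rw [← Complex.exp_pi_mul_I]
    congr 1
    ring

/-- the character that flips the coordinate `i` -/
def flp (i : Idx) : Γ0 where
  toFun g := ZMod.toCircle (co g i)
  map_one' := by simp
  map_mul' g h := by simp [AddChar.map_add_eq_mul]
  continuous_toFun := continuous_of_discreteTopology

theorem evg_flp (g : G0) (i : Idx) : evg g (flp i) = sg (co g i) := toCircle_two _

/-- the `i`-th coordinate of a character, a sign -/
def xc (i : Idx) : Γ0 →* ℂ := evg (bas i)

theorem evg_cases (g : G0) (γ : Γ0) : evg g γ = 1 ∨ evg g γ = -1 := by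
  rw [← mul_self_eq_one_iff, evg_apply, ← Circle.coe_mul, ← map_mul, G0_mul_self, map_one]
  rfl

theorem xc_cases (i : Idx) (γ : Γ0) : xc i γ = 1 ∨ xc i γ = -1 := evg_cases _ _

theorem xc_flp (i j : Idx) : xc i (flp j) = if i = j then -1 else 1 := by
  rw [xc, evg_flp, bas, co_ofCo, Finsupp.single_apply]
  split_ifs <;> simp [sg]

theorem lc_evg (g : G0) : IsLocallyConstant (evg g) := by
  rw [IsLocallyConstant.iff_eventually_eq]
  intro γ
  have := Metric.tendsto_nhds.1 ((continuous_evg g).tendsto γ) 2 two_pos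
  filter_upwards [this] with γ' h
  rcases evg_cases g γ with e | e <;> rcases evg_cases g γ' with e' | e'
  · rw [e, e']
  · rw [e, e'] at h
    norm_num [dist_eq_norm] at h
  · rw [e, e'] at h
    norm_num [dist_eq_norm] at h
  · rw [e, e']

theorem lc_xc (i : Idx) : IsLocallyConstant (xc i) := lc_evg _

theorem eq_prod_bas (g : G0) : g = ∏ i ∈ (co g).support, bas i := by
  simp only [bas, ← ofCo_sum]
  refine co_inj ?_
  rw [co_ofCo]
  conv_lhs => rw [← Finsupp.sum_single (co g), Finsupp.sum]
  refine Finset.sum_congr rfl fun i hi => ?_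
  have h : ∀ a : ZMod 2, a ≠ 0 → a = 1 := by decide
  rw [h _ (Finsupp.mem_support_iff.1 hi)]

theorem evg_eq_prod (g : G0) (γ : Γ0) : evg g γ = ∏ i ∈ (co g).support, xc i γ := by
  conv_lhs => rw [eq_prod_bas g]
  rw [evg_apply, map_prod]
  exact map_prod Circle.coeHom _ _

theorem fourier_delta' (g : G0) : fourier (L1.delta g) = evg g := by
  funext γ
  rw [fourier_delta, G0_inv, evg_apply]

/-- the sign attached to a Boolean -/
def sb (s : Bool) : ℂ := if s then 1 else -1

/-- the finite subgroups exhausting `G0` -/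
theorem exists_exhaustion : ∃ K : ℕ → Finset G0, (∀ n, (K n).Nonempty) ∧
    ∀ h, ∀ᶠ n in atTop, ∀ g, h * g ∈ K n ↔ g ∈ K n := by
  classical
  obtain ⟨Λ, hΛ⟩ : ∃ Λ : ℕ → Finset Idx, Tendsto Λ atTop atTop :=
    exists_seq_tendsto (atTop : Filter (Finset Idx))
  refine ⟨fun n => ((Λ n).finsupp fun _ => Finset.univ).image ofCo, fun n => ?_, fun h => ?_⟩
  · exact ⟨1, Finset.mem_image.2 ⟨0, by simp [Finset.mem_finsupp_iff], rfl⟩⟩
  · have hmem : ∀ n g, g ∈ ((Λ n).finsupp fun _ => (Finset.univ : Finset (ZMod 2))).image ofCo ↔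
        (co g).support ⊆ Λ n := by
      intro n g
      simp only [Finset.mem_image, Finset.mem_finsupp_iff, Finset.mem_univ, implies_true, and_true]
      constructor
      · rintro ⟨f, hf, rfl⟩
        exact hf
      · intro hg
        exact ⟨co g, hg, rfl⟩
    filter_upwards [hΛ.eventually (eventually_ge_atTop (co h).support)] with n hn g
    have key : ∀ g, (co g).support ⊆ Λ n → (co (h * g)).support ⊆ Λ n := fun g hg =>
      Finsupp.support_add.trans (Finset.union_subset hn hg)
    rw [hmem, hmem]
    refine ⟨fun H => ?_, key g⟩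
    have := key _ H
    rwa [← mul_assoc, G0_mul_self, one_mul] at this

end Pool.Agent.P.MP_bf3635_an
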