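import Mathlib

/-!
Definitions for MP_bf3635_an: amenable Banach algebras, the convolution algebra `L¹(G) = ℓ¹(G)`
of a discrete abelian group `G` (Haar measure = counting measure), its Fourier transform on the
Pontryagin dual `Γ`, the ideals `I(E)`, `J(E)` and the algebras `A_E`, `R_E`.
-/

open Filter Topology

set_option warn.classDefReducibility false

noncomputable section

namespace Pool.Agent.P.MP_bf3635_an

universe u

/-! ### Amenability of a (not necessarily unital) Banach algebra -/

/-- A Banach `A`-bimodule structure on a complex Banach space `X`: bounded bilinear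
left action `l a x = a · x` and right action `r a x = x · a`, with the bimodule axioms. -/
structure BanachBimodule (A : Type*) [NonUnitalNormedRing A] [NormedSpace ℂ A]
    (X : Type*) [NormedAddCommGroup X] [NormedSpace ℂ X] [CompleteSpace X] where
  /-- left action `a · x` -/
  l : A →L[ℂ] X →L[ℂ] X
  /-- right action `x · a` -/
  r : A →L[ℂ] X →L[ℂ] X
  /-- `(a b) · x = a · (b · x)` -/
  l_mul : ∀ a b x, l (a * b) x = l a (l b x)
  /-- `x · (a b) = (x · a) · b` -/
  r_mul : ∀ a b x, r (a * b) x = r b (r a x)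
  /-- `a · (x · b) = (a · x) · b` -/
  l_r : ∀ a b x, l a (r b x) = r b (l a x)

/-- Every bounded derivation from `A` into the dual bimodule `X*` is inner.  The dual actions are
`(a · ξ)(x) = ξ(x · a)` and `(ξ · a)(x) = ξ(a · x)`; so the hypothesis on `D` is
`D(a b) = a · D(b) + D(a) · b`, and the conclusion is `D(a) = a · ξ - ξ · a`, both evaluated at
`x : X`. -/
structure DerivationsInner {A : Type*} [NonUnitalNormedRing A] [NormedSpace ℂ A]
    {X : Type*} [NormedAddCommGroup X] [NormedSpace ℂ X] [CompleteSpace X]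
    (M : BanachBimodule A X) : Prop where
  inner : ∀ D : A →L[ℂ] StrongDual ℂ X,
    (∀ a b x, D (a * b) x = D b (M.r a x) + D a (M.l b x)) →
    ∃ ξ : StrongDual ℂ X, ∀ a x, D a x = ξ (M.r a x) - ξ (M.l a x)

/-- A complex Banach algebra `A` is amenable if for every Banach `A`-bimodule `X`, every bounded
derivation `D : A → X*` into the dual bimodule is inner. -/
def IsAmenable (A : Type*) [NonUnitalNormedRing A] [NormedSpace ℂ A] [IsScalarTower ℂ A A]
    [SMulCommClass ℂ A A] [CompleteSpace A] : Prop :=
  ∀ (X : Type u) [NormedAddCommGroup X] [NormedSpace ℂ X] [CompleteSpace X]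
    (M : BanachBimodule A X), DerivationsInner M

/-- A non-unital subalgebra of a complex normed algebra is a normed space (induced norm). -/
instance nonUnitalSubalgebraNormedSpace {B : Type*} [NormedRing B] [NormedAlgebra ℂ B]
    (R : NonUnitalSubalgebra ℂ B) : NormedSpace ℂ R :=
  SubmoduleClass.toNormedSpace (R := ℂ) R

/-- A closed non-unital subalgebra `R` of a complex normed algebra, as a Banach algebra with the
induced norm, is amenable. -/
def SubalgebraAmenable {B : Type*} [NormedRing B] [NormedAlgebra ℂ B]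
    (R : NonUnitalSubalgebra ℂ B) [CompleteSpace R] : Prop := IsAmenable.{u} R

/-- The image of an ideal under an algebra homomorphism, as a non-unital subalgebra. -/
def idealImage {A B : Type*} [CommRing A] [Algebra ℂ A] [CommRing B] [Algebra ℂ B]
    (π : A →ₐ[ℂ] B) (I : Ideal A) : NonUnitalSubalgebra ℂ B where
  carrier := π '' I
  zero_mem' := ⟨0, I.zero_mem, map_zero _⟩
  add_mem' := by
    rintro _ _ ⟨f, hf, rfl⟩ ⟨h, hh, rfl⟩
    exact ⟨f + h, I.add_mem hf hh, map_add _ _ _⟩
  mul_mem' := by
    rintro _ _ ⟨f, -, rfl⟩ ⟨h, hh, rfl⟩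
    exact ⟨f * h, I.mul_mem_left f hh, map_mul _ _ _⟩
  smul_mem' := by
    rintro c _ ⟨f, hf, rfl⟩
    refine ⟨c • f, ?_, map_smul _ _ _⟩
    rw [Algebra.smul_def]
    exact I.mul_mem_left _ hf

/-! ### The convolution algebra `ℓ¹(G)` of a discrete abelian group -/

/-- `L¹(G)` for a discrete group `G` with counting (Haar) measure: the Banach space `ℓ¹(G)`. -/
def L1 (G : Type) : Type := lp (fun _ : G => ℂ) 1

namespace L1

variable {G : Type}

/-- The normed group structure of `ℓ¹(G)` (Mathlib's, on `lp`). -/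
def normedGroup (G : Type) : NormedAddCommGroup (L1 G) :=
  lp.normedAddCommGroup (E := fun _ : G => ℂ) (p := 1)

instance : NormedAddCommGroup (L1 G) := normedGroup G

/-- The normed space structure of `ℓ¹(G)` (Mathlib's, on `lp`). -/
def normedSp (G : Type) : NormedSpace ℂ (L1 G) :=
  lp.instNormedSpace (E := fun _ : G => ℂ) (p := 1)

instance : NormedSpace ℂ (L1 G) := normedSp G

instance : CompleteSpace (L1 G) := lp.completeSpace (E := fun _ : G => ℂ) (p := 1)

/-- The underlying function `G → ℂ` of an element of `ℓ¹(G)`. -/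
def val (f : L1 G) : G → ℂ := fun g => (show lp (fun _ : G => ℂ) 1 from f) g

theorem ext {f h : L1 G} (H : ∀ g, f.val g = h.val g) : f = h := lp.ext (funext H)

theorem hasSum_norm (f : L1 G) : HasSum (fun g => ‖f.val g‖) ‖f‖ := by
  have := lp.hasSum_norm (p := 1) (by simp) (show lp (fun _ : G => ℂ) 1 from f)
  simp only [ENNReal.toReal_one, Real.rpow_one] at this
  exact this

theorem summable_norm (f : L1 G) : Summable (fun g => ‖f.val g‖) := f.hasSum_norm.summable

@[simp] theorem val_add (f h : L1 G) (g : G) : (f + h).val g = f.val g + h.val g := rfl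
@[simp] theorem val_zero (g : G) : (0 : L1 G).val g = 0 := rfl
@[simp] theorem val_smul (c : ℂ) (f : L1 G) (g : G) : (c • f).val g = c * f.val g := rfl

/-- The element of `ℓ¹(G)` given by an absolutely summable function. -/
def mk (F : G → ℂ) (hF : Summable fun g => ‖F g‖) : L1 G :=
  show lp (fun _ : G => ℂ) 1 from ⟨F, memℓp_gen (by simpa using hF)⟩

@[simp] theorem val_mk (F : G → ℂ) (hF : Summable fun g => ‖F g‖) : (mk F hF).val = F := rfl

open Classical in
/-- The point mass `δ_g`. -/
def delta (g : G) : L1 G :=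
  mk (fun x => if x = g then 1 else 0)
    (summable_of_ne_finset_zero (s := {g}) (fun x hx => by simp [Finset.notMem_singleton.1 hx]))

variable [CommGroup G]

theorem summable_conv_prod (f h : L1 G) :
    Summable fun p : G × G => ‖f.val p.2 * h.val (p.2⁻¹ * p.1)‖ := by
  have H : Summable fun p : G × G => ‖f.val p.1‖ * ‖h.val p.2‖ :=
    Summable.mul_of_nonneg f.summable_norm h.summable_norm (fun _ => norm_nonneg _)
      (fun _ => norm_nonneg _)
  let e : G × G ≃ G × G :=
    ⟨fun p => (p.2, p.2⁻¹ * p.1), fun p => (p.1 * p.2, p.1), fun p => by simp, fun p => by simp⟩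
  simpa [e, Function.comp_def] using (e.summable_iff.2 H)

theorem summable_conv_norm (f h : L1 G) (x : G) :
    Summable fun y => ‖f.val y * h.val (y⁻¹ * x)‖ :=
  (summable_conv_prod f h).prod_factor x

theorem summable_conv (f h : L1 G) (x : G) : Summable fun y => f.val y * h.val (y⁻¹ * x) :=
  (summable_conv_norm f h x).of_norm

/-- Convolution: `(f * h)(x) = ∑_y f(y) h(y⁻¹ x)`. -/
def conv (f h : L1 G) : L1 G :=
  mk (fun x => ∑' y, f.val y * h.val (y⁻¹ * x))
    (Summable.of_nonneg_of_le (fun _ => norm_nonneg _)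
      (fun x => norm_tsum_le_tsum_norm (summable_conv_norm f h x))
      (summable_conv_prod f h).prod)

theorem val_conv (f h : L1 G) (x : G) : (conv f h).val x = ∑' y, f.val y * h.val (y⁻¹ * x) := rfl

theorem norm_conv_le (f h : L1 G) : ‖conv f h‖ ≤ ‖f‖ * ‖h‖ := by
  have H : HasSum (fun p : G × G => ‖f.val p.1‖ * ‖h.val p.2‖) (‖f‖ * ‖h‖) :=
    f.hasSum_norm.mul h.hasSum_norm
      (Summable.mul_of_nonneg f.summable_norm h.summable_norm (fun _ => norm_nonneg _)
        (fun _ => norm_nonneg _))
  let e : G × G ≃ G × G :=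
    ⟨fun p => (p.2, p.2⁻¹ * p.1), fun p => (p.1 * p.2, p.1), fun p => by simp, fun p => by simp⟩
  have H2 : HasSum (fun p : G × G => ‖f.val p.2 * h.val (p.2⁻¹ * p.1)‖) (‖f‖ * ‖h‖) := by
    simpa [e, Function.comp_def] using (e.hasSum_iff.2 H)
  have H3 := H2.prod_fiberwise (fun x => (summable_conv_norm f h x).hasSum)
  exact hasSum_le (fun x => norm_tsum_le_tsum_norm (summable_conv_norm f h x))
    (conv f h).hasSum_norm H3

theorem conv_comm (f h : L1 G) : conv f h = conv h f := by
  refine ext fun x => ?_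
  rw [val_conv, val_conv, ← ((Equiv.inv G).trans (Equiv.mulRight x)).tsum_eq]
  refine tsum_congr fun y => ?_
  simp [mul_comm]

theorem conv_add (f h k : L1 G) : conv f (h + k) = conv f h + conv f k := by
  refine ext fun x => ?_
  simp only [val_conv, val_add, mul_add]
  exact (summable_conv f h x).tsum_add (summable_conv f k x)

theorem conv_smul (c : ℂ) (f h : L1 G) : conv f (c • h) = c • conv f h := by
  refine ext fun x => ?_
  simp only [val_conv, val_smul, ← tsum_mul_left]
  exact tsum_congr fun y => by ring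

theorem conv_zero (f : L1 G) : conv f 0 = 0 := by
  refine ext fun x => ?_
  simp [val_conv]

theorem delta_one_conv (f : L1 G) : conv (delta 1) f = f := by
  refine ext fun x => ?_
  rw [val_conv, tsum_eq_single 1]
  · simp [delta]
  · intro y hy
    simp [delta, hy]

theorem conv_assoc (f h k : L1 G) : conv (conv f h) k = conv f (conv h k) := by
  refine ext fun x => ?_
  simp only [val_conv]
  have hs : Summable fun p : G × G => f.val p.2 * h.val (p.2⁻¹ * p.1) * k.val (p.1⁻¹ * x) := by
    refine Summable.of_norm_bounded ((summable_conv_prod f h).mul_right ‖k‖) fun p => ?_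
    rw [norm_mul]
    gcongr
    exact le_hasSum k.hasSum_norm _ fun _ _ => norm_nonneg _
  calc ∑' y, (∑' z, f.val z * h.val (z⁻¹ * y)) * k.val (y⁻¹ * x)
      = ∑' y, ∑' z, f.val z * h.val (z⁻¹ * y) * k.val (y⁻¹ * x) := by
        simp only [tsum_mul_right]
    _ = ∑' z, ∑' y, f.val z * h.val (z⁻¹ * y) * k.val (y⁻¹ * x) :=
        (Summable.tsum_comm (f := fun y z => f.val z * h.val (z⁻¹ * y) * k.val (y⁻¹ * x)) hs).symm
    _ = ∑' z, f.val z * ∑' y, h.val y * k.val (y⁻¹ * (z⁻¹ * x)) := by
        refine tsum_congr fun z => ?_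
        rw [← tsum_mul_left, ← (Equiv.mulLeft z).tsum_eq]
        refine tsum_congr fun y => ?_
        simp [mul_assoc]

/-- `ℓ¹(G)` is a commutative unital normed ring under convolution, with unit `δ_1`. -/
instance : NormedCommRing (L1 G) :=
  { (inferInstance : NormedAddCommGroup (L1 G)) with
    mul := conv
    one := delta 1
    mul_assoc := conv_assoc
    mul_comm := conv_comm
    one_mul := delta_one_conv
    mul_one := fun f => (conv_comm f _).trans (delta_one_conv f)
    left_distrib := conv_add
    right_distrib := fun f h k => by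
      change conv (f + h) k = conv f k + conv h k
      rw [conv_comm, conv_add, conv_comm k f, conv_comm k h]
    zero_mul := fun f => (conv_comm _ f).trans (conv_zero f)
    mul_zero := conv_zero
    norm_mul_le := norm_conv_le }

instance : NormedAlgebra ℂ (L1 G) :=
  { (inferInstance : NormedSpace ℂ (L1 G)),
    Algebra.ofModule (R := ℂ) (A := L1 G)
      (fun c f h => by
        change conv (c • f) h = c • conv f h
        rw [conv_comm, conv_smul, conv_comm])
      (fun c f h => conv_smul c f h) with }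

end L1

/-! ### The Fourier transform -/

section fourier

variable {G : Type} [CommGroup G] [TopologicalSpace G]

/-- The Fourier transform `f̂(γ) = ∑_g f(g) γ(g⁻¹)` on the Pontryagin dual `Γ` of `G`. -/
def fourier (f : L1 G) (γ : PontryaginDual G) : ℂ := ∑' g, f.val g * (γ g⁻¹ : ℂ)

theorem summable_fourier (f : L1 G) (γ : PontryaginDual G) :
    Summable fun g => f.val g * (γ g⁻¹ : ℂ) :=
  Summable.of_norm (by simpa only [norm_mul, Circle.norm_coe, mul_one] using f.summable_norm)

theorem fourier_zero (γ : PontryaginDual G) : fourier 0 γ = 0 := by simp [fourier]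

theorem fourier_add (f h : L1 G) (γ : PontryaginDual G) :
    fourier (f + h) γ = fourier f γ + fourier h γ := by
  simp only [fourier, L1.val_add, add_mul]
  exact (summable_fourier f γ).tsum_add (summable_fourier h γ)

theorem fourier_mul (f h : L1 G) (γ : PontryaginDual G) :
    fourier (f * h) γ = fourier f γ * fourier h γ := by
  change fourier (L1.conv f h) γ = _
  simp only [fourier, L1.val_conv]
  have hs : Summable fun p : G × G => f.val p.2 * h.val (p.2⁻¹ * p.1) * (γ p.1⁻¹ : ℂ) :=
    Summable.of_norm (by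
      simpa only [norm_mul, Circle.norm_coe, mul_one] using L1.summable_conv_prod f h)
  calc ∑' x, (∑' y, f.val y * h.val (y⁻¹ * x)) * (γ x⁻¹ : ℂ)
      = ∑' x, ∑' y, f.val y * h.val (y⁻¹ * x) * (γ x⁻¹ : ℂ) := by simp only [tsum_mul_right]
    _ = ∑' y, ∑' x, f.val y * h.val (y⁻¹ * x) * (γ x⁻¹ : ℂ) :=
        (Summable.tsum_comm (f := fun x y => f.val y * h.val (y⁻¹ * x) * (γ x⁻¹ : ℂ)) hs).symm
    _ = ∑' y, f.val y * (γ y⁻¹ : ℂ) * ∑' x, h.val x * (γ x⁻¹ : ℂ) := by
        refine tsum_congr fun y => ?_
        rw [← tsum_mul_left, ← (Equiv.mulLeft y).tsum_eq]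
        refine tsum_congr fun x => ?_
        simp only [Equiv.coe_mulLeft, inv_mul_cancel_left, mul_inv_rev, map_mul, Circle.coe_mul]
        ring
    _ = _ := by rw [tsum_mul_right]

theorem fourier_smul (c : ℂ) (f : L1 G) (γ : PontryaginDual G) :
    fourier (c • f) γ = c * fourier f γ := by
  simp only [fourier, L1.val_smul, mul_assoc, tsum_mul_left]

theorem fourier_delta (g : G) (γ : PontryaginDual G) : fourier (L1.delta g) γ = γ g⁻¹ := by
  rw [fourier, tsum_eq_single g]
  · simp [L1.delta]
  · intro y hy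
    simp [L1.delta, hy]

theorem fourier_one (γ : PontryaginDual G) : fourier (1 : L1 G) γ = 1 := by
  change fourier (L1.delta 1) γ = 1
  simp [fourier_delta]

/-- The Fourier transform evaluated at `γ`, `f ↦ f̂(γ)`, as a character of the algebra `ℓ¹(G)`. -/
def fourierChar (γ : PontryaginDual G) : L1 G →ₐ[ℂ] ℂ where
  toFun f := fourier f γ
  map_one' := fourier_one γ
  map_mul' f h := fourier_mul f h γ
  map_zero' := fourier_zero γ
  map_add' f h := fourier_add f h γ
  commutes' c := by
    rw [Algebra.algebraMap_eq_smul_one, fourier_smul, fourier_one, mul_one]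
    rfl

end fourier

/-! ### The ideals `I(E)`, `J(E)` and the algebras `A_E`, `R_E`

They are defined for a commutative Banach algebra `A` whose elements are regarded as functions on
a space `Γ` through `f̂(γ) = F γ f`; below, `A = L¹(G)` and `F` is the Fourier transform. -/

section ideals

variable {A : Type} [NormedCommRing A] [NormedAlgebra ℂ A] [CompleteSpace A]
  {Γ : Type} [TopologicalSpace Γ]

/-- `I(E)`: the elements `f` with `f̂ = 0` on `E`. -/
def idealI (F : Γ → A →ₐ[ℂ] ℂ) (E : Set Γ) : Ideal A where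
  carrier := {f | ∀ γ ∈ E, F γ f = 0}
  zero_mem' := fun γ _ => map_zero (F γ)
  add_mem' := fun {f h} hf hh γ hγ => by rw [map_add, hf γ hγ, hh γ hγ, add_zero]
  smul_mem' := fun c f hf γ hγ => by rw [smul_eq_mul, map_mul, hf γ hγ, mul_zero]

/-- `J(E)`: the elements `f` with `f̂ = 0` on some neighbourhood of `E`. -/
def idealJ (F : Γ → A →ₐ[ℂ] ℂ) (E : Set Γ) : Ideal A where
  carrier := {f | ∃ U ∈ 𝓝ˢ E, ∀ γ ∈ U, F γ f = 0}
  zero_mem' := ⟨Set.univ, univ_mem, fun γ _ => map_zero (F γ)⟩
  add_mem' := by
    rintro f h ⟨U, hU, hf⟩ ⟨V, hV, hh⟩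
    exact ⟨U ∩ V, inter_mem hU hV, fun γ hγ => by
      rw [map_add, hf γ hγ.1, hh γ hγ.2, add_zero]⟩
  smul_mem' := by
    rintro c f ⟨U, hU, hf⟩
    exact ⟨U, hU, fun γ hγ => by rw [smul_eq_mul, map_mul, hf γ hγ, mul_zero]⟩

/-- `E` fails spectral synthesis: the norm closure of `J(E)` is a proper subset of `I(E)`. -/
def FailsSynthesis (F : Γ → A →ₐ[ℂ] ℂ) (E : Set Γ) : Prop := (idealJ F E).closure < idealI F E

instance isClosed_closure_idealJ (F : Γ → A →ₐ[ℂ] ℂ) (E : Set Γ) :
    IsClosed ((idealJ F E).closure : Set A) :=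
  isClosed_closure

/-- `A_E = A / closure J(E)`, with the quotient norm. -/
abbrev AE (F : Γ → A →ₐ[ℂ] ℂ) (E : Set Γ) : Type := A ⧸ (idealJ F E).closure

/-- `R_E = I(E) / closure J(E)`, as the image of `I(E)` in `A_E`, with the norm of `A_E`. -/
def RE (F : Γ → A →ₐ[ℂ] ℂ) (E : Set Γ) : NonUnitalSubalgebra ℂ (AE F E) :=
  idealImage (Ideal.Quotient.mkₐ ℂ (idealJ F E).closure) (idealI F E)

omit [TopologicalSpace Γ] in
theorem isClosed_idealI (F : Γ → A →ₐ[ℂ] ℂ) (E : Set Γ) : IsClosed (idealI F E : Set A) := by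
  have : (idealI F E : Set A) = ⋂ γ ∈ E, {f | F γ f = 0} := by
    ext f
    simp only [Set.mem_iInter]
    rfl
  rw [this]
  exact isClosed_biInter fun γ _ => isClosed_eq (map_continuous (F γ)) continuous_const

theorem closure_idealJ_le (F : Γ → A →ₐ[ℂ] ℂ) (E : Set Γ) :
    (idealJ F E).closure ≤ idealI F E := by
  refine closure_minimal ?_ (isClosed_idealI F E)
  rintro f ⟨U, hU, hf⟩ γ hγ
  exact hf γ (subset_of_mem_nhdsSet hU hγ)

/-- `R_E` is closed in `A_E`, hence a Banach algebra. -/
instance completeSpace_RE (F : Γ → A →ₐ[ℂ] ℂ) (E : Set Γ) : CompleteSpace (RE F E) := by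
  have hq : IsQuotientMap (Ideal.Quotient.mk (idealJ F E).closure) :=
    (QuotientAddGroup.isQuotientMap_mk ((idealJ F E).closure.toAddSubgroup))
  have hc : IsClosed (RE F E : Set (AE F E)) := by
    rw [← hq.isClosed_preimage]
    convert isClosed_idealI F E using 1
    ext f
    constructor
    · rintro ⟨h, hh, e⟩
      have := (idealI F E).add_mem hh (closure_idealJ_le F E (Ideal.Quotient.eq.1 e.symm))
      simpa using this
    · intro hf
      exact ⟨f, hf, rfl⟩
  exact hc.completeSpace_coe

/-- The Banach algebra `R_E` is amenable. -/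
def RadicalAmenable (F : Γ → A →ₐ[ℂ] ℂ) (E : Set Γ) : Prop := SubalgebraAmenable.{u} (RE F E)

end ideals

end Pool.Agent.P.MP_bf3635_an
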