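import Pool.Agent.P.MP_bf3635_an.GRound
import Pool.Agent.P.MP_bf3635_an.Cheb

/-! The building block, on a free abelian group of finite rank. -/

open Filter Topology Polynomial

noncomputable section

namespace Pool.Agent.P.MP_bf3635_an.Ev

theorem exists_poly' {n : ℕ} (hn : 0 < n) {γ ε η : ℝ} (hγ : 0 < γ) (hε : 0 < ε) (hη : 0 < η) :
    ∃ (N : ℕ) (Q : ℝ[X]), n ∣ N ∧ 0 < N ∧ 2 * (Q.natDegree : ℝ) / N ≤ ε ∧ Q.eval 1 = 1 ∧
      (∀ t : ℝ, -1 ≤ t → t ≤ 1 - γ / N → |Q.eval t| ≤ η) ∧ 2 / (N : ℝ) ≤ η := by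
  have hn' : (0 : ℝ) < n := by exact_mod_cast hn
  obtain ⟨M, Q, -, hM, h1, h2, h3, h4⟩ := exists_poly (ε * γ / 4)
    (min η (min (η * γ / 4) (γ / (2 * n)))) (by positivity) (by positivity)
  have hM' : (0 : ℝ) < M := by exact_mod_cast hM
  simp only [le_min_iff] at h3 h4
  obtain ⟨-, h4, h5⟩ := h4
  rw [div_le_iff₀ hM'] at h1 h4
  rw [div_le_div_iff₀ hM' (by positivity)] at h5
  set k := ⌊γ * M / (2 * n)⌋₊
  have k1 : (k : ℝ) ≤ γ * M / (2 * n) := Nat.floor_le (by positivity)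
  have k2 : γ * M / (2 * n) < k + 1 := Nat.lt_floor_add_one _
  rw [le_div_iff₀ (by positivity)] at k1
  rw [div_lt_iff₀ (by positivity)] at k2
  have k3 : γ * M / 4 ≤ ((n * k : ℕ) : ℝ) := by push_cast; nlinarith
  have k4 : (0 : ℝ) < (n * k : ℕ) := lt_of_lt_of_le (by positivity) k3
  refine ⟨n * k, Q, dvd_mul_right _ _, by exact_mod_cast k4, ?_, h2, fun t a b =>
    (h3 t a (b.trans ?_)).1, ?_⟩
  · rw [div_le_iff₀ k4]
    nlinarith
  · gcongr 1 - ?_
    rw [div_le_div_iff₀ hM' k4]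
    push_cast
    nlinarith
  · rw [div_le_iff₀ k4]
    nlinarith

theorem exists_gap {n : ℕ} (hn : 0 < n) :
    ∃ γ > 0, ∀ ρ : Circle, ρ ^ n = 1 → ρ ≠ 1 → (ρ : ℂ).re ≤ 1 - γ := by
  have h : ∀ᶠ γ in 𝓝[>] (0 : ℝ), ∀ z ∈ {z : ℂ | z ^ n = 1}, z.re < 1 → z.re ≤ 1 - γ :=
    (eventually_all_finite (finite_roots hn)).2 fun z _ => by
      by_cases hz : z.re < 1
      · filter_upwards [Ioo_mem_nhdsGT (sub_pos.2 hz)] with γ hγ _
        linarith [hγ.2]
      · exact .of_forall fun _ h => (hz h).elim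
  obtain ⟨γ, h1, h2⟩ := (h.and self_mem_nhdsWithin).exists
  refine ⟨γ, h2, fun ρ a b => h1 ρ (by simpa using congrArg (fun z : Circle => (z : ℂ)) a) ?_⟩
  refine lt_of_le_of_ne ((Complex.re_le_norm _).trans_eq ρ.norm_coe) fun e => b (Circle.ext ?_)
  have := Complex.re_eq_norm.1 (e.trans ρ.norm_coe.symm)
  exact Complex.ext e this.2.symm

theorem fejer_le (L : ℕ) (u : Circle) : ‖(L : ℂ)⁻¹ * ∑ l ∈ Finset.range L, (u : ℂ) ^ l‖ ≤ 1 := by
  rw [norm_mul, norm_inv, Complex.norm_natCast]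
  refine inv_mul_le_one_of_le₀ ((norm_sum_le _ _).trans (by simp [Circle.norm_coe]))
    (Nat.cast_nonneg _)

theorem fejer_small {L : ℕ} (hL : 0 < L) (u : Circle) {τ : ℝ} (hτ : 0 < τ)
    (h : τ ≤ ‖(u : ℂ) - 1‖) : ‖(L : ℂ)⁻¹ * ∑ l ∈ Finset.range L, (u : ℂ) ^ l‖ ≤ 2 / (L * τ) := by
  have hL' : (0 : ℝ) < L := by exact_mod_cast hL
  have h1 := congrArg norm (geom_sum_mul (u : ℂ) L)
  have h2 : ‖(u : ℂ) ^ L - 1‖ ≤ 2 :=
    (norm_sub_le _ _).trans (by rw [norm_pow, Circle.norm_coe]; norm_num)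
  rw [norm_mul] at h1
  rw [norm_mul, norm_inv, Complex.norm_natCast, inv_mul_le_iff₀ hL', mul_div_assoc',
    mul_div_mul_left _ _ hL'.ne', le_div_iff₀ hτ]
  nlinarith [norm_nonneg (∑ l ∈ Finset.range L, (u : ℂ) ^ l)]

section free

variable {ι : Type} [Fintype ι] [DecidableEq ι]

/-- the character of the free abelian group with given values on the generators -/
def xi (t : ι → Circle) : Multiplicative (ι → ℤ) →* ℂ where
  toFun k := ((∏ c, t c ^ k.toAdd c : Circle) : ℂ)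
  map_one' := by simp
  map_mul' k l := by simp [zpow_add, Finset.prod_mul_distrib]

/-- a generator -/
def gen (c : ι) : Multiplicative (ι → ℤ) := Multiplicative.ofAdd (Pi.single c 1)

omit [DecidableEq ι] in
theorem norm_xi (t : ι → Circle) (k : Multiplicative (ι → ℤ)) : ‖xi t k‖ = 1 := Circle.norm_coe _

theorem xi_gen (t : ι → Circle) (c : ι) : xi t (gen c) = t c := by
  change ((∏ c', t c' ^ (Pi.single c 1 : ι → ℤ) c' : Circle) : ℂ) = _
  simp [Pi.single_apply]

/-- a coordinate -/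
def yc (ζ : Circle) (c : ι) : Multiplicative (ι → ℤ) →* ℂ := xi (Pi.mulSingle c ζ)

theorem yc_apply (ζ : Circle) (c : ι) (k : Multiplicative (ι → ℤ)) :
    yc ζ c k = (ζ : ℂ) ^ k.toAdd c := by
  change ((∏ c', (Pi.mulSingle c ζ : ι → Circle) c' ^ k.toAdd c' : Circle) : ℂ) = _
  simp [Pi.mulSingle_apply]

theorem yc_gen (ζ : Circle) (c c' : ι) : yc ζ c (gen c') = if c' = c then (ζ : ℂ) else 1 := by
  rw [yc, xi_gen, Pi.mulSingle_apply]
  split_ifs <;> rfl

/-- an average along multiples of the generators -/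
def fej (ι : Type) [Fintype ι] [DecidableEq ι] (n L : ℕ) :
    MonoidAlgebra ℂ (Multiplicative (ι → ℤ)) :=
  ∏ c : ι, (L : ℂ)⁻¹ • ∑ l ∈ Finset.range L, MonoidAlgebra.single ((gen c ^ n) ^ l) 1

theorem integ_fej (n L : ℕ) (t : ι → Circle) : integ (fej ι n L) (xi t) =
    ∏ c, (L : ℂ)⁻¹ * ∑ l ∈ Finset.range L, ((t c ^ n : Circle) : ℂ) ^ l := by
  simp [integ_hom, fej, xi_gen]

theorem suppIn_fej {n : ℕ} (L : ℕ) {ζ : Circle} (h : ζ ^ n = 1) :
    SuppIn (fej ι n L) {k | ∀ c, yc ζ c k = 1} := by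
  refine Finset.prod_induction _ (fun T => SuppIn T {k | ∀ c, yc ζ c k = 1})
    (fun a b ha hb => ha.mul hb fun x hx y hy c => by rw [map_mul, hx c, hy c, one_mul])
    (suppIn_single _ _ fun c => map_one _) fun c _ =>
    SuppIn.smul (SuppIn.sum fun l _ => suppIn_single _ _ fun c' => ?_) _
  have : (ζ : ℂ) ^ n = 1 := by simpa using congrArg (fun z : Circle => (z : ℂ)) h
  rw [map_pow, map_pow, yc_gen]
  split_ifs <;> simp [this]

end free

theorem integ_mul_hom {Γ : Type} [CommGroup Γ] (A B : MonoidAlgebra ℂ Γ) (φ : Γ →* ℂ) :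
    integ (A * B) φ = integ A φ * integ B φ := by
  simp only [integ_hom, map_mul]

variable {N : ℕ}

/-- the group carrying the block -/
abbrev ZZ (N : ℕ) : Type := Multiplicative (Bool × Fin N → ℤ)

/-- average of one half of the coordinates -/
def av (ζ : Circle) (b : Bool) (k : ZZ N) : ℂ := (N : ℂ)⁻¹ * ∑ j : Fin N, yc ζ (b, j) k

/-- one step of the coupled walk -/
def st (π : Equiv.Perm (Fin N)) (j : Fin N) : ZZ N := gen (false, j) * gen (true, π j)

/-- the law of one step -/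
def lw (π : Equiv.Perm (Fin N)) : MonoidAlgebra ℂ (ZZ N) :=
  ((N : ℂ)⁻¹ * 2⁻¹) • ∑ j : Fin N,
    (MonoidAlgebra.single (st π j) 1 + MonoidAlgebra.single (st π j)⁻¹ 1)

/-- where the walk is after `r` steps -/
def Ws (ζ : Circle) (π : Equiv.Perm (Fin N)) (r : ℕ) : Set (ZZ N) :=
  {k | (∀ j, yc ζ (true, π j) k = yc ζ (false, j) k) ∧ ‖av ζ false k - 1‖ ≤ 2 * r / N}

theorem suppIn_lw_pow (hN : 0 < N) (ζ : Circle) (π : Equiv.Perm (Fin N)) (r : ℕ) :
    SuppIn (lw π ^ r) (Ws ζ π r) := by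
  have hN' : (0 : ℝ) < N := by exact_mod_cast hN
  have hNc : (N : ℂ) ≠ 0 := by exact_mod_cast hN.ne'
  induction r with
  | zero =>
    rw [pow_zero, MonoidAlgebra.one_def]
    exact suppIn_single _ _ ⟨fun j => by simp, by simp [av, hNc]⟩
  | succ r ih =>
    rw [pow_succ]
    let S : Set (ZZ N) := {y | (∀ j, yc ζ (true, π j) y = yc ζ (false, j) y) ∧
      ∃ j, ∀ j' ≠ j, yc ζ (false, j') y = 1}
    have h1 : ∀ j, st π j ∈ S := fun j =>
      ⟨fun j' => by simp [st, yc_gen], j, fun j' h => by simp [st, yc_gen, h.symm]⟩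
    have h2 : ∀ j, (st π j)⁻¹ ∈ S := fun j =>
      ⟨fun j' => by rw [map_inv, map_inv, (h1 j).1], (h1 j).2.imp fun _ h j' h' => by
        rw [map_inv, h j' h', inv_one]⟩
    refine ih.mul (S' := S) (SuppIn.smul (SuppIn.sum fun j _ F hF => by
      simp [hF _ (h1 j), hF _ (h2 j)]) _) ?_
    rintro k ⟨a1, a2⟩ y ⟨b1, j, b2⟩
    refine ⟨fun j' => by rw [map_mul, map_mul, a1, b1], ?_⟩
    have e : av ζ false (k * y) - 1 = av ζ false k - 1 +
        (N : ℂ)⁻¹ * (yc ζ (false, j) (k * y) - yc ζ (false, j) k) := by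
      rw [← Finset.sum_eq_single_of_mem
        (f := fun j => yc ζ (false, j) (k * y) - yc ζ (false, j) k) j (Finset.mem_univ _)
        fun j' _ h => by rw [map_mul, b2 j' h, mul_one, sub_self], Finset.sum_sub_distrib, av, av]
      ring
    have e2 : ‖yc ζ (false, j) (k * y) - yc ζ (false, j) k‖ ≤ 2 :=
      (norm_sub_le _ _).trans (by rw [yc, norm_xi, norm_xi]; norm_num)
    rw [e]
    refine (norm_add_le _ _).trans ?_
    rw [norm_mul, norm_inv, Complex.norm_natCast]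
    push_cast
    rw [mul_add, add_div, mul_one, div_eq_inv_mul 2]
    gcongr

theorem suppIn_aeval' (hN : 0 < N) (ζ : Circle) (π : Equiv.Perm (Fin N)) (Q : ℝ[X]) :
    SuppIn (aeval (lw π) Q) (Ws ζ π Q.natDegree) := by
  rw [aeval_eq_sum_range]
  refine SuppIn.sum fun k hk => ?_
  rw [← Complex.coe_smul]
  refine SuppIn.smul ((suppIn_lw_pow hN ζ π k).mono ?_) _
  rintro _ ⟨h1, h3⟩
  refine ⟨h1, h3.trans ?_⟩
  have : (k : ℝ) ≤ Q.natDegree := by exact_mod_cast Nat.lt_succ_iff.1 (Finset.mem_range.1 hk)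
  gcongr

/-- the transform of the law of one step -/
def lh (π : Equiv.Perm (Fin N)) (t : Bool × Fin N → Circle) : ℝ :=
  (N : ℝ)⁻¹ * ∑ j, ((t (false, j) * t (true, π j) : Circle) : ℂ).re

theorem integ_aeval' (π : Equiv.Perm (Fin N)) (Q : ℝ[X]) (t : Bool × Fin N → Circle) :
    integ (aeval (lw π) Q) (xi t) = (Q.eval (lh π t) : ℝ) := by
  rw [integ_hom]
  have h1 := aeval_algHom_apply ((MonoidAlgebra.lift ℂ ℂ (ZZ N) (xi t)).restrictScalars ℝ)
    (lw π) Q
  rw [AlgHom.restrictScalars_apply, AlgHom.restrictScalars_apply] at h1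
  rw [← h1]
  have h3 : ∀ u : Circle, (u : ℂ) + (u : ℂ)⁻¹ = 2 * ((u : ℂ).re : ℂ) := fun u => by
    rw [← Circle.coe_inv, Circle.coe_inv_eq_conj, Complex.add_conj]
    push_cast
    rfl
  have h2 : MonoidAlgebra.lift ℂ ℂ (ZZ N) (xi t) (lw π) = algebraMap ℝ ℂ (lh π t) := by
    simp only [lw, st, lh, map_smul, map_sum, map_add, MonoidAlgebra.lift_single, map_inv, map_mul,
      xi_gen, smul_eq_mul, one_mul, ← Circle.coe_mul, h3, ← Finset.mul_sum]
    simp only [Complex.coe_algebraMap, Complex.ofReal_inv, Complex.ofReal_natCast]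
    ring
  rw [h2, aeval_algebraMap_apply, coe_aeval_eq_eval]
  rfl

theorem lh_cases (hN : 0 < N) {n : ℕ} {γ : ℝ}
    (hγ : ∀ ρ : Circle, ρ ^ n = 1 → ρ ≠ 1 → (ρ : ℂ).re ≤ 1 - γ) (π : Equiv.Perm (Fin N))
    (t : Bool × Fin N → Circle) (ht : ∀ c, t c ^ n = 1) :
    ((∀ j, t (false, j) * t (true, π j) = 1) ∧ lh π t = 1) ∨
      ((¬ ∀ j, t (false, j) * t (true, π j) = 1) ∧ -1 ≤ lh π t ∧ lh π t ≤ 1 - γ / N) := by
  have hN' : (0 : ℝ) < N := by exact_mod_cast hN
  by_cases h : ∀ j, t (false, j) * t (true, π j) = 1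
  · exact Or.inl ⟨h, by simp only [lh, h]; simp [hN'.ne']⟩
  refine Or.inr ⟨h, ?_, ?_⟩
  · rw [lh, le_inv_mul_iff₀ hN']
    simpa using Finset.card_nsmul_le_sum Finset.univ
      (fun j => ((t (false, j) * t (true, π j) : Circle) : ℂ).re) (-1) fun j _ =>
      (abs_le.1 ((Complex.abs_re_le_norm _).trans_eq (Circle.norm_coe _))).1
  · obtain ⟨j, hj⟩ := not_forall.1 h
    have h1 : ∑ j', ((t (false, j') * t (true, π j') : Circle) : ℂ).re ≤
        ∑ j', (1 - if j' = j then γ else 0) := Finset.sum_le_sum fun j' _ => by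
      split_ifs with e
      · exact hγ _ (by rw [mul_pow, ht, ht, one_mul]) (e ▸ hj)
      · exact (Complex.re_le_norm _).trans (by rw [Circle.norm_coe, sub_zero])
    rw [lh, inv_mul_le_iff₀ hN', mul_sub, mul_div_cancel₀ _ hN'.ne']
    simpa using h1

/-- the averaged transform -/
def gh (Q : ℝ[X]) (t : Bool × Fin N → Circle) : ℝ :=
  (N.factorial : ℝ)⁻¹ * ∑ π : Equiv.Perm (Fin N), Q.eval (lh π t)

theorem gh_le {Q : ℝ[X]} {t : Bool × Fin N → Circle} {a b : ℝ} (A : Finset (Equiv.Perm (Fin N)))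
    (h : ∀ π, |Q.eval (lh π t)| ≤ a + if π ∈ A then 1 else 0) (hA : (A.card : ℝ) ≤ b * N.factorial) :
    |gh Q t| ≤ a + b := by
  have hF : (0 : ℝ) < N.factorial := by exact_mod_cast N.factorial_pos
  have h2 : |∑ π : Equiv.Perm (Fin N), Q.eval (lh π t)| ≤ N.factorial * a + A.card := by
    refine (Finset.abs_sum_le_sum_abs _ _).trans ((Finset.sum_le_sum fun π _ => h π).trans ?_)
    rw [Finset.sum_add_distrib, Finset.sum_const, Finset.card_univ, Fintype.card_perm,
      Fintype.card_fin, nsmul_eq_mul]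
    simp
  rw [gh, abs_mul, abs_of_pos (inv_pos.2 hF), inv_mul_le_iff₀ hF]
  nlinarith

theorem exists_block' {n : ℕ} (hn : 0 < n) {ζ : Circle} (h1 : ζ ^ n = 1) (h2 : ζ ≠ 1) {ε η : ℝ}
    (hε : 0 < ε) (hη : 0 < η) : ∃ (N : ℕ) (h : Bool → MonoidAlgebra ℂ (ZZ N)),
      (∀ s, SuppIn (h s) {k | av ζ true k = (if s then (ζ : ℂ) else 1) * av ζ false k ∧
        ‖av ζ false k - 1‖ ≤ ε}) ∧ (∀ s, integ (h s) (fun _ => 1) = 1) ∧
      (∀ t, ‖integ (h true) (xi t) - integ (h false) (xi t)‖ ≤ η ∧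
        ‖integ (h false) (xi t)‖ ≤ 1 + η) ∧ ∀ s, ‖integ (h s) (av ζ false)‖ ≤ η := by
  classical
  obtain ⟨γ, hγ0, hγ⟩ := exists_gap hn
  obtain ⟨N, Q, hnN, hN, hdeg, hQ1, hQ, hNη⟩ := exists_poly' hn hγ0 hε
    (η := min 1 (η / 8)) (by positivity)
  simp only [le_min_iff] at hQ hNη
  have hN' : (0 : ℝ) < N := by exact_mod_cast hN
  let z : ZZ N := ∏ j, gen (true, j)
  have hz : ∀ t, xi t z = ∏ j, (t (true, j) : ℂ) := fun t => by simp [z, xi_gen]
  have cg : Continuous (gh (N := N) Q) := by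
    unfold gh lh
    fun_prop
  have cz : Continuous fun t => xi t z := by
    simp only [hz]
    fun_prop
  have nz : ∀ t, ‖xi t z - 1‖ ≤ 2 := fun t =>
    (norm_sub_le _ _).trans (by rw [norm_xi]; norm_num)
  have key : ∀ t : Bool × Fin N → Circle, (∀ c, t c ^ n = 1) →
      ‖xi t z - 1‖ * |gh Q t| < η ∧ |gh Q t| < 1 + η := by
    intro t ht
    refine ⟨?_, (gh_le (a := 1) (b := 0) ∅ (fun π => ?_) (by simp)).trans_lt (by linarith)⟩
    · by_cases hc : ∃ p q, (t (true, p) : ℂ).arg ≠ (t (true, q) : ℂ).arg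
      · have h3 := perm_count (fun j => ((t (false, j))⁻¹ : Circle).1.arg)
          (fun j => (t (true, j) : ℂ).arg) hc
        set A := Finset.univ.filter fun π : Equiv.Perm (Fin N) =>
          ∀ j, ((t (false, j))⁻¹ : Circle).1.arg = (t (true, π j) : ℂ).arg with hA
        have h4 : (A.card : ℝ) * N ≤ 2 * N.factorial := by exact_mod_cast h3
        have h5 := gh_le (Q := Q) (t := t) (a := η / 8) (b := η / 8) A (fun π => by
          rcases lh_cases hN hγ π t ht with ⟨e1, e2⟩ | ⟨-, e2, e3⟩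
          · rw [e2, hQ1, if_pos (Finset.mem_filter.2 ⟨Finset.mem_univ _, fun j => by
              rw [inv_eq_of_mul_eq_one_right (e1 j)]⟩), abs_one]
            linarith
          · refine (hQ _ e2 e3).2.trans ?_
            split_ifs <;> linarith) (by
          have := hNη.2
          rw [div_le_iff₀ hN'] at this
          refine le_of_mul_le_mul_right (h4.trans ?_) hN'
          nlinarith [Nat.cast_nonneg (α := ℝ) N.factorial])
        nlinarith [nz t, abs_nonneg (gh Q t), norm_nonneg (xi t z - 1)]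
      · push Not at hc
        obtain ⟨m, rfl⟩ := hnN
        have : ∀ j, t (true, j) = t (true, ⟨0, hN⟩) := fun j => Circle.injective_arg (hc _ _)
        simp only [hz, this, Finset.prod_const, Finset.card_univ, Fintype.card_fin, pow_mul,
          ← Circle.coe_pow, ht]
        simpa using hη
    · rcases lh_cases hN hγ π t ht with ⟨-, e2⟩ | ⟨-, e2, e3⟩
      · simp [e2, hQ1]
      · simpa using (hQ _ e2 e3).1
  have c1 : IsClosed {t | η ≤ ‖xi t z - 1‖ * |gh Q t|} :=
    isClosed_le continuous_const ((cz.sub continuous_const).norm.mul cg.abs)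
  have c2 : IsClosed {t : Bool × Fin N → Circle | 1 + η ≤ |gh Q t|} :=
    isClosed_le continuous_const cg.abs
  have hD : IsCompact {t | η ≤ ‖xi t z - 1‖ * |gh Q t| ∨ 1 + η ≤ |gh Q t|} :=
    (c1.union c2).isCompact
  obtain ⟨τ, hτ, hτ2⟩ := hD.exists_forall_le' (a := 0)
    (f := fun t => ‖fun c => ((t c ^ n : Circle) : ℂ) - 1‖) (by fun_prop) fun t ht =>
    norm_pos_iff.2 fun e => by
      have := key t fun c => Circle.ext (sub_eq_zero.1 (congrFun e c))
      rcases ht with a | a <;> linarith [this.1, this.2]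
  obtain ⟨C, hC⟩ := isCompact_univ.exists_bound_of_continuousOn cg.continuousOn
  have hC0 : 0 ≤ C := (norm_nonneg _).trans (hC 1 trivial)
  obtain ⟨L, hL⟩ := exists_nat_gt (4 * C / (τ * η))
  have hL' : (0 : ℝ) < L := lt_of_le_of_lt (by positivity) hL
  have hL0 : 0 < L := by exact_mod_cast hL'
  let H := fej (Bool × Fin N) n L * (N.factorial : ℂ)⁻¹ • ∑ π : Equiv.Perm (Fin N), aeval (lw π) Q
  have hH : ∀ t, integ H (xi t) = integ (fej _ n L) (xi t) * gh Q t := fun t => by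
    simp only [H, integ_mul_hom, map_smul, map_sum, LinearMap.smul_apply, LinearMap.sum_apply,
      integ_aeval', smul_eq_mul, gh]
    push_cast
    rfl
  have hF : ∀ t : Bool × Fin N → Circle, ‖integ (fej _ n L) (xi t)‖ ≤ 1 := fun t => by
    rw [integ_fej, norm_prod]
    exact Finset.prod_le_one (fun _ _ => norm_nonneg _) fun c _ => fejer_le _ _
  have hH1 : ∀ t, ‖integ H (xi t)‖ ≤ |gh Q t| := fun t => by
    rw [hH, norm_mul, Complex.norm_real, Real.norm_eq_abs]
    exact mul_le_of_le_one_left (abs_nonneg _) (hF t)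
  have hh : ∀ s t, integ (MonoidAlgebra.single (if s = true then z else 1) 1 * H) (xi t) =
      xi t (if s = true then z else 1) * integ H (xi t) := fun s t => by
    rw [integ_mul_hom, integ_single, one_mul]
  refine ⟨N, fun s => MonoidAlgebra.single (if s then z else 1) 1 * H, fun s => ?_, fun s => ?_,
    fun t => ?_, fun s => ?_⟩
  · refine (suppIn_single _ _ (Set.mem_singleton _)).mul
      (S' := {k | av ζ true k = av ζ false k ∧ ‖av ζ false k - 1‖ ≤ ε})
      ((suppIn_fej L h1).mul (S' := ⋃ π, Ws ζ π Q.natDegree)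
        (SuppIn.smul (SuppIn.sum fun π _ => (suppIn_aeval' hN ζ π Q).mono
        (Set.subset_iUnion (fun π => Ws ζ π Q.natDegree) π)) _) fun x hx y hy => ?_) ?_
    · obtain ⟨π, a1, a2⟩ := Set.mem_iUnion.1 hy
      have e : ∀ b, av ζ b (x * y) = av ζ b y := fun b => by simp only [av, map_mul, hx _, one_mul]
      refine ⟨?_, e false ▸ a2.trans hdeg⟩
      rw [e, e, av, av, ← Equiv.sum_comp π]
      simp only [a1]
    · rintro _ rfl k ⟨a1, a2⟩
      cases s
      · simpa using ⟨a1, a2⟩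
      · have e1 : av ζ false (z * k) = av ζ false k := by simp [av, z, yc_gen]
        have e2 : av ζ true (z * k) = ζ * av ζ true k := by
          simp [av, z, yc_gen, ← Finset.mul_sum, mul_left_comm]
        simpa [e1, e2, a1] using a2
  · have e : (fun _ => 1 : ZZ N → ℂ) = xi 1 := funext fun k => by simp [xi]
    have e2 : ∀ π : Equiv.Perm (Fin N), lh π 1 = 1 := fun π => by simp [lh, hN'.ne']
    rw [e, hh, hH, integ_fej, ← e]
    simp [gh, e2, hQ1, Fintype.card_perm, N.factorial_ne_zero, hL0.ne']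
  · rw [hh true t, hh false t]
    simp only [if_true, Bool.false_eq_true, if_false, map_one, one_mul]
    rw [← sub_one_mul, norm_mul]
    by_cases ht : η ≤ ‖xi t z - 1‖ * |gh Q t| ∨ 1 + η ≤ |gh Q t|
    · obtain ⟨c, hc⟩ : ∃ c, τ ≤ ‖((t c ^ n : Circle) : ℂ) - 1‖ := by
        by_contra! a
        exact (hτ2 t ht).not_gt ((pi_norm_lt_iff hτ).2 a)
      have a1 : ‖integ (fej _ n L) (xi t)‖ ≤ 2 / (L * τ) := by
        rw [integ_fej, ← Finset.mul_prod_erase _ _ (Finset.mem_univ c), norm_mul, norm_prod]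
        exact (mul_le_of_le_one_right (norm_nonneg _) (Finset.prod_le_one
          (fun _ _ => norm_nonneg _) fun c _ => fejer_le _ _)).trans (fejer_small hL0 _ hτ hc)
      have a2 : ‖integ H (xi t)‖ ≤ η / 2 := by
        rw [hH, norm_mul, Complex.norm_real]
        refine (mul_le_mul a1 (hC t trivial) (norm_nonneg _) (by positivity)).trans ?_
        rw [div_lt_iff₀ (by positivity)] at hL
        rw [div_mul_eq_mul_div, div_le_iff₀ (by positivity)]
        nlinarith
      exact ⟨by nlinarith [nz t, norm_nonneg (integ H (xi t))], by linarith⟩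
    · push Not at ht
      exact ⟨(mul_le_mul_of_nonneg_left (hH1 t) (norm_nonneg _)).trans ht.1.le,
        (hH1 t).trans ht.2.le⟩
  · have e : av ζ false = (N : ℂ)⁻¹ • ∑ j : Fin N, ⇑(yc ζ (false, j)) := by
      funext k
      simp [av]
    rw [e, map_smul, map_sum, norm_smul, norm_inv, Complex.norm_natCast, inv_mul_le_iff₀ hN']
    refine (norm_sum_le _ _).trans ?_
    have : ∀ j : Fin N, ‖integ (MonoidAlgebra.single (if s = true then z else 1) 1 * H)
        (yc ζ (false, j))‖ ≤ η := fun j => by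
      rw [yc, hh, norm_mul, norm_xi, one_mul]
      refine (hH1 _).trans ((gh_le (a := η / 8) (b := 0) ∅ (fun π => ?_) (by simp)).trans
        (by linarith))
      rcases lh_cases hN hγ π (Pi.mulSingle (false, j) ζ) (fun c => by
        rw [Pi.mulSingle_apply]; split_ifs <;> simp [h1]) with ⟨e1, -⟩ | ⟨-, e2, e3⟩
      · exact (h2 (by simpa using e1 j)).elim
      · simpa using (hQ _ e2 e3).2
    simpa using Finset.sum_le_card_nsmul Finset.univ _ η fun j _ => this j

end Pool.Agent.P.MP_bf3635_an.Ev
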