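import Pool.Agent.P.MP_bf3635_an.GPack
import Pool.Agent.P.MP_bf3635_an.GAmen

/-! The set is a Helson set, fails synthesis, and its radical has a bounded approximate identity. -/

open Filter Topology

set_option linter.unusedSectionVars false

noncomputable section

namespace Pool.Agent.P.MP_bf3635_an.Ev

universe u

variable {G : Type} [CommGroup G] [TopologicalSpace G] [DiscreteTopology G] (p : Pack G)

theorem Pack.fac (f : L1 G) {θ : ℝ} (hθ : 0 < θ) : ∃ m, ∃ φ ∈ p.Fac m,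
    ∃ j ∈ (idealJ fourierChar p.E).closure, ‖f - j - φ‖ < θ := by
  let P : Submodule ℂ (L1 G) :=
    { carrier := {f | ∃ m, ∃ φ ∈ p.Fac m, f - φ ∈ (idealJ fourierChar p.E).closure}
      zero_mem' := ⟨0, 0, zero_mem _, by rw [sub_zero]; exact zero_mem _⟩
      add_mem' := by
        rintro a b ⟨m, φ, h1, h2⟩ ⟨m', φ', h1', h2'⟩
        exact ⟨max m m', φ + φ', add_mem (p.mono (le_max_left _ _) h1)
          (p.mono (le_max_right _ _) h1'), by rw [add_sub_add_comm]; exact add_mem h2 h2'⟩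
      smul_mem' := by
        rintro c a ⟨m, φ, h1, h2⟩
        refine ⟨m, c • φ, Submodule.smul_mem _ _ h1, ?_⟩
        rw [← smul_sub, Algebra.smul_def]
        exact Ideal.mul_mem_left _ _ h2 }
  have h := L1.dense_delta P.topologicalClosure P.isClosed_topologicalClosure fun g => by
    refine Metric.mem_closure_iff.2 fun η hη => ?_
    obtain ⟨i, hi⟩ := p.rep g⁻¹
    obtain ⟨m, φ, h1, h2⟩ := p.app i (η / 2) (by positivity)
    refine ⟨φ + (ch g⁻¹ - ch (p.χ i)), ⟨m, φ, h1, by rwa [add_sub_cancel_left]⟩, ?_⟩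
    rw [dist_eq_norm, show L1.delta g = ch g⁻¹ by rw [ch, inv_inv], norm_sub_rev,
      show φ + (ch g⁻¹ - ch (p.χ i)) - ch g⁻¹ = φ - ch (p.χ i) by abel]
    linarith
  have hf : f ∈ closure (P : Set (L1 G)) := by
    have : f ∈ P.topologicalClosure := h ▸ Submodule.mem_top
    exact this
  obtain ⟨a, ⟨m, φ, h1, h2⟩, hd⟩ := Metric.mem_closure_iff.1 hf θ hθ
  exact ⟨m, φ, h1, _, h2, by rwa [sub_sub, sub_add_cancel, ← dist_eq_norm]⟩

theorem Pack.near {f j φ : L1 G} (hj : j ∈ (idealJ fourierChar p.E).closure)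
    {γ : PontryaginDual G} (hγ : γ ∈ p.E) : ‖fourier f γ - fourier φ γ‖ ≤ ‖f - j - φ‖ := by
  have := norm_fourier_le (f - j - φ) γ
  rwa [fourier_sub, fourier_sub, mem_idealI.1 (closure_idealJ_le fourierChar _ hj) γ hγ,
    sub_zero] at this

theorem Pack.helson_step (f : L1 G) (ρ : ℝ) (hρ : 0 < ρ) (hf : ∀ γ ∈ p.E, ‖fourier f γ‖ ≤ ρ) :
    ∃ a : L1 G, ‖a‖ ≤ 2 * p.C * ρ ∧ ∀ γ ∈ p.E, ‖fourier (f - a) γ‖ ≤ ρ / 2 := by
  obtain ⟨m, φ, h2, j, hj, h1⟩ := p.fac f (θ := ρ / 8) (by positivity)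
  obtain ⟨u, -, hu2, hu3⟩ := p.unit m
  have h3 : ∀ γ ∈ p.E, ‖fourier f γ - fourier φ γ‖ ≤ ρ / 8 := fun γ hγ =>
    (p.near hj hγ).trans h1.le
  have h4 : ∀ γ ∈ p.E, ‖fourier φ γ‖ ≤ ρ + ρ / 8 := fun γ hγ => by
    have := norm_sub_le (fourier f γ) (fourier f γ - fourier φ γ)
    rw [sub_sub_cancel] at this
    linarith [hf γ hγ, h3 γ hγ]
  obtain ⟨a, ha1, ha2⟩ := hu3 φ h2 (ρ + ρ / 8) (by positivity) h4
  refine ⟨a, by nlinarith [mul_pos p.pos hρ], fun γ hγ => ?_⟩
  rw [fourier_sub, ha2.self_of_nhdsSet γ hγ]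
  have e : fourier f γ - fourier φ γ * fourier u γ =
      (fourier f γ - fourier φ γ) - fourier φ γ * (fourier u γ - 1) := by ring
  rw [e]
  refine (norm_sub_le _ _).trans ?_
  have h5 := norm_mul_le_of_le (h4 γ hγ) ((hu2 γ hγ).trans (ep_le m))
  linarith [h3 γ hγ]

theorem Pack.helson (f : L1 G) (ρ : ℝ) (hρ : 0 < ρ) (hf : ∀ γ ∈ p.E, ‖fourier f γ‖ ≤ ρ) :
    ∃ r : L1 G, ‖r‖ ≤ 4 * p.C * ρ ∧ ∀ γ ∈ p.E, fourier r γ = fourier f γ := by
  choose! A hA1 hA2 using p.helson_step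
  let F : ℕ → L1 G := fun n => Nat.rec f (fun n x => x - A x (ρ / 2 ^ n)) n
  have hF : ∀ n, F (n + 1) = F n - A (F n) (ρ / 2 ^ n) := fun n => rfl
  have h1 : ∀ n, ∀ γ ∈ p.E, ‖fourier (F n) γ‖ ≤ ρ / 2 ^ n := by
    intro n
    induction n with
    | zero => simpa [F] using hf
    | succ n ih =>
      intro γ hγ
      rw [hF, pow_succ, ← div_div]
      exact hA2 _ _ (by positivity) ih γ hγ
  have h2 : ∀ n, ‖A (F n) (ρ / 2 ^ n)‖ ≤ 4 * p.C * ρ / 2 / 2 ^ n := fun n =>
    (hA1 _ _ (by positivity) (h1 n)).trans (le_of_eq (by ring))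
  have hs := hasSum_geometric_two' (4 * p.C * ρ)
  have hsum : Summable fun n => A (F n) (ρ / 2 ^ n) := Summable.of_norm_bounded hs.summable h2
  refine ⟨∑' n, A (F n) (ρ / 2 ^ n), tsum_of_norm_bounded hs h2, fun γ hγ => ?_⟩
  have h3 := (fourier_hasSum hsum.hasSum γ).tendsto_sum_nat
  have h4 : ∀ n, ∑ k ∈ Finset.range n, fourier (A (F k) (ρ / 2 ^ k)) γ =
      fourier f γ - fourier (F n) γ := by
    intro n
    induction n with
    | zero => simp [F]
    | succ n ih => rw [Finset.sum_range_succ, ih, hF, fourier_sub]; ring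
  simp only [h4] at h3
  have h5 : Tendsto (fun n => fourier (F n) γ) atTop (𝓝 0) := by
    refine squeeze_zero_norm (fun n => h1 n γ hγ) ?_
    exact tendsto_const_nhds.div_atTop (tendsto_pow_atTop_atTop_of_one_lt one_lt_two)
  have h6 := (tendsto_const_nhds (x := fourier f γ)).sub h5
  rw [sub_zero] at h6
  exact tendsto_nhds_unique h3 h6

theorem Pack.fails : FailsSynthesis fourierChar p.E := by
  refine lt_of_le_of_ne (closure_idealJ_le fourierChar p.E) fun h => ?_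
  obtain ⟨v, hv, hT⟩ := p.bad
  have hC := p.pos
  obtain ⟨r, hr1, hr2⟩ := p.helson (1 - v) (1 / (16 * (p.C + 1))) (by positivity) fun γ hγ => by
    rw [fourier_sub, fourier_one, norm_sub_rev]
    exact hv γ hγ
  have he : 1 - v - r ∈ idealI fourierChar p.E := mem_idealI.2 fun γ hγ => by
    rw [fourier_sub, hr2 γ hγ, sub_self]
  rw [← h] at he
  obtain ⟨a, ⟨V, hV, ha⟩, hd⟩ := Metric.mem_closure_iff.1 he (1 / 8) (by norm_num)
  obtain ⟨T, t1, t2, h3, t4⟩ := hT V hV
  have hn : ∀ f, ‖pairCLM T f‖ ≤ ‖f‖ * 2 := L1.norm_clm_le _ 2 fun g => by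
    rw [pairCLM_apply, show fourier (L1.delta g) = evg g⁻¹ from funext (fourier_delta g)]
    exact t4 _
  have h1 : pairCLM T a = 0 := t1 _ ha
  have h2 : pairCLM T 1 = 1 := by
    rw [pairCLM_apply, show fourier (1 : L1 G) = fun _ => 1 from funext fourier_one]
    exact t2
  have h4 := hn r
  have h5 := hn (1 - v - r - a)
  rw [dist_eq_norm] at hd
  simp only [map_sub, h1, h2, sub_zero] at h5
  have h6 : 1 / (16 * (p.C + 1)) ≤ 1 / 16 := by gcongr; linarith
  have h9 : 4 * p.C * (1 / (16 * (p.C + 1))) ≤ 1 / 4 := by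
    rw [mul_one_div, div_le_div_iff₀ (by positivity) (by norm_num)]
    linarith
  have h8 := norm_add₃_le (a := 1 - pairCLM T v - pairCLM T r) (b := pairCLM T v)
    (c := pairCLM T r)
  rw [show 1 - pairCLM T v - pairCLM T r + pairCLM T v + pairCLM T r = 1 by ring, norm_one] at h8
  rw [← pairCLM_apply] at h3
  linarith

theorem Pack.bai : ∃ e : ℕ → L1 G, (∀ n, e n ∈ idealI fourierChar p.E) ∧
    (∀ n, ‖e n‖ ≤ 3 + p.C) ∧ ∀ f ∈ idealI fourierChar p.E, Tendsto (fun n =>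
      ‖Ideal.Quotient.mk (idealJ fourierChar p.E).closure (f - f * e n)‖) atTop (𝓝 0) := by
  have hC := p.pos
  choose u hu1 hu2 hu3 using p.unit
  choose r hr1 hr2 using fun n => p.helson (1 - u n) (ep n) (ep_pos n) fun γ hγ => by
    rw [fourier_sub, fourier_one, norm_sub_rev]
    exact hu2 n γ hγ
  refine ⟨fun n => 1 - u n - r n, fun n => mem_idealI.2 fun γ hγ => by
    rw [fourier_sub, hr2 n γ hγ, sub_self], fun n => ?_, fun f hf => ?_⟩
  · have h1 := norm_sub_le (1 - u n) (r n)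
    have h2 := norm_sub_le 1 (u n)
    rw [norm_one] at h2
    nlinarith [hu1 n, hr1 n, ep_le n]
  · have hr0 : Tendsto (fun n => ‖f‖ * (4 * p.C * ep n)) atTop (𝓝 0) := by
      simpa using (ep_lim.const_mul (4 * p.C)).const_mul ‖f‖
    rw [Metric.tendsto_nhds] at hr0 ⊢
    intro ε hε
    obtain ⟨m, φ, h2, j, hj, h1⟩ := p.fac f (θ := ε / (p.C + 3)) (by positivity)
    filter_upwards [hr0 (ε / (p.C + 3)) (by positivity), eventually_ge_atTop m] with n hn1 hn2
    obtain ⟨a, ha1, ha2⟩ := hu3 n φ (p.mono hn2 h2) (ε / (p.C + 3)) (by positivity) fun γ hγ => by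
      have := p.near (f := f) (φ := φ) hj hγ
      rw [mem_idealI.1 hf γ hγ, zero_sub, norm_neg] at this
      exact this.trans h1.le
    have hJ : φ * u n - a ∈ (idealJ fourierChar p.E).closure := subset_closure
      (mem_idealJ.2
        ⟨_, ha2, fun γ hγ => by rw [fourier_sub, fourier_mul, sub_eq_zero]; exact hγ.symm⟩)
    have e : Ideal.Quotient.mk (idealJ fourierChar p.E).closure (f - f * (1 - u n - r n)) =
        Ideal.Quotient.mk (idealJ fourierChar p.E).closure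
          ((f - j - φ) * u n + a + f * r n) := by
      rw [Ideal.Quotient.eq]
      convert add_mem hJ (Ideal.mul_mem_right (u n) _ hj) using 1
      ring
    rw [e, dist_zero_right, norm_norm]
    refine (Ideal.Quotient.norm_mk_le _ _).trans_lt (norm_add₃_le.trans_lt ?_)
    have h3 : ‖(f - j - φ) * u n‖ ≤ ε / (p.C + 3) * 2 := norm_mul_le_of_le h1.le (hu1 n)
    have h4 : ‖f * r n‖ ≤ ‖f‖ * (4 * p.C * ep n) := norm_mul_le_of_le le_rfl (hr1 n)
    rw [dist_zero_right] at hn1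
    have h5 := le_abs_self (‖f‖ * (4 * p.C * ep n))
    have h6 : (p.C + 3) * (ε / (p.C + 3)) = ε := mul_div_cancel₀ _ (by positivity)
    rw [Real.norm_eq_abs] at hn1
    linarith

theorem Pack.amenable : IsAmenable.{u} (RE fourierChar p.E) := by
  obtain ⟨e, he1, he2, he3⟩ := p.bai
  let mk := Ideal.Quotient.mk (idealJ fourierChar p.E).closure
  refine isAmenable_of_bai' (RE fourierChar p.E) ?_ (mk.toMonoidHom.comp L1.deltaHom) ?_
    (fun i => (p.χ i)⁻¹) ?_ (fun n => ⟨mk (e n), e n, he1 n, rfl⟩) (3 + p.C) ?_ ?_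
  · rintro b _ ⟨f, hf, rfl⟩
    obtain ⟨b, rfl⟩ := Ideal.Quotient.mk_surjective b
    exact ⟨b * f, (idealI fourierChar p.E).mul_mem_left b hf, map_mul _ _ _⟩
  · exact fun g => (Ideal.Quotient.norm_mk_le _ _).trans (L1.norm_delta g).le
  · intro P hP hd
    have := L1.dense_delta
      (P.comap (Ideal.Quotient.mkₐ ℂ (idealJ fourierChar p.E).closure).toLinearMap)
      (hP.preimage continuous_quot_mk) fun g => by
        obtain ⟨i, hi⟩ := p.rep g⁻¹
        rw [ch, inv_inv] at hi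
        change mk (L1.delta g) ∈ P
        rw [Ideal.Quotient.eq.2 hi]
        exact hd i
    rw [eq_top_iff]
    intro b _
    obtain ⟨b, rfl⟩ := Ideal.Quotient.mk_surjective b
    have hb : b ∈ P.comap (Ideal.Quotient.mkₐ ℂ (idealJ fourierChar p.E).closure).toLinearMap :=
      this ▸ Submodule.mem_top
    exact hb
  · exact fun n => (Ideal.Quotient.norm_mk_le _ _).trans (he2 n)
  · rintro ⟨_, f, hf, rfl⟩
    rw [tendsto_iff_norm_sub_tendsto_zero]
    refine (he3 f hf).congr fun n => ?_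
    rw [norm_sub_rev, map_sub, map_mul]
    rfl

theorem not_fails [Finite G] (E : Set (PontryaginDual G)) : ¬ FailsSynthesis fourierChar E :=
  fun h => h.not_ge fun _ hf => subset_closure
    (mem_idealJ.2 ⟨E, (isOpen_discrete E).mem_nhdsSet_self, hf⟩)

end Pool.Agent.P.MP_bf3635_an.Ev
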