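import Pool.Agent.P.MP_bf3635_an.GStage

/-! The compact set in the dual of an arbitrary infinite discrete abelian group. -/

open Filter Topology

set_option linter.unusedSectionVars false

noncomputable section

namespace Pool.Agent.P.MP_bf3635_an.Ev

/-- the errors -/
def ep (k : ℕ) : ℝ := (1 / 2) ^ k / 32

theorem ep_pos (k : ℕ) : 0 < ep k := by unfold ep; positivity

theorem ep_anti {k l : ℕ} (h : k ≤ l) : ep l ≤ ep k :=
  div_le_div_of_nonneg_right (pow_le_pow_of_le_one (by norm_num) (by norm_num) h) (by norm_num)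

theorem ep_le (k : ℕ) : ep k ≤ 1 / 32 := (ep_anti k.zero_le).trans_eq (by simp [ep])

theorem ep_lim : Tendsto ep atTop (𝓝 0) := by
  have := (tendsto_pow_atTop_nhds_zero_of_lt_one (r := (1 / 2 : ℝ)) (by norm_num)
    (by norm_num)).div_const 32
  rwa [zero_div] at this

variable {G : Type} [CommGroup G] [TopologicalSpace G] [DiscreteTopology G]

/-- what is used about the compact set -/
structure Pack (G : Type) [CommGroup G] [TopologicalSpace G] where
  E : Set (PontryaginDual G)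
  χ : ℕ → G
  C : ℝ
  Fac : ℕ → Submodule ℂ (L1 G)
  cpt : IsCompact E
  pos : 0 < C
  mono : Monotone Fac
  rep : ∀ g, ∃ i, ch g - ch (χ i) ∈ (idealJ fourierChar E).closure
  app : ∀ i, ∀ θ > 0, ∃ m, ∃ φ ∈ Fac m, ‖φ - ch (χ i)‖ ≤ θ
  unit : ∀ m, ∃ u : L1 G, ‖u‖ ≤ 2 ∧ (∀ γ ∈ E, ‖fourier u γ - 1‖ ≤ ep m) ∧ ∀ φ ∈ Fac m, ∀ ρ > 0,
    (∀ γ ∈ E, ‖fourier φ γ‖ ≤ ρ) → ∃ a : L1 G, ‖a‖ ≤ C * ρ ∧
      ∀ᶠ γ in 𝓝ˢ E, fourier a γ = fourier φ γ * fourier u γ
  bad : ∃ v : L1 G, (∀ γ ∈ E, ‖fourier v γ - 1‖ ≤ 1 / (16 * (C + 1))) ∧ ∀ V ∈ 𝓝ˢ E,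
    ∃ T : MonoidAlgebra ℂ (PontryaginDual G), SuppIn T V ∧ integ T (fun _ => 1) = 1 ∧
      ‖integ T (fourier v)‖ ≤ 1 / (16 * (C + 1)) ∧ ∀ g, ‖integ T (evg g)‖ ≤ 2

theorem sub_one_mem {E : Set (PontryaginDual G)} {g : G} (h : ∀ γ ∈ E, evg g γ = 1) :
    ch g - 1 ∈ (idealJ fourierChar E).closure := by
  refine Metric.mem_closure_iff.2 fun θ hθ => ?_
  obtain ⟨κ, hκ, hr⟩ := exists_root (G := G) one_pos (θ / 2) (by positivity)
  obtain ⟨s, h1, h2⟩ := hr g
  refine ⟨s - 1, mem_idealJ.2 ⟨{γ | ‖evg g γ - 1‖ < κ},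
    (isOpen_lt ((continuous_evg g).sub continuous_const).norm continuous_const).mem_nhdsSet.2
      fun γ hγ => by simpa [h γ hγ] using hκ, fun γ hγ => ?_⟩, ?_⟩
  · rw [fourier_sub, h2 γ 1 (one_pow _) hγ, fourier_one, sub_self]
  · rw [dist_eq_norm, sub_sub_sub_cancel_right, norm_sub_rev]
    linarith

theorem exists_pack [Infinite G] : Nonempty (Pack G) := by
  classical
  obtain ⟨H, χ, M, hH, hχ, hM⟩ := exists_setup (G := G)
  obtain ⟨n, z, hn, z1, z2, hL⟩ := exists_zeta hH hM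
  let ζ : Circle := ⟨z, mem_sphere_zero_iff_norm.2 (Complex.norm_eq_one_of_pow_eq_one z1 hn.ne')⟩
  have h1 : ζ ^ n = 1 := Circle.ext (by rw [Circle.coe_pow]; exact z1)
  have h2 : ζ ≠ 1 := fun e => z2 (congrArg (fun x : Circle => (x : ℂ)) e)
  set C0 : ℝ := 2 + ‖2 / ((ζ : ℂ) - 1)‖ * 4 with hC0
  have C1 : 0 < C0 := by positivity
  obtain ⟨s0, e0, -⟩ := exists_st (H := H) 1
    (fun x hx => mem_of_suppIn (S := H) (suppIn_single 1 1 H.one_mem) hx) (integ_one _) univ_mem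
  obtain ⟨s1, -, b1, v, w, -, -, v1, v2, v3⟩ := exists_one hn h1 h2 hL s0 (ψ := fun _ => false)
    (fun _ _ _ _ => rfl) (ε := 1 / (16 * (2 * C0 + 1))) (by positivity)
  choose nxt n1 n2 n3 u n4 n5 n6 using fun (s : St H) (m : ℕ) =>
    exists_step hn h1 h2 hL s (χ m.unpair.1) (ep_pos m) ((ep_le m).trans (by norm_num))
  let S : ℕ → St H := fun m => Nat.rec s1 (fun m s => nxt s m) m
  have hR : ∀ m, (S m).Ref (S (m + 1)) := fun m => n1 _ m
  have hcon : ∀ {m k} {F : PontryaginDual G → ℂ}, m ≤ k → (S m).Con F →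
      (S k).Con F ∧ integ (S k).T F = integ (S m).T F := fun {m k F} h hF => by
    induction k, h using Nat.le_induction with
    | base => exact ⟨hF, rfl⟩
    | succ k _ ih => exact ⟨(hR k).con ih.1, ((hR k).int F ih.1).trans ih.2⟩
  have hB : ∀ m, (S m).Bd (2 - 2 * ep m) := fun m => by
    induction m with
    | zero =>
      intro g
      refine (b1 1 (fun g => by rw [e0, integ_one, norm_evg]) g).trans ?_
      have : 1 / (16 * (2 * C0 + 1)) ≤ 1 / 16 := by gcongr; linarith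
      linarith [ep_le 0]
    | succ m ih =>
      intro g
      refine (n2 _ m _ ih g).trans (le_of_eq ?_)
      simp only [ep, pow_succ]
      ring
  let K : ℕ → Set (PontryaginDual G) := fun m =>
    H ∩ ⋃ x ∈ (S m).P, (x⁻¹ * ·) ⁻¹' closure (S m).U
  have K1 : ∀ m, IsClosed (K m) := fun m => hH.inter (isClosed_biUnion_finset fun x _ =>
    isClosed_closure.preimage (continuous_const_mul _))
  have K2 : ∀ m, ∀ γ ∈ K (m + 1), ∃ x ∈ (S m).P, x⁻¹ * γ ∈ (S m).U := fun m γ hγ => by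
    obtain ⟨x', hx', a⟩ := Set.mem_iUnion₂.1 hγ.2
    obtain ⟨x, hx, y, rfl, hy⟩ := (hR m).cell x' hx'
    refine ⟨x, hx, ?_⟩
    have : y * ((x * y)⁻¹ * γ) ∈ (S m).U := hy _ a
    rwa [mul_inv_rev, mul_assoc, mul_inv_cancel_left] at this
  have K3 : Antitone K := antitone_nat_of_succ_le fun m γ hγ => by
    obtain ⟨x, hx, a⟩ := K2 m γ hγ
    exact ⟨hγ.1, Set.mem_iUnion₂.2 ⟨x, hx, subset_closure a⟩⟩
  have near : ∀ m, ∀ᶠ γ in 𝓝ˢ (⋂ m, K m), ∃ x ∈ (S m).P, x⁻¹ * γ ∈ (S m).U ∧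
      ∃ y ∈ (S m).U, x * y ∈ ⋂ m, K m := fun m => by
    refine eventually_nhdsSet_iff_forall.2 fun γ hγ => ?_
    obtain ⟨x, hx, a⟩ := K2 m γ (Set.mem_iInter.1 hγ (m + 1))
    have h : ∀ᶠ δ in 𝓝 γ, x⁻¹ * δ ∈ (S m).U :=
      ((S m).opn.preimage (continuous_const_mul x⁻¹)).mem_nhds a
    exact h.mono fun δ hδ => ⟨x, hx, hδ, _, a, by rw [mul_inv_cancel_left]; exact hγ⟩
  have hold : ∀ m p, (S m).Hold p → ∀ᶠ γ in 𝓝ˢ (⋂ m, K m), p γ := fun m p hp =>
    (near m).mono fun γ ⟨x, hx, a, _⟩ => by simpa using hp x hx _ a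
  refine ⟨{
    E := ⋂ m, K m
    χ := χ
    C := 2 * C0
    Fac := fun m =>
      { carrier := {φ | (S m).Con (fourier φ)}
        zero_mem' := fun x _ y _ => by rw [fourier_zero, fourier_zero]
        add_mem' := fun ha hb x hx y hy => by
          rw [fourier_add, fourier_add, ha x hx y hy, hb x hx y hy]
        smul_mem' := fun c a ha x hx y hy => by rw [fourier_smul, fourier_smul, ha x hx y hy] }
    cpt := (isClosed_iInter K1).isCompact
    pos := by positivity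
    mono := fun m k h φ hφ => (hcon h hφ).1
    rep := fun g => ?_
    app := fun i θ hθ => ?_
    unit := fun m => ⟨u (S m) m, n4 _ m, (hold (m + 1) _ (n5 _ m)).self_of_nhdsSet,
      fun φ hφ ρ hρ hb => ?_⟩
    bad := ⟨v, fun γ hγ => ((hold 0 _ v3).self_of_nhdsSet γ hγ).2, fun V hV => ?_⟩ }⟩
  · obtain ⟨i, hi⟩ := hχ g
    refine ⟨i, ?_⟩
    rw [show ch g - ch (χ i) = ch (χ i) * (ch (g * (χ i)⁻¹) - 1) by
      rw [mul_sub, ← ch_mul, mul_one, mul_comm (χ i), inv_mul_cancel_right]]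
    refine Ideal.mul_mem_left _ _ (sub_one_mem fun γ hγ => ?_)
    have a := hi γ (Set.mem_iInter.1 hγ 0).1
    have b : evg (χ i) γ ≠ 0 := norm_ne_zero_iff.1 (by rw [norm_evg]; exact one_ne_zero)
    refine mul_right_cancel₀ b ?_
    rw [← evg_mul, inv_mul_cancel_right, one_mul, a]
  · obtain ⟨k, hk⟩ := (ep_lim.eventually (ge_mem_nhds hθ)).exists
    obtain ⟨φ, a, b⟩ := n3 (S (i.pair k)) (i.pair k)
    rw [Nat.unpair_pair] at a
    exact ⟨i.pair k + 1, φ, b, a.trans ((ep_anti (Nat.right_le_pair i k)).trans hk)⟩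
  · let c : PontryaginDual G → ℂ := fun x =>
      if x ∈ (S m).P ∧ ∃ y ∈ (S m).U, x * y ∈ ⋂ m, K m then fourier φ x else 0
    have hc : ∀ x, ‖c x‖ ≤ ρ := fun x => by
      simp only [c]
      split_ifs with h
      · obtain ⟨hx, y, hy, a⟩ := h
        rw [← hφ x hx y hy]
        exact hb _ a
      · simpa using hρ.le
    obtain ⟨a1, ha1, e1⟩ := n6 (S m) m (fun x => (c x).re / ρ) fun x _ => by
      rw [abs_div, abs_of_pos hρ, div_le_one hρ]
      exact (Complex.abs_re_le_norm _).trans (hc x)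
    obtain ⟨a2, ha2, e2⟩ := n6 (S m) m (fun x => (c x).im / ρ) fun x _ => by
      rw [abs_div, abs_of_pos hρ, div_le_one hρ]
      exact (Complex.abs_im_le_norm _).trans (hc x)
    refine ⟨(ρ : ℂ) • (a1 + Complex.I • a2), ?_, ?_⟩
    · rw [norm_smul, Complex.norm_real, Real.norm_of_nonneg hρ.le, mul_comm]
      gcongr
      refine (norm_add_le _ _).trans ?_
      rw [norm_smul, Complex.norm_I]
      linarith
    · filter_upwards [near m, hold (m + 1) _ e1, hold (m + 1) _ e2] with γ ⟨x, hx, a, b⟩ f1 f2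
      have e3 : c x = fourier φ γ := by
        rw [← mul_inv_cancel_left x γ, hφ x hx _ a]
        exact if_pos ⟨hx, b⟩
      have hρ' : (ρ : ℂ) ≠ 0 := by exact_mod_cast hρ.ne'
      rw [fourier_smul, fourier_add, fourier_smul, f1 x hx _ a (mul_inv_cancel_left x γ).symm,
        f2 x hx _ a (mul_inv_cancel_left x γ).symm, ← e3]
      conv_rhs => rw [← Complex.re_add_im (c x)]
      push_cast
      field_simp
  · obtain ⟨m, hm⟩ := exists_subset_nhds_of_compactSpace K3.directed_ge K1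
      (mem_nhdsSet_iff_forall.1 hV)
    refine ⟨(S m).T, (suppIn_self _).mono fun x hx => hm ⟨(S m).sub x hx, Set.mem_iUnion₂.2
      ⟨x, hx, subset_closure (by simpa using (S m).one)⟩⟩, (S m).tot, ?_, fun g => ?_⟩
    · rw [(hcon m.zero_le v1).2]
      exact v2
    · linarith [hB m g, ep_pos m]

end Pool.Agent.P.MP_bf3635_an.Ev
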