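import Pool.Agent.P.MP_bf3635_an.Basic

/-! Characters are close in norm to elements whose transform is locally constant. -/

open Filter Topology

set_option linter.unusedSectionVars false

noncomputable section

namespace Pool.Agent.P.MP_bf3635_an.Ev

open Complex
open scoped Real

variable {G : Type} [CommGroup G] [TopologicalSpace G]

/-- the element whose transform is evaluation at `g` -/
def ch (g : G) : L1 G := L1.delta g⁻¹

theorem fourier_ch (g : G) (γ : PontryaginDual G) : fourier (ch g) γ = evg g γ := by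
  rw [ch, fourier_delta, inv_inv]
  rfl

theorem norm_ch (g : G) : ‖ch g‖ = 1 := L1.norm_delta _

theorem ch_mul (g h : G) : ch (g * h) = ch g * ch h := by
  rw [ch, ch, ch, L1.delta_mul, mul_inv]

theorem evg_mul (g h : G) (γ : PontryaginDual G) : evg (g * h) γ = evg g γ * evg h γ := by
  simp [evg_apply]

theorem evg_zpow (g : G) (n : ℤ) (γ : PontryaginDual G) : evg (g ^ n) γ = evg g γ ^ n := by
  simp [evg_apply]

theorem evg_pow (g : G) (n : ℕ) (γ : PontryaginDual G) : evg (g ^ n) γ = evg g γ ^ n := by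
  simp [evg_apply]

theorem continuous_fourier (f : L1 G) : Continuous (fourier f) :=
  continuous_tsum (fun g => continuous_const.mul (continuous_evg g⁻¹)) f.summable_norm
    fun g γ => by simp only [norm_mul, Circle.norm_coe, mul_one, le_refl]

/-- Fourier coefficients of a function that is linear near the origin -/
def cf (n : ℤ) : ℂ :=
  1 / (n : ℂ) ^ 2 * (cexp (2 * π * I * n * (3 / 4)) - cexp (2 * π * I * n * (1 / 4)))

theorem summable_cf : Summable fun n => ‖cf n‖ := by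
  refine Summable.of_nonneg_of_le (fun _ => norm_nonneg _) (fun n => ?_)
    ((Real.summable_one_div_int_pow.2 one_lt_two).mul_right 2)
  have h : ∀ r : ℝ, ‖cexp (2 * π * I * n * r)‖ = 1 := fun r => by
    rw [show (2 * π * I * n * r : ℂ) = ((2 * π * n * r : ℝ) : ℂ) * I by push_cast; ring]
    exact norm_exp_ofReal_mul_I _
  have h1 := h (3 / 4)
  have h2 := h (1 / 4)
  push_cast at h1 h2
  rw [cf, norm_mul]
  gcongr
  · simp
  · exact (norm_sub_le _ _).trans (by rw [h1, h2]; norm_num)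

theorem hasSum_cf {t : ℂ} (h1 : ‖t‖ = 1) (h2 : 0 ≤ t.re) :
    HasSum (fun n : ℤ => cf n * t ^ n) (π * arg t) := by
  have h3 := abs_le.1 (abs_arg_le_pi_div_two_iff.2 h2)
  have hp := Real.pi_pos
  set y : ℝ := arg t / (2 * π) with hy
  have y1 : -(1 / 4) ≤ y := by rw [hy, le_div_iff₀ (by positivity)]; linarith
  have y2 : y ≤ 1 / 4 := by rw [hy, div_le_iff₀ (by positivity)]; linarith
  have a := hasSum_one_div_pow_mul_fourier_mul_bernoulliFun le_rfl (x := y + 3 / 4)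
    ⟨by linarith, by linarith⟩
  have b := hasSum_one_div_pow_mul_fourier_mul_bernoulliFun le_rfl (x := y + 1 / 4)
    ⟨by linarith, by linarith⟩
  have hp' : (π : ℂ) ≠ 0 := by exact_mod_cast hp.ne'
  have ht : t = cexp (2 * π * I * y) := by
    have := norm_mul_exp_arg_mul_I t
    rw [h1, ofReal_one, one_mul] at this
    refine this.symm.trans (congrArg cexp ?_)
    rw [hy]
    push_cast
    field_simp
  have e1 : (fun n : ℤ => cf n * t ^ n) = fun n : ℤ =>
      1 / (n : ℂ) ^ 2 * _root_.fourier n ((y + 3 / 4 : ℝ) : AddCircle (1 : ℝ)) -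
        1 / (n : ℂ) ^ 2 * _root_.fourier n ((y + 1 / 4 : ℝ) : AddCircle (1 : ℝ)) := by
    funext n
    rw [fourier_coe_apply, fourier_coe_apply, cf, ht, ← exp_int_mul, mul_assoc, sub_mul,
      ← Complex.exp_add, ← Complex.exp_add, ← mul_sub]
    push_cast
    congr 3 <;> ring
  rw [e1]
  refine (congrArg (HasSum _) ?_).mp (a.sub b)
  rw [bernoulliFun_two, bernoulliFun_two, hy]
  push_cast
  field_simp
  rw [I_sq]
  simp only [Nat.factorial]
  push_cast
  ring

/-- rounding to a nearby `K`-th root of unity -/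
def rd (K : ℕ) (t : ℂ) : ℂ := t * cexp (-(I * arg (t ^ K) / K))

theorem exists_round (ε : ℝ) (hε : 0 < ε) : ∃ K0 : ℕ, ∀ K ≥ K0, ∀ g : G, ∃ s : L1 G,
    ‖s - ch g‖ ≤ ε ∧ ∀ γ, 0 ≤ (evg g γ ^ K).re → fourier s γ = rd K (evg g γ) := by
  have hc := (NormedSpace.exp_analytic (𝕂 := ℂ) (0 : L1 G)).continuousAt
  obtain ⟨δ, hδ, h⟩ := Metric.continuousAt_iff.1 hc ε hε
  obtain ⟨K0, hK0⟩ := exists_nat_gt ((∑' n, ‖cf n‖) / π / δ)
  refine ⟨K0 + 1, fun K hK g => ?_⟩
  have hp := Real.pi_pos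
  have hK' : (K0 : ℝ) < K := by exact_mod_cast hK
  have hK1 : (0 : ℝ) < K := lt_of_le_of_lt (Nat.cast_nonneg _) hK'
  have hb : ∀ n : ℤ, ‖cf n • ch ((g ^ K) ^ n)‖ ≤ ‖cf n‖ := fun n => by
    rw [norm_smul, norm_ch, mul_one]
  have hs : Summable fun n : ℤ => cf n • ch ((g ^ K) ^ n) := .of_norm_bounded summable_cf hb
  set Λ := ∑' n : ℤ, cf n • ch ((g ^ K) ^ n)
  have hΛ : ‖Λ‖ ≤ ∑' n, ‖cf n‖ := tsum_of_norm_bounded summable_cf.hasSum hb
  refine ⟨ch g * NormedSpace.exp ((-(I / π / K)) • Λ), ?_, fun γ hγ => ?_⟩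
  · rw [← mul_sub_one]
    refine (norm_mul_le _ _).trans ?_
    rw [norm_ch, one_mul, ← dist_eq_norm, ← NormedSpace.exp_zero]
    refine (h ?_).le
    rw [dist_zero_right, norm_smul, norm_neg, norm_div, norm_div, norm_I, norm_natCast, norm_real,
      Real.norm_of_nonneg hp.le]
    rw [div_lt_iff₀ hδ, div_lt_iff₀ hp] at hK0
    rw [div_div, div_mul_eq_mul_div, one_mul, div_lt_iff₀ (by positivity)]
    nlinarith [mul_pos hδ hp]
  · have h1 := fourier_hasSum hs.hasSum γ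
    simp only [fourier_smul, fourier_ch, evg_zpow, evg_pow] at h1
    have h2 := h1.unique (hasSum_cf (by rw [norm_pow, norm_evg, one_pow]) hγ)
    have h3 := NormedSpace.map_exp_of_mem_ball (𝕂 := ℂ) (fourierChar γ)
      (continuous_fourier_left γ) ((-(I / π / K)) • Λ)
      ((NormedSpace.expSeries_radius_eq_top ℂ (L1 G)).symm ▸ edist_lt_top _ _)
    change fourier _ γ = NormedSpace.exp (fourier _ γ) at h3
    have hp' : (π : ℂ) ≠ 0 := by exact_mod_cast hp.ne'
    rw [fourier_mul, fourier_ch, h3, fourier_smul, h2, ← exp_eq_exp_ℂ, rd]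
    congr 2
    field_simp

theorem rd_pow {K : ℕ} (hK : 0 < K) {t : ℂ} (h : ‖t‖ = 1) : rd K t ^ K = 1 := by
  have h1 := norm_mul_exp_arg_mul_I (t ^ K)
  have hK' : (K : ℂ) ≠ 0 := by exact_mod_cast hK.ne'
  rw [norm_pow, h, one_pow, ofReal_one, one_mul] at h1
  rw [rd, mul_pow, ← exp_nat_mul]
  nth_rw 1 [← h1]
  rw [← Complex.exp_add, ← Complex.exp_zero]
  congr 1
  field_simp
  ring

theorem finite_roots {K : ℕ} (hK : 0 < K) : {z : ℂ | z ^ K = 1}.Finite :=
  (Polynomial.nthRoots K (1 : ℂ)).toFinset.finite_toSet.subset fun z hz => by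
    simpa [Polynomial.mem_nthRoots hK] using hz

theorem rd_eventually {K : ℕ} (hK : 0 < K) {t : ℂ} (h2 : 0 < (t ^ K).re) :
    ∀ᶠ z in 𝓝 t, 0 ≤ (z ^ K).re ∧ (‖z‖ = 1 → rd K z = rd K t) := by
  have c1 : ContinuousAt (fun z : ℂ => z ^ K) t := by fun_prop
  have c2 : ContinuousAt (fun z : ℂ => arg (z ^ K)) t :=
    ContinuousAt.comp (f := fun z : ℂ => z ^ K) (continuousAt_arg (Or.inl h2)) c1
  have c3 : ContinuousAt (rd K) t := by
    unfold rd
    fun_prop
  have h3 := ((finite_roots hK).sdiff (t := {rd K t})).isClosed.isOpen_compl.mem_nhds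
    (x := rd K t) (by simp)
  filter_upwards [c3.eventually h3,
    (continuous_re.continuousAt.comp c1).eventually (lt_mem_nhds h2)] with z a b
  refine ⟨le_of_lt b, fun hz => ?_⟩
  by_contra e
  exact a ⟨rd_pow hK hz, e⟩

theorem exists_loc (ε : ℝ) (hε : 0 < ε) (g : G) (S : Finset (PontryaginDual G)) : ∃ s : L1 G,
    ‖s - ch g‖ ≤ ε ∧ ∀ x ∈ S, ∀ᶠ γ in 𝓝 x, fourier s γ = fourier s x := by
  obtain ⟨K0, h⟩ := exists_round (G := G) ε hε
  have h1 := mapClusterPt_one_atTop_pow (fun x : S => x.1 g)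
  have h2 : ∀ᶠ τ in 𝓝 (1 : S → Circle), ∀ x, 0 < ((τ x : ℂ)).re :=
    eventually_all.2 fun x => by
      have c : Continuous fun τ : S → Circle => ((τ x : ℂ)).re := by fun_prop
      exact c.continuousAt.eventually (lt_mem_nhds (by simp))
  obtain ⟨K, hK1, hK2⟩ := ((h1.frequently h2).and_eventually (eventually_ge_atTop (K0 + 1))).exists
  obtain ⟨s, hs1, hs2⟩ := h K (by omega) g
  refine ⟨s, hs1, fun x hx => ?_⟩
  have h3 : 0 < (evg g x ^ K).re := by simpa [evg_apply] using hK1 ⟨x, hx⟩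
  filter_upwards [(continuous_evg g).continuousAt.eventually (rd_eventually (by omega) h3)]
    with γ hγ
  rw [hs2 γ hγ.1, hs2 x h3.le, hγ.2 (norm_evg _ _)]

theorem exists_root {n : ℕ} (hn : 0 < n) (ε : ℝ) (hε : 0 < ε) : ∃ κ > 0, ∀ g : G, ∃ s : L1 G,
    ‖s - ch g‖ ≤ ε ∧ ∀ γ ω, ω ^ n = 1 → ‖evg g γ - ω‖ < κ → fourier s γ = ω := by
  obtain ⟨K0, h⟩ := exists_round (G := G) ε hε
  have hK : 0 < n * (K0 + 1) := by positivity
  have h1 : ∀ᶠ κ in 𝓝[>] (0 : ℝ), ∀ ω ∈ {z : ℂ | z ^ n = 1}, ∀ z, ‖z - ω‖ < κ →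
      0 ≤ (z ^ (n * (K0 + 1))).re ∧ (‖z‖ = 1 → rd (n * (K0 + 1)) z = ω) := by
    refine (eventually_all_finite (finite_roots hn)).2 fun ω hω => ?_
    have e : ω ^ (n * (K0 + 1)) = 1 := by rw [pow_mul, show ω ^ n = 1 from hω, one_pow]
    obtain ⟨δ, hδ, h2⟩ := Metric.eventually_nhds_iff.1 (rd_eventually hK (t := ω) (by simp [e]))
    filter_upwards [Ioo_mem_nhdsGT hδ] with κ hκ z hz
    have := h2 (y := z) (by rw [dist_eq_norm]; exact hz.trans hκ.2)
    simpa [rd, e] using this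
  obtain ⟨κ, h2, h3⟩ := (h1.and self_mem_nhdsWithin).exists
  refine ⟨κ, h3, fun g => ?_⟩
  obtain ⟨s, hs1, hs2⟩ := h (n * (K0 + 1)) (by nlinarith) g
  exact ⟨s, hs1, fun γ ω hω hγ => by
    rw [hs2 γ (h2 ω hω _ hγ).1, (h2 ω hω _ hγ).2 (norm_evg _ _)]⟩

end Pool.Agent.P.MP_bf3635_an.Ev
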