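import Pool.Agent.P.MP_bf3635_an.GStar
import Pool.Agent.P.MP_bf3635_an.GBlock

/-! Stages of the construction in the dual of an arbitrary infinite discrete abelian group. -/

open Filter Topology

set_option linter.unusedSectionVars false
set_option linter.dupNamespace false

noncomputable section

namespace Pool.Agent.P.MP_bf3635_an.Ev

section supp

variable {Γ Δ : Type} [CommGroup Γ] [CommGroup Δ]

theorem suppIn_self (T : MonoidAlgebra ℂ Γ) : SuppIn T (T.coeff.support : Set Γ) := fun F hF => by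
  rw [integ_apply]
  exact Finset.sum_eq_zero fun γ hγ => by simp only [hF γ hγ, mul_zero]

theorem mem_of_suppIn {T : MonoidAlgebra ℂ Γ} {S : Set Γ} (h : SuppIn T S) {x : Γ}
    (hx : x ∈ T.coeff.support) : x ∈ S := by
  classical
  by_contra hs
  have := h (fun γ => if γ = x then 1 else 0) fun γ hγ => if_neg fun e : γ = x => hs (e ▸ hγ)
  rw [integ_apply, Finsupp.sum, Finset.sum_eq_single_of_mem x hx fun γ _ e => by simp [e]] at this
  exact Finsupp.mem_support_iff.1 hx (by simpa using this)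

theorem integ_map (p : Δ →* Γ) (h : MonoidAlgebra ℂ Δ) (F : Γ → ℂ) :
    integ (MonoidAlgebra.lift ℂ (MonoidAlgebra ℂ Γ) Δ ((MonoidAlgebra.of ℂ Γ).comp p) h) F =
      integ h fun k => F (p k) := by
  induction h using MonoidAlgebra.induction_linear with
  | zero => simp
  | add f g hf hg => simp only [map_add, LinearMap.add_apply, hf, hg]
  | single y b => simp

theorem xi_apply {ι : Type} [Fintype ι] (t : ι → Circle) (k : Multiplicative (ι → ℤ)) :
    xi t k = ∏ c, (t c : ℂ) ^ k.toAdd c :=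
  (map_prod Circle.coeHom _ _).trans
    (Finset.prod_congr rfl fun _ _ => map_zpow Circle.coeHom _ _)

end supp

variable {G : Type} [CommGroup G] [TopologicalSpace G] [DiscreteTopology G]

/-- a stage: a finitely supported measure and a small neighbourhood of the origin -/
structure St (H : Subgroup (PontryaginDual G)) where
  T : MonoidAlgebra ℂ (PontryaginDual G)
  U : Set (PontryaginDual G)
  opn : IsOpen U
  one : 1 ∈ U
  sub : ∀ x ∈ T.coeff.support, x ∈ H
  sep : ∀ x ∈ T.coeff.support, ∀ y ∈ T.coeff.support, ∀ u ∈ U, ∀ v ∈ U, x * u = y * v → x = y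
  tot : integ T (fun _ => 1) = 1

variable {H : Subgroup (PontryaginDual G)}

/-- the centres of the cells -/
def St.P (s : St H) : Finset (PontryaginDual G) := s.T.coeff.support

/-- constant on every cell -/
def St.Con (s : St H) {α : Type} (F : PontryaginDual G → α) : Prop :=
  ∀ x ∈ s.P, ∀ u ∈ s.U, F (x * u) = F x

/-- true on every cell -/
def St.Hold (s : St H) (p : PontryaginDual G → Prop) : Prop := ∀ x ∈ s.P, ∀ u ∈ s.U, p (x * u)

/-- refinement -/
structure St.Ref (s s' : St H) : Prop where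
  cell : ∀ x' ∈ s'.P, ∃ x ∈ s.P, ∃ y, x' = x * y ∧ ∀ u ∈ closure s'.U, y * u ∈ s.U
  int : ∀ F, s.Con F → integ s'.T F = integ s.T F

/-- a bound for the transform of the measure -/
def St.Bd (s : St H) (c : ℝ) : Prop := ∀ g, ‖integ s.T (evg g)‖ ≤ c

theorem St.Ref.hold {s s' : St H} (h : s.Ref s') {p : PontryaginDual G → Prop} (hp : s.Hold p) :
    s'.Hold p := fun x' hx' u hu => by
  obtain ⟨x, hx, y, rfl, hy⟩ := h.cell x' hx'
  rw [mul_assoc]
  exact hp x hx _ (hy u (subset_closure hu))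

theorem St.Ref.con {s s' : St H} (h : s.Ref s') {α : Type} {F : PontryaginDual G → α}
    (hF : s.Con F) : s'.Con F := fun x' hx' u hu => by
  obtain ⟨x, hx, y, rfl, hy⟩ := h.cell x' hx'
  rw [mul_assoc, hF x hx _ (hy u (subset_closure hu)),
    hF x hx y (by simpa using hy 1 (subset_closure s'.one))]

theorem St.Ref.trans {s s' s'' : St H} (h : s.Ref s') (h' : s'.Ref s'') : s.Ref s'' where
  cell x'' hx'' := by
    obtain ⟨x', hx', y', rfl, hy'⟩ := h'.cell x'' hx''
    obtain ⟨x, hx, y, rfl, hy⟩ := h.cell x' hx'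
    exact ⟨x, hx, y * y', mul_assoc _ _ _, fun u hu => by
      rw [mul_assoc]; exact hy _ (subset_closure (hy' u hu))⟩
  int F hF := (h'.int F (h.con hF)).trans (h.int F hF)

theorem exists_st (T : MonoidAlgebra ℂ (PontryaginDual G)) (h1 : ∀ x ∈ T.coeff.support, x ∈ H)
    (h2 : integ T (fun _ => 1) = 1) {W : Set (PontryaginDual G)} (hW : W ∈ 𝓝 1) :
    ∃ s : St H, s.T = T ∧ closure s.U ⊆ W := by
  have h3 : ∀ᶠ p : PontryaginDual G × PontryaginDual G in 𝓝 (1, 1), ∀ x ∈ T.coeff.support,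
      ∀ y ∈ T.coeff.support, x * p.1 = y * p.2 → x = y :=
    (eventually_all_finset _).2 fun x _ => (eventually_all_finset _).2 fun y _ => by
      by_cases e : x = y
      · exact .of_forall fun _ _ => e
      · have : IsOpen {p : PontryaginDual G × PontryaginDual G | x * p.1 ≠ y * p.2} :=
          isOpen_ne_fun (by fun_prop) (by fun_prop)
        filter_upwards [this.mem_nhds (by simpa using e)] with p hp a using (hp a).elim
  obtain ⟨A, hA, B, hB, h4⟩ := mem_nhds_prod_iff.1 h3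
  obtain ⟨t, t1, t2, t3⟩ := exists_mem_nhds_isClosed_subset (inter_mem hW (inter_mem hA hB))
  refine ⟨⟨T, interior t, isOpen_interior, mem_interior_iff_mem_nhds.2 t1, h1,
    fun x hx y hy u hu v hv => h4 (Set.mk_mem_prod (t3 (interior_subset hu)).2.1
      (t3 (interior_subset hv)).2.2) x hx y hy, h2⟩, rfl, fun u hu => ?_⟩
  exact (t3 (closure_minimal interior_subset t2 hu)).1

theorem exists_shrink (s : St H) {W : Set (PontryaginDual G)} (hW : W ∈ 𝓝 1) :
    ∃ s' : St H, s.Ref s' ∧ s'.T = s.T ∧ s'.U ⊆ W := by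
  obtain ⟨s', h1, h2⟩ := exists_st s.T s.sub s.tot (inter_mem hW (s.opn.mem_nhds s.one))
  refine ⟨s', ⟨fun x hx => ⟨x, by rwa [St.P, h1] at hx, 1, (mul_one x).symm, fun u hu => ?_⟩,
    fun F _ => by rw [h1]⟩, h1, fun u hu => (h2 (subset_closure hu)).1⟩
  rw [one_mul]
  exact (h2 hu).2

theorem exists_local (s : St H) (g : G) {ε : ℝ} (hε : 0 < ε) : ∃ s' : St H, s.Ref s' ∧
    s'.T = s.T ∧ ∃ φ : L1 G, ‖φ - ch g‖ ≤ ε ∧ s'.Con (fourier φ) := by
  obtain ⟨φ, h1, h2⟩ := exists_loc ε hε g s.P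
  have h3 : ∀ᶠ u in 𝓝 (1 : PontryaginDual G), ∀ x ∈ s.P, fourier φ (x * u) = fourier φ x :=
    (eventually_all_finset _).2 fun x hx =>
      ((continuous_const_mul x).tendsto' 1 x (mul_one x)).eventually (h2 x hx)
  obtain ⟨s', a, b, c⟩ := exists_shrink s h3
  exact ⟨s', a, b, φ, h1, fun x hx u hu => c hu x (by rwa [St.P, b] at hx)⟩

theorem exists_one {n : ℕ} (hn : 0 < n) {ζ : Circle} (h1 : ζ ^ n = 1) (h2 : ζ ≠ 1)
    (hL : Lim H ζ) (s : St H) {ψ : PontryaginDual G → Bool} (hψ : s.Con ψ) {ε : ℝ} (hε : 0 < ε) :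
    ∃ s' : St H, s.Ref s' ∧ (∀ c, s.Bd c → s'.Bd (c + ε)) ∧ ∃ v w : L1 G, ‖v‖ ≤ 1 + ε ∧
      ‖w‖ ≤ 1 + ε ∧ s'.Con (fourier v) ∧ ‖integ s'.T (fourier v)‖ ≤ ε ∧ s'.Hold fun γ =>
        fourier w γ = (if ψ γ then (ζ : ℂ) else 1) * fourier v γ ∧ ‖fourier v γ - 1‖ ≤ ε := by
  classical
  have hm := mass_nonneg s.T
  obtain ⟨N, h, b1, b2, b3, b4⟩ := exists_block' hn h1 h2 hε
    (η := ε / (2 * mass s.T + 1)) (by positivity)
  have hη : mass s.T * (ε / (2 * mass s.T + 1)) ≤ ε / 2 := by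
    rw [mul_div_assoc', div_le_div_iff₀ (by positivity) two_pos]
    nlinarith
  obtain ⟨κ, hκ, hr⟩ := exists_root (G := G) hn ε hε
  obtain ⟨V, hV, hVU⟩ := exists_nhds_one_split (s.opn.mem_nhds s.one)
  obtain ⟨a, g, hag⟩ := exists_coord hL ζ.coe_ne_zero
    (((h true).coeff.support ∪ (h false).coeff.support).image Multiplicative.toAdd) hV s.P hκ
  choose r r1 r2 using fun c => hr (g c)
  let pm : ZZ N →* PontryaginDual G :=
    { toFun := fun k => ∏ c, a c ^ k.toAdd c
      map_one' := by simp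
      map_mul' := fun k l => by simp [zpow_add, Finset.prod_mul_distrib] }
  have hk : ∀ b, ∀ k ∈ (h b).coeff.support, pm k ∈ V ∧ pm k ∈ H ∧ ∀ x ∈ s.P, ∀ c,
      ‖evg (g c) (x * pm k) - (ζ : ℂ) ^ k.toAdd c‖ < κ := fun b k hb =>
    hag _ (Finset.mem_image_of_mem _ (by cases b <;> simp only [Finset.mem_union, hb, or_true,
      true_or]))
  let vv : Bool → L1 G := fun b => (N : ℂ)⁻¹ • ∑ j : Fin N, r (b, j)
  have nv : ∀ b, ‖vv b‖ ≤ 1 + ε := fun b => by
    have : ‖∑ j : Fin N, r (b, j)‖ ≤ N * (1 + ε) := (norm_sum_le _ _).trans (by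
      simpa [mul_add] using Finset.sum_le_card_nsmul Finset.univ (fun j : Fin N => ‖r (b, j)‖) (1 + ε)
        fun j _ => (norm_le_norm_add_norm_sub' _ (ch (g (b, j)))).trans
          (add_le_add (norm_ch _).le (r1 _)))
    simp only [vv]
    rw [norm_smul, norm_inv, Complex.norm_natCast]
    refine (mul_le_mul_of_nonneg_left this (by positivity)).trans ?_
    rw [← mul_assoc]
    exact mul_le_of_le_one_left (by positivity) inv_mul_le_one
  have hv : ∀ x ∈ s.P, ∀ b, ∀ k ∈ (h b).coeff.support, ∀ᶠ u in 𝓝 (1 : PontryaginDual G),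
      ∀ b', fourier (vv b') (x * pm k * u) = av ζ b' k := fun x hx b k hb => by
    have : ∀ᶠ u in 𝓝 (1 : PontryaginDual G), ∀ c,
        ‖evg (g c) (x * pm k * u) - (ζ : ℂ) ^ k.toAdd c‖ < κ := eventually_all.2 fun c =>
      ((((continuous_evg (g c)).comp (continuous_const_mul (x * pm k))).sub
        continuous_const).norm.continuousAt).eventually
        (gt_mem_nhds (by simpa only [Function.comp, mul_one, Pi.sub_apply] using (hk b k hb).2.2 x hx c))
    filter_upwards [this] with u hu b'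
    simp only [vv]
    rw [fourier_smul, fourier_sum, av]
    congr 1
    refine Finset.sum_congr rfl fun j _ => ?_
    rw [yc_apply]
    refine r2 _ _ _ ?_ (hu _)
    rw [← zpow_natCast, ← zpow_mul, mul_comm, zpow_mul, zpow_natCast, ← Circle.coe_pow, h1]
    simp
  let T' := step s.T fun x => MonoidAlgebra.lift ℂ (MonoidAlgebra ℂ (PontryaginDual G)) (ZZ N)
    ((MonoidAlgebra.of ℂ _).comp pm) (h (ψ x))
  have hT : ∀ F, integ T' F = integ s.T fun x => integ (h (ψ x)) fun k => F (x * pm k) :=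
    fun F => by simp only [T', integ_step, integ_map]
  have hS : ∀ p ∈ T'.coeff.support, ∃ x ∈ s.P, ∃ k ∈ (h (ψ x)).coeff.support, p = x * pm k :=
    fun p hp => mem_of_suppIn
      (S := {p | ∃ x ∈ s.P, ∃ k ∈ (h (ψ x)).coeff.support, p = x * pm k}) (fun F hF => by
        rw [hT]
        exact suppIn_self _ _ fun x hx => suppIn_self _ _ fun k hk => hF _ ⟨x, hx, k, hk, rfl⟩) hp
  have hW : ∀ᶠ u in 𝓝 (1 : PontryaginDual G), ∀ x ∈ s.P, ∀ k ∈ (h (ψ x)).coeff.support,
      ∀ b', fourier (vv b') (x * pm k * u) = av ζ b' k :=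
    (eventually_all_finset _).2 fun x hx => (eventually_all_finset _).2 (hv x hx _)
  have h0 := hW.self_of_nhds
  simp only [mul_one] at h0
  obtain ⟨s', e, hc⟩ := exists_st (H := H) T' (fun p hp => by
    obtain ⟨x, hx, k, a1, rfl⟩ := hS p hp
    exact H.mul_mem (s.sub x hx) (hk _ k a1).2.1) (by simp only [hT, b2, s.tot]) (inter_mem hV hW)
  have hP : ∀ p ∈ s'.P, ∃ x ∈ s.P, ∃ k ∈ (h (ψ x)).coeff.support, p = x * pm k := fun p hp =>
    hS p (by rwa [St.P, e] at hp)
  refine ⟨s', ⟨fun p hp => ?_, fun F hF => ?_⟩, fun c hb f => ?_, vv false, vv true, nv _, nv _,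
    fun p hp u hu => ?_, ?_, fun p hp u hu => ?_⟩
  · obtain ⟨x, hx, k, a1, rfl⟩ := hP p hp
    exact ⟨x, hx, _, rfl, fun u hu => hVU _ (hk _ k a1).1 _ (hc hu).1⟩
  · rw [e, hT]
    refine (suppIn_self _).congr fun x hx => ?_
    have : ∀ k ∈ (h (ψ x)).coeff.support, F (x * pm k) = F x * 1 := fun k a1 => by
      rw [mul_one]
      exact hF x hx _ (by simpa using hVU _ (hk _ k a1).1 1 (mem_of_mem_nhds hV))
    rw [(suppIn_self _).congr (F := fun k => F (x * pm k)) (F' := fun _ => F x * 1) this,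
      integ_const_mul, b2, mul_one]
  · have e1 : ∀ k, evg f (pm k) = xi (fun c => a c f) k := fun k => by
      change evg f (∏ c, a c ^ k.toAdd c) = _
      rw [map_prod, xi_apply]
      exact Finset.prod_congr rfl fun _ _ => map_zpow _ _ _
    have e2 : (fun x => integ (h (ψ x)) fun k => evg f (x * pm k)) =
        integ (h false) (xi fun c => a c f) • ⇑(evg f) + fun x => evg f x *
          (integ (h (ψ x)) (xi fun c => a c f) - integ (h false) (xi fun c => a c f)) := by
      funext x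
      simp only [map_mul, integ_const_mul, e1, Pi.add_apply, Pi.smul_apply, smul_eq_mul]
      ring
    have a1 := norm_integ_le s.T (fun x => evg f x * (integ (h (ψ x)) (xi fun c => a c f) -
        integ (h false) (xi fun c => a c f))) (ε / (2 * mass s.T + 1)) fun x => by
      rw [norm_mul, norm_evg, one_mul]
      cases ψ x
      · rw [sub_self, norm_zero]
        positivity
      · exact (b3 _).1
    have a2 := norm_integ_le s.T (evg f) 1 fun x => (norm_evg _ _).le
    have a3 := mul_le_mul_of_nonneg_right (b3 fun c => a c f).2 (norm_nonneg (integ s.T (evg f)))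
    have a4 := mul_le_mul_of_nonneg_right a2 (show 0 ≤ ε / (2 * mass s.T + 1) by positivity)
    rw [e, hT, e2, map_add, map_smul]
    refine (norm_add_le _ _).trans ?_
    rw [norm_smul]
    nlinarith [hb f]
  · obtain ⟨x, hx, k, a1, rfl⟩ := hP p hp
    rw [(hc (subset_closure hu)).2 x hx k a1, h0 x hx k a1]
  · rw [e, hT]
    refine ((suppIn_self _).norm_le _ _ (by positivity) fun x hx => ?_).trans
      (hη.trans (by linarith))
    rw [(suppIn_self _).congr (F' := av ζ false) fun k a1 => h0 x hx k a1 false]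
    exact b4 _
  · obtain ⟨x, hx, k, a1, rfl⟩ := hP p hp
    have a2 := (hc (subset_closure hu)).2 x hx k a1
    have a3 : ψ (x * pm k * u) = ψ x := by
      rw [mul_assoc]
      exact hψ x hx _ (hVU _ (hk _ k a1).1 _ (hc (subset_closure hu)).1)
    simp only [a2, a3]
    exact mem_of_suppIn (b1 _) a1

theorem exists_multi {n : ℕ} (hn : 0 < n) {ζ : Circle} (h1 : ζ ^ n = 1) (h2 : ζ ≠ 1)
    (hL : Lim H ζ) (s : St H) (l : List (PontryaginDual G → Bool)) (hl : ∀ ψ ∈ l, s.Con ψ)
    {ε : ℝ} (hε : 0 < ε) (hε1 : ε ≤ 1) :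
    ∃ s' : St H, s.Ref s' ∧ (∀ c, s.Bd c → s'.Bd (c + ε)) ∧ ∃ u : L1 G, ‖u‖ ≤ 1 + ε ∧
      (s'.Hold fun γ => ‖fourier u γ - 1‖ ≤ ε) ∧ ∀ ψ ∈ l, ∃ a : L1 G, ‖a‖ ≤ 1 + ε ∧
        s'.Hold fun γ => fourier a γ = (if ψ γ then (ζ : ℂ) else 1) * fourier u γ := by
  induction l generalizing ε with
  | nil =>
    obtain ⟨s', a, b, -⟩ := exists_shrink s univ_mem
    exact ⟨s', a, fun c hc g => by rw [b]; linarith [hc g], 1, by simpa using hε.le,
      fun x _ u _ => by simpa [fourier_one] using hε.le, by simp⟩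
  | cons ψ l ih =>
    obtain ⟨s', a1, a2, u, a3, a4, a5⟩ := ih (fun φ h => hl φ (List.mem_cons_of_mem _ h))
      (ε := ε / 3) (by positivity) (by linarith)
    obtain ⟨s'', b1, b2, v, w, b3, b4, -, -, b5⟩ := exists_one hn h1 h2 hL s'
      (a1.con (hl ψ List.mem_cons_self)) (ε := ε / 3) (by positivity)
    have e : (1 + ε / 3) * (1 + ε / 3) ≤ 1 + ε := by nlinarith
    refine ⟨s'', a1.trans b1, fun c hc g => by linarith [b2 _ (a2 c hc) g], u * v,
      (norm_mul_le_of_le a3 b3).trans e, fun x hx y hy => ?_, ?_⟩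
    · have c1 := norm_mul_le_of_le ((norm_fourier_le u (x * y)).trans a3) (b5 x hx y hy).2
      have c2 : ‖fourier u (x * y) - 1‖ ≤ ε / 3 := b1.hold a4 x hx y hy
      have c3 : fourier (u * v) (x * y) - 1 =
          fourier u (x * y) * (fourier v (x * y) - 1) + (fourier u (x * y) - 1) := by
        rw [fourier_mul]
        ring
      dsimp only
      rw [c3]
      refine (norm_add_le _ _).trans ?_
      nlinarith
    · simp only [List.forall_mem_cons]
      refine ⟨⟨u * w, (norm_mul_le_of_le a3 b4).trans e, fun x hx y hy => ?_⟩, fun φ h => ?_⟩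
      · simp only [fourier_mul, (b5 x hx y hy).1, mul_left_comm]
      · obtain ⟨a, c1, c2⟩ := a5 φ h
        refine ⟨a * v, (norm_mul_le_of_le c1 b3).trans e, fun x hx y hy => ?_⟩
        have : fourier a (x * y) = _ := b1.hold c2 x hx y hy
        simp only [fourier_mul, this, mul_assoc]

theorem exists_step {n : ℕ} (hn : 0 < n) {ζ : Circle} (h1 : ζ ^ n = 1) (h2 : ζ ≠ 1)
    (hL : Lim H ζ) (s : St H) (g : G) {ε : ℝ} (hε : 0 < ε) (hε1 : ε ≤ 1) :
    ∃ s' : St H, s.Ref s' ∧ (∀ c, s.Bd c → s'.Bd (c + ε)) ∧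
      (∃ φ : L1 G, ‖φ - ch g‖ ≤ ε ∧ s'.Con (fourier φ)) ∧ ∃ u : L1 G, ‖u‖ ≤ 2 ∧
      (s'.Hold fun γ => ‖fourier u γ - 1‖ ≤ ε) ∧ ∀ c : PontryaginDual G → ℝ,
        (∀ x ∈ s.P, |c x| ≤ 1) → ∃ a : L1 G, ‖a‖ ≤ 2 + ‖2 / ((ζ : ℂ) - 1)‖ * 4 ∧
          s'.Hold fun γ => ∀ x ∈ s.P, ∀ y ∈ s.U, γ = x * y → fourier a γ = c x * fourier u γ := by
  classical
  let ψ : Finset (PontryaginDual G) → PontryaginDual G → Bool := fun S γ =>
    decide (∃ x ∈ S, ∃ y ∈ s.U, γ = x * y)
  have hψ : ∀ S ⊆ s.P, ∀ x ∈ s.P, ∀ y ∈ s.U, ψ S (x * y) = decide (x ∈ S) := fun S hS x hx y hy =>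
    decide_eq_decide.2 ⟨fun ⟨x', a, y', b, e⟩ => s.sep x hx x' (hS a) y hy y' b e ▸ a,
      fun a => ⟨x, a, y, hy, rfl⟩⟩
  obtain ⟨s', a1, a2, u, a3, a4, a5⟩ := exists_multi hn h1 h2 hL s (s.P.powerset.toList.map ψ)
    (fun φ h => by
      obtain ⟨S, hS, rfl⟩ := List.mem_map.1 h
      have hS' := Finset.mem_powerset.1 (Finset.mem_toList.1 hS)
      intro x hx y hy
      rw [hψ S hS' x hx y hy, ← hψ S hS' x hx 1 s.one, mul_one]) hε hε1
  obtain ⟨s'', b1, b2, b3⟩ := exists_local s' g hε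
  refine ⟨s'', a1.trans b1, fun c hc f => b2 ▸ a2 c hc f, b3, u, by linarith, b1.hold a4, ?_⟩
  refine cube_convex s.P _ ?_ fun c hc => ?_
  · rintro c c' t t0 t1 ⟨a, ha, hac⟩ ⟨a', ha', hac'⟩
    refine ⟨(t : ℂ) • a + ((1 - t : ℝ) : ℂ) • a', (norm_add_le _ _).trans ?_,
      fun p hp v hv x hx y hy e => ?_⟩
    · rw [norm_smul, norm_smul, Complex.norm_real, Complex.norm_real, Real.norm_of_nonneg t0,
        Real.norm_of_nonneg (sub_nonneg.2 t1)]
      nlinarith
    · rw [fourier_add, fourier_smul, fourier_smul, hac p hp v hv x hx y hy e,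
        hac' p hp v hv x hx y hy e]
      push_cast
      ring
  · obtain ⟨a, c1, c2⟩ := a5 (ψ (s.P.filter fun x => c x = -1)) (List.mem_map_of_mem
      (Finset.mem_toList.2 (Finset.mem_powerset.2 (Finset.filter_subset _ _))))
    refine ⟨u - (2 / ((ζ : ℂ) - 1)) • (a - u), (norm_sub_le _ _).trans ?_,
      fun p hp v hv x hx y hy e => ?_⟩
    · rw [norm_smul]
      have := norm_sub_le a u
      gcongr <;> linarith
    · have c3 : fourier a (p * v) = _ := b1.hold c2 p hp v hv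
      have c4 : (ζ : ℂ) - 1 ≠ 0 := sub_ne_zero.2 fun e => h2 (Circle.ext e)
      rw [fourier_sub, fourier_smul, fourier_sub, c3, e,
        hψ _ (Finset.filter_subset _ _) x hx y hy]
      rcases hc x hx with d | d
      · have : ¬ (1 : ℝ) = -1 := by norm_num
        simp [d, this]
      · simp only [Finset.mem_filter, hx, d, and_self, decide_true, if_true]
        push_cast
        field_simp
        ring

end Pool.Agent.P.MP_bf3635_an.Ev
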