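import Pool.Agent.P.MP_bf3635_an.GRound

/-! Almost independent coordinates in the dual of an infinite discrete abelian group. -/

open Filter Topology

set_option linter.unusedSectionVars false

noncomputable section

namespace Pool.Agent.P.MP_bf3635_an.Ev

open Complex
open scoped Real

theorem exists_theta : ∃ θ : AddCircle (1 : ℚ) → Circle, (∀ x y, θ (x + y) = θ x * θ y) ∧
    θ 0 = 1 ∧ ∀ x, θ x = 1 → x = 0 := by
  let m : AddCircle (1 : ℚ) →+ AddCircle (1 : ℝ) :=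
    QuotientAddGroup.map _ _ (Rat.castHom ℝ).toAddMonoidHom (by
      rintro _ ⟨k, rfl⟩
      exact ⟨k, by simp⟩)
  refine ⟨fun x => AddCircle.toCircle (m x), fun x y => by
    simp only [map_add, AddCircle.toCircle_add],
    by simp, fun x hx => ?_⟩
  obtain ⟨x, rfl⟩ := QuotientAddGroup.mk_surjective x
  have h1 : m x = 0 := AddCircle.injective_toCircle one_ne_zero (by simpa using hx)
  obtain ⟨k, hk⟩ := (AddCircle.coe_eq_zero_iff (1 : ℝ) (x := (x : ℝ))).1 h1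
  refine (AddCircle.coe_eq_zero_iff (1 : ℚ)).2 ⟨k, ?_⟩
  simp only [zsmul_eq_mul, mul_one] at hk ⊢
  exact_mod_cast hk

theorem exists_quot (A : Type) [AddCommGroup A] (M : ℕ → A) (hM : Function.Injective M) :
    ∃ (D : Type) (_ : AddCommGroup D) (_ : Countable D) (Φ : A →+ D),
      Function.Injective fun i => Φ (M i) := by
  let φ : (ℕ →₀ ℤ) →+ A := (Finsupp.linearCombination ℤ M).toAddMonoidHom
  let ι : (ℕ →₀ ℤ) →+ (ℕ →₀ ℚ) := Finsupp.mapRange.addMonoidHom (Int.castAddHom ℚ)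
  have hι : Function.Injective ι := Finsupp.mapRange_injective _ (by simp) Int.cast_injective
  let D := (ℕ →₀ ℚ) ⧸ φ.ker.map ι
  let : DivisibleBy D ℤ := divisibleByOfSMulRightSurj D ℤ fun {n} hn x => by
    obtain ⟨x, rfl⟩ := QuotientAddGroup.mk_surjective x
    refine ⟨QuotientAddGroup.mk ((n : ℚ)⁻¹ • x), ?_⟩
    have : (n : ℚ) ≠ 0 := by exact_mod_cast hn
    refine (map_zsmul (QuotientAddGroup.mk' (φ.ker.map ι)) n _).symm.trans (congrArg _ ?_)
    rw [← Int.cast_smul_eq_zsmul ℚ, smul_smul, mul_inv_cancel₀ this, one_smul]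
  obtain ⟨Φ, hΦ⟩ := (Module.Baer.of_divisible D).extension_property_addMonoidHom
    (QuotientAddGroup.kerLift φ) (QuotientAddGroup.kerLift_injective φ)
    (QuotientAddGroup.map φ.ker (φ.ker.map ι) ι (AddSubgroup.le_comap_map _ _))
  have h1 : ∀ x, Φ (φ x) = QuotientAddGroup.mk (ι x) := fun x =>
    DFunLike.congr_fun hΦ (QuotientAddGroup.mk x)
  have h2 : ∀ i, M i = φ (Finsupp.single i 1) := fun i => by simp [φ]
  refine ⟨D, inferInstance, QuotientAddGroup.mk_surjective.countable, Φ, fun i j e => hM ?_⟩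
  simp only [h2, h1] at e
  obtain ⟨y, hy, e2⟩ := QuotientAddGroup.eq.1 e
  rw [← map_neg, ← map_add] at e2
  rw [hι e2, SetLike.mem_coe, AddMonoidHom.mem_ker, map_add, map_neg, neg_add_eq_zero] at hy
  rw [h2, h2, hy]

variable {G : Type} [CommGroup G] [TopologicalSpace G] [DiscreteTopology G]

theorem exists_setup [Infinite G] : ∃ (H : Subgroup (PontryaginDual G)) (χ M : ℕ → G),
    IsClosed (H : Set (PontryaginDual G)) ∧ (∀ g, ∃ i, ∀ γ ∈ H, evg g γ = evg (χ i) γ) ∧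
      ∀ i j, i ≠ j → ∃ γ ∈ H, evg (M i) γ ≠ evg (M j) γ := by
  obtain ⟨D, _, _, Φ, hΦ⟩ := exists_quot (Additive G) _ (Infinite.natEmbedding _).injective
  obtain ⟨θ, h1, h2, h3⟩ := exists_theta
  obtain ⟨e, he⟩ := exists_surjective_nat Φ.range
  choose χ hχ using fun i => (e i).2
  let H : Subgroup (PontryaginDual G) :=
    { carrier := {γ | ∀ g : G, Φ (Additive.ofMul g) = 0 → evg g γ = 1}
      one_mem' := fun g _ => map_one _
      mul_mem' := fun ha hb g hg => by rw [map_mul, ha g hg, hb g hg, one_mul]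
      inv_mem' := fun ha g hg => by rw [map_inv, ha g hg, inv_one] }
  refine ⟨H, fun i => (χ i).toMul, fun i => (Infinite.natEmbedding (Additive G) i).toMul, ?_,
    fun g => ?_, fun i j hij => ?_⟩
  · change IsClosed {γ | ∀ g : G, Φ (Additive.ofMul g) = 0 → evg g γ = 1}
    simp only [Set.ofPred_forall]
    exact isClosed_iInter fun g => isClosed_iInter fun _ =>
      isClosed_eq (continuous_evg g) continuous_const
  · obtain ⟨i, hi⟩ := he ⟨_, Additive.ofMul g, rfl⟩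
    refine ⟨i, fun γ hγ => ?_⟩
    have := hγ (g * (χ i).toMul⁻¹) (by simp [hχ, hi])
    rw [← inv_mul_cancel_right g (χ i).toMul, evg_mul, this, one_mul]
  · obtain ⟨c, hc⟩ := CharacterModule.exists_character_apply_ne_zero_of_ne_zero
      (sub_ne_zero.2 (hΦ.ne hij))
    let γ : PontryaginDual G :=
      { toFun := fun g => θ (c (Φ (Additive.ofMul g)))
        map_one' := by simp [h2]
        map_mul' := fun g h => by simp [h1]
        continuous_toFun := continuous_of_discreteTopology }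
    have e1 : ∀ g, evg g γ = θ (c (Φ (Additive.ofMul g))) := fun _ => rfl
    refine ⟨γ, fun g hg => by rw [e1, hg, map_zero, h2]; rfl, fun e2 => hc (h3 _ ?_)⟩
    rw [e1, e1, Circle.coe_inj, ofMul_toMul, ofMul_toMul] at e2
    have e3 := h1 (c (Φ (Infinite.natEmbedding _ i) - Φ (Infinite.natEmbedding _ j)))
      (c (Φ (Infinite.natEmbedding _ j)))
    rw [← map_add, sub_add_cancel, e2] at e3
    exact right_eq_mul.1 e3

/-- `ω` is a limit of values of characters trivial near a finite set at points near the origin -/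
def Lim (H : Subgroup (PontryaginDual G)) (ω : ℂ) : Prop :=
  ∀ V ∈ 𝓝 (1 : PontryaginDual G), ∀ S : Finset (PontryaginDual G), ∀ κ > 0, ∃ a ∈ V, a ∈ H ∧
    ∃ g : G, (∀ s ∈ S, ‖evg g s - 1‖ < κ) ∧ ‖evg g a - ω‖ < κ

variable {H : Subgroup (PontryaginDual G)}

theorem isClosed_lim : IsClosed {ω | Lim H ω} := by
  refine isClosed_of_closure_subset fun ω hω V hV S κ hκ => ?_
  obtain ⟨z, hz, hd⟩ := Metric.mem_closure_iff.1 hω (κ / 2) (by positivity)
  obtain ⟨a, h1, h2, g, h3, h4⟩ := hz V hV S (κ / 2) (by positivity)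
  refine ⟨a, h1, h2, g, fun s hs => (h3 s hs).trans (by linarith), ?_⟩
  rw [← dist_eq_norm] at h4 ⊢
  linarith [dist_triangle_right (evg g a) ω z]

theorem Lim.zpow {ω : ℂ} (h : Lim H ω) (h0 : ω ≠ 0) (k : ℤ) : Lim H (ω ^ k) := by
  intro V hV S κ hκ
  obtain ⟨δ, hδ, h1⟩ := Metric.continuousAt_iff.1 (continuousAt_zpow₀ ω k (Or.inl h0)) κ hκ
  obtain ⟨a, h2, h3, g, h4, h5⟩ := h ((· ^ k) ⁻¹' V)
    ((continuous_zpow k).continuousAt.preimage_mem_nhds (by simpa using hV)) S (min κ δ)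
    (lt_min hκ hδ)
  refine ⟨a ^ k, h2, H.zpow_mem h3 k, g, fun s hs => (h4 s hs).trans_le (min_le_left _ _), ?_⟩
  rw [map_zpow, ← dist_eq_norm]
  exact h1 (by rw [dist_eq_norm]; exact h5.trans_le (min_le_right _ _))

theorem exists_lim (hH : IsClosed (H : Set (PontryaginDual G))) {M : ℕ → G}
    (hM : ∀ i j, i ≠ j → ∃ γ ∈ H, evg (M i) γ ≠ evg (M j) γ) :
    ∃ ω, ‖ω‖ = 1 ∧ ω ≠ 1 ∧ Lim H ω := by
  by_contra! hc
  have hD : IsCompact (Metric.sphere (0 : ℂ) 1 ∩ {ω | 1 / 2 ≤ ‖ω - 1‖}) :=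
    (isCompact_sphere 0 1).inter_right (isClosed_le continuous_const (by fun_prop))
  obtain ⟨V, hV, S, κ, hκ, h⟩ := hD.induction_on (p := fun D => ∃ V ∈ 𝓝 (1 : PontryaginDual G),
      ∃ S : Finset (PontryaginDual G), ∃ κ > 0, ∀ a ∈ V, a ∈ H → ∀ g : G,
        (∀ s ∈ S, ‖evg g s - 1‖ < κ) → evg g a ∉ D)
    ⟨_, univ_mem, ∅, 1, one_pos, fun _ _ _ _ _ => id⟩
    (fun _ _ hs ⟨V, hV, S, κ, hκ, h⟩ => ⟨V, hV, S, κ, hκ, fun a a1 a2 g a3 a4 =>
      h a a1 a2 g a3 (hs a4)⟩)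
    (by
      classical
      rintro _ _ ⟨V, hV, S, κ, hκ, h⟩ ⟨V', hV', S', κ', hκ', h'⟩
      refine ⟨V ∩ V', inter_mem hV hV', S ∪ S', min κ κ', lt_min hκ hκ', fun a a1 a2 g a3 a4 => ?_⟩
      exact a4.elim
        (h a a1.1 a2 g fun s hs => (a3 s (by simp [hs])).trans_le (min_le_left _ _))
        (h' a a1.2 a2 g fun s hs => (a3 s (by simp [hs])).trans_le (min_le_right _ _)))
    (by
      rintro ω ⟨h1, h2⟩
      have := hc ω (by simpa using h1) (by rintro rfl; norm_num at h2)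
      simp only [Lim, not_forall, not_exists, not_and] at this
      obtain ⟨V, hV, S, κ, hκ, h⟩ := this
      exact ⟨Metric.ball ω κ, mem_nhdsWithin_of_mem_nhds (Metric.ball_mem_nhds _ hκ), V, hV, S, κ,
        hκ, fun a a1 a2 g a3 a4 => h a a1 a2 g a3 (by rwa [← dist_eq_norm])⟩)
  classical
  obtain ⟨t, ht1, ht2⟩ := hH.isCompact.elim_nhds_subcover (fun x => (x⁻¹ * ·) ⁻¹' V) fun x _ =>
    (continuous_const_mul _).continuousAt.preimage_mem_nhds (by simpa using hV)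
  obtain ⟨u, φ, hφ, hu⟩ := CompactSpace.tendsto_subseq fun i (s : ↥(S ∪ t)) => s.1 (M i)
  obtain ⟨N, hN⟩ := Metric.cauchySeq_iff'.1 hu.cauchySeq (min κ (1 / 2)) (lt_min hκ one_half_pos)
  obtain ⟨γ, hγ, hne⟩ := hM (φ (N + 1)) (φ N) (hφ (by omega)).ne'
  set g := M (φ (N + 1)) * (M (φ N))⁻¹
  have e : ∀ s, evg (M (φ (N + 1))) s = evg g s * evg (M (φ N)) s := fun s => by
    rw [← evg_mul, inv_mul_cancel_right]
  have h1 : ∀ s ∈ S ∪ t, ‖evg g s - 1‖ < min κ (1 / 2) := fun s hs => by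
    have := (dist_le_pi_dist _ _ (⟨s, hs⟩ : ↥(S ∪ t))).trans_lt (hN (N + 1) (by omega))
    change dist (evg (M (φ (N + 1))) s) (evg (M (φ N)) s) < _ at this
    rwa [dist_eq_norm, e, ← sub_one_mul, norm_mul, norm_evg, mul_one] at this
  have h2 : ∀ x ∈ H, 0 < (evg g x).re := fun x hx => by
    obtain ⟨y, hy, hxy⟩ := Set.mem_iUnion₂.1 (ht2 hx)
    have a1 := h _ hxy (H.mul_mem (H.inv_mem (ht1 y hy)) hx) g fun s hs =>
      (h1 s (by simp [hs])).trans_le (min_le_left _ _)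
    have a2 := (h1 y (by simp [hy])).trans_le (min_le_right _ _)
    have a3 : ‖evg g (y⁻¹ * x) - 1‖ < 1 / 2 := not_le.1 fun a => a1 ⟨by simp [norm_evg], a⟩
    have a4 : evg g x - 1 = evg g y * (evg g (y⁻¹ * x) - 1) + (evg g y - 1) := by
      rw [mul_sub, ← map_mul, mul_inv_cancel_left]
      ring
    have a5 := norm_add_le (evg g y * (evg g (y⁻¹ * x) - 1)) (evg g y - 1)
    rw [← a4, norm_mul, norm_evg] at a5
    have a6 := abs_le.1 (abs_re_le_norm (evg g x - 1))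
    simp only [sub_re, one_re] at a6
    linarith
  have h3 : γ g = 1 := Circle.eq_one_of_forall_pow_mem_centeredArc_pi_div_two fun n _ => by
    rw [Circle.mem_centeredArc (by linarith [Real.pi_pos]), abs_arg_lt_pi_div_two_iff]
    left
    have := h2 _ (H.pow_mem hγ n)
    rwa [map_pow] at this
  exact hne (by rw [e, evg_apply g, h3]; simp)

theorem exists_zeta (hH : IsClosed (H : Set (PontryaginDual G))) {M : ℕ → G}
    (hM : ∀ i j, i ≠ j → ∃ γ ∈ H, evg (M i) γ ≠ evg (M j) γ) :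
    ∃ (n : ℕ) (ζ : ℂ), 0 < n ∧ ζ ^ n = 1 ∧ ζ ≠ 1 ∧ Lim H ζ := by
  obtain ⟨ω, h1, h2, h3⟩ := exists_lim hH hM
  have h0 : ω ≠ 0 := by rintro rfl; simp at h1
  let B : AddSubgroup ℝ :=
    { carrier := {x | ∃ k : ℤ, cexp (x * I) = ω ^ k}
      zero_mem' := ⟨0, by simp⟩
      add_mem' := by
        rintro x y ⟨k, hk⟩ ⟨l, hl⟩
        exact ⟨k + l, by rw [zpow_add₀ h0, ← hk, ← hl, ← Complex.exp_add, ofReal_add, add_mul]⟩
      neg_mem' := by
        rintro x ⟨k, hk⟩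
        exact ⟨-k, by rw [zpow_neg, ← hk, ← Complex.exp_neg, ofReal_neg, neg_mul]⟩ }
  have hB : ∀ x ∈ B, Lim H (cexp (x * I)) := by
    rintro x ⟨k, hk⟩
    exact hk ▸ h3.zpow h0 k
  rcases B.dense_or_cyclic with h | ⟨r, hr⟩
  · refine ⟨2, -1, two_pos, by simp, by norm_num, ?_⟩
    rw [← exp_pi_mul_I]
    exact (isClosed_lim.preimage (f := fun x : ℝ => cexp (x * I)) (by fun_prop)).closure_subset_iff.2
      hB (h π)
  · have a1 : arg ω ∈ B := ⟨1, by simpa [h1] using norm_mul_exp_arg_mul_I ω⟩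
    have a2 : 2 * π ∈ B := ⟨0, by simp⟩
    have a3 : r ∈ B := hr ▸ AddSubgroup.subset_closure rfl
    rw [hr, AddSubgroup.mem_closure_singleton] at a1 a2
    obtain ⟨k, hk⟩ := a1
    obtain ⟨l, hl⟩ := a2
    have e : ∀ j : ℤ, cexp (((j • r : ℝ) : ℂ) * I) = cexp (r * I) ^ j := fun j => by
      rw [← exp_int_mul, zsmul_eq_mul]
      push_cast
      rw [mul_assoc]
    have l0 : l ≠ 0 := by
      rintro rfl
      simp at hl
    refine ⟨l.natAbs, cexp (r * I), Int.natAbs_pos.2 l0, ?_, fun a => h2 ?_, hB r a3⟩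
    · have : cexp (r * I) ^ l = 1 := by rw [← e, hl]; simp
      rw [← zpow_natCast]
      rcases Int.natAbs_eq l with a | a
      · rwa [← a]
      · rw [← neg_neg (l.natAbs : ℤ), ← a, zpow_neg, this, inv_one]
    · have := norm_mul_exp_arg_mul_I ω
      rw [h1, ← hk, e, a] at this
      simpa using this.symm

theorem exists_coord0 {ζ : ℂ} (h : Lim H ζ) {ι : Type} [DecidableEq ι] (I : Finset ι)
    {V : Set (PontryaginDual G)} (hV : V ∈ 𝓝 1) (S : Finset (PontryaginDual G)) {κ : ℝ}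
    (hκ : 0 < κ) : ∃ (a : ι → PontryaginDual G) (g : ι → G), ∀ c ∈ I, a c ∈ V ∧ a c ∈ H ∧
      (∀ s ∈ S, ‖evg (g c) s - 1‖ < κ) ∧
      ∀ c' ∈ I, ‖evg (g c) (a c') - if c' = c then ζ else 1‖ < κ := by
  classical
  induction I using Finset.induction_on with
  | empty => exact ⟨1, 1, by simp⟩
  | insert d I hd ih =>
    obtain ⟨a, g, ih⟩ := ih
    have hV' : ∀ᶠ γ in 𝓝 (1 : PontryaginDual G), ∀ c ∈ I, ‖evg (g c) γ - 1‖ < κ :=
      (eventually_all_finset I).2 fun c _ =>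
        (((continuous_evg (g c)).sub continuous_const).norm.continuousAt).eventually
          (gt_mem_nhds (by simpa using hκ))
    obtain ⟨b, b1, b2, f, b3, b4⟩ := h _ (inter_mem hV hV') (S ∪ I.image a) κ hκ
    have ne : ∀ c ∈ I, c ≠ d := fun c hc e => hd (e ▸ hc)
    refine ⟨Function.update a d b, Function.update g d f, ?_⟩
    simp only [Finset.forall_mem_insert, Function.update_self, if_true]
    refine ⟨⟨b1.1, b2, fun s hs => b3 s (by simp [hs]), b4, fun c hc => ?_⟩, fun c hc => ?_⟩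
    · rw [Function.update_of_ne (ne c hc), if_neg (ne c hc)]
      exact b3 _ (Finset.mem_union_right _ (Finset.mem_image_of_mem _ hc))
    · rw [Function.update_of_ne (ne c hc), Function.update_of_ne (ne c hc), if_neg (ne c hc).symm]
      refine ⟨(ih c hc).1, (ih c hc).2.1, (ih c hc).2.2.1, b1.2 c hc, fun c' hc' => ?_⟩
      rw [Function.update_of_ne (ne c' hc')]
      exact (ih c hc).2.2.2 c' hc'

theorem exists_coord {ζ : ℂ} (h : Lim H ζ) (h0 : ζ ≠ 0) {ι : Type} [Fintype ι]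
    (Y : Finset (ι → ℤ)) {V : Set (PontryaginDual G)} (hV : V ∈ 𝓝 1)
    (S : Finset (PontryaginDual G)) {κ : ℝ} (hκ : 0 < κ) :
    ∃ (a : ι → PontryaginDual G) (g : ι → G), ∀ k ∈ Y, ∏ c, a c ^ k c ∈ V ∧ ∏ c, a c ^ k c ∈ H ∧
      ∀ x ∈ S, ∀ c, ‖evg (g c) (x * ∏ c, a c ^ k c) - ζ ^ k c‖ < κ := by
  classical
  have h1 : ∀ᶠ a in 𝓝 (1 : ι → PontryaginDual G), ∀ k ∈ Y, ∏ c, a c ^ k c ∈ V :=
    (eventually_all_finset Y).2 fun k _ => by
      have : Continuous fun a : ι → PontryaginDual G => ∏ c, a c ^ k c := by fun_prop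
      exact this.continuousAt.preimage_mem_nhds (by simpa using hV)
  rw [nhds_pi, Filter.Eventually, mem_pi] at h1
  obtain ⟨J, -, t, ht, h1⟩ := h1
  have h2 : ∀ᶠ δ in 𝓝[>] (0 : ℝ), ∀ k ∈ Y, ∀ c, ∀ (u : ℂ) (m : ι → ℂ), ‖u - 1‖ < δ →
      (∀ c', ‖m c' - if c' = c then ζ else 1‖ < δ) → ‖u * ∏ c', m c' ^ k c' - ζ ^ k c‖ < κ := by
    refine (eventually_all_finset Y).2 fun k _ => eventually_all.2 fun c => ?_
    have hc : ContinuousAt (fun p : ℂ × (ι → ℂ) => p.1 * ∏ c', p.2 c' ^ k c')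
        (1, fun c' => if c' = c then ζ else 1) :=
      continuousAt_fst.mul (tendsto_finsetProd _ fun c' _ => ContinuousAt.zpow₀ (by fun_prop) _
        (Or.inl (by dsimp only; split_ifs <;> simp [h0])))
    obtain ⟨δ, hδ, h3⟩ := Metric.continuousAt_iff.1 hc κ hκ
    filter_upwards [Ioo_mem_nhdsGT hδ] with η hη u m hu hm
    have := h3 (x := (u, m)) (by
      rw [Prod.dist_eq, max_lt_iff, dist_pi_lt_iff hδ]
      simp only [dist_eq_norm]
      exact ⟨hu.trans hη.2, fun c' => (hm c').trans hη.2⟩)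
    simpa [dist_eq_norm] using this
  obtain ⟨δ, h3, h4⟩ := (h2.and self_mem_nhdsWithin).exists
  obtain ⟨a, g, h5⟩ := exists_coord0 h (Finset.univ : Finset ι)
    (iInter_mem.2 ht) S h4
  simp only [Finset.mem_univ, forall_const] at h5
  refine ⟨a, g, fun k hk => ⟨h1 (fun c _ => Set.mem_iInter.1 (h5 c).1 c) k hk,
    H.prod_mem fun c _ => H.zpow_mem (h5 c).2.1 _, fun x hx c => ?_⟩⟩
  simp only [map_mul, map_prod, map_zpow]
  exact h3 k hk c _ _ ((h5 c).2.2.1 x hx) (h5 c).2.2.2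

end Pool.Agent.P.MP_bf3635_an.Ev
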