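import Pool.Agent.P.MP_bf3635_an.Constr
import Pool.Agent.P.MP_bf3635_an.Amen

/-! The set `E` is a Helson set, fails synthesis, and `R_E` has a bounded approximate identity. -/

open Filter Topology

noncomputable section

namespace Pool.Agent.P.MP_bf3635_an

universe u

theorem norm_prod_sub_one_le {ι : Type*} (I : Finset ι) (z : ι → ℂ) (e : ι → ℝ)
    (h1 : ∀ i ∈ I, ‖z i‖ ≤ 1) (h2 : ∀ i ∈ I, ‖z i - 1‖ ≤ e i) :
    ‖∏ i ∈ I, z i - 1‖ ≤ ∑ i ∈ I, e i := by
  classical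
  induction I using Finset.induction_on with
  | empty => simp
  | insert a I ha ih =>
    rw [Finset.prod_insert ha, Finset.sum_insert ha]
    have h3 := ih (fun i hi => h1 i (Finset.mem_insert_of_mem hi))
      (fun i hi => h2 i (Finset.mem_insert_of_mem hi))
    have e1 : z a * ∏ i ∈ I, z i - 1 = (z a - 1) + z a * (∏ i ∈ I, z i - 1) := by ring
    rw [e1]
    refine (norm_add_le _ _).trans (add_le_add (h2 a (Finset.mem_insert_self _ _)) ?_)
    rw [norm_mul]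
    exact (mul_le_of_le_one_left (norm_nonneg _) (h1 a (Finset.mem_insert_self _ _))).trans h3

theorem sum_eps_le (I : Finset ℕ) (M : ℕ) (h : ∀ k ∈ I, M ≤ k) : ∑ k ∈ I, eps k ≤ 2 * eps M := by
  have h1 : I ⊆ Finset.Ico M (I.sup id + 1) := fun k hk =>
    Finset.mem_Ico.2 ⟨h k hk, Nat.lt_succ_of_le (Finset.le_sup (f := id) hk)⟩
  refine (Finset.sum_le_sum_of_subset_of_nonneg h1 fun k _ _ => (eps_pos k).le).trans ?_
  simp only [eps, ← Finset.sum_div]
  have := geom_sum_Ico_le_of_lt_one (x := (1 / 2 : ℝ)) (m := M) (n := I.sup id + 1)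
    (by norm_num) (by norm_num)
  have e : (1 / 2 : ℝ) ^ M / (1 - 1 / 2) = 2 * (1 / 2) ^ M := by ring
  rw [e] at this
  linarith

theorem exists_u0 (Λ : Finset Idx) (M : ℕ) : ∃ u : L1 G0, ‖u‖ ≤ 1 ∧
    (∀ γ ∈ EE, ‖fourier u γ - 1‖ ≤ 2 * eps M) ∧
    ∀ c : Finset Idx → ℝ, (∀ S ∈ Λ.powerset, |c S| ≤ 1) → ∃ a : L1 G0, ‖a‖ ≤ 1 ∧
      ∀ᶠ γ in 𝓝ˢ EE, fourier a γ = c (pat Λ γ) * fourier u γ := by
  classical
  choose k hk1 hk2 using fun P => psi_surj Λ P M
  let I : Finset ℕ := Λ.powerset.powerset.image k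
  have hprod : ∀ J : Finset ℕ, ‖∏ m ∈ J, (BB m).v‖ ≤ 1 := fun J =>
    (Finset.norm_prod_le _ _).trans
      (Finset.prod_le_one (fun _ _ => norm_nonneg _) fun m _ => (BB m).norm_v)
  refine ⟨∏ m ∈ I, (BB m).v, hprod I, fun γ hγ => ?_, ?_⟩
  · rw [fourier_prod]
    refine (norm_prod_sub_one_le I _ eps
      (fun m _ => (norm_fourier_le _ _).trans (BB m).norm_v)
      (fun m _ => (Set.mem_iInter.1 hγ m).2)).trans (sum_eps_le I M fun m hm => ?_)
    obtain ⟨P, -, rfl⟩ := Finset.mem_image.1 hm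
    exact hk1 P
  · refine cube_convex Λ.powerset _ ?_ ?_
    · rintro c c' t h0 h1 ⟨a, ha, hac⟩ ⟨a', ha', hac'⟩
      refine ⟨(t : ℂ) • a + ((1 - t : ℝ) : ℂ) • a', ?_, ?_⟩
      · refine (norm_add_le _ _).trans ?_
        rw [norm_smul, norm_smul, Complex.norm_real, Complex.norm_real, Real.norm_of_nonneg h0,
          Real.norm_of_nonneg (sub_nonneg.2 h1)]
        nlinarith
      · filter_upwards [hac, hac'] with γ e e'
        rw [fourier_add, fourier_smul, fourier_smul, e, e']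
        push_cast
        ring
    · intro c hc
      let P := Λ.powerset.filter fun S => c S = 1
      have hP : k P ∈ I :=
        Finset.mem_image_of_mem k (Finset.mem_powerset.2 (Finset.filter_subset _ _))
      refine ⟨(BB (k P)).w * ∏ m ∈ I.erase (k P), (BB m).v,
        (norm_mul_le_of_le (BB (k P)).norm_w (hprod _)).trans (by norm_num), ?_⟩
      filter_upwards [Cond_mem_nhdsSet (k P)] with γ hγ
      rw [← Finset.mul_prod_erase I (fun m => (BB m).v) hP, fourier_mul, fourier_mul, hγ.1,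
        mul_assoc]
      congr 1
      have hmem : pat Λ γ ∈ Λ.powerset := Finset.mem_powerset.2 (pat_subset _ _)
      have h2 := hk2 P γ
      simp only [P, Finset.mem_filter, hmem, true_and] at h2
      unfold sb
      split_ifs with h
      · rw [h2.1 h]
        simp
      · rcases hc _ hmem with e | e
        · exact (h (h2.2 e)).elim
        · rw [e]
          simp

/-- the Fourier transform only depends on the coordinates in `Λ` -/
def Fac (Λ : Finset Idx) (φ : L1 G0) : Prop :=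
  ∀ γ γ' : Γ0, (∀ i ∈ Λ, xc i γ = xc i γ') → fourier φ γ = fourier φ γ'

theorem Fac.mono {Λ Λ' : Finset Idx} {φ : L1 G0} (h : Fac Λ φ) (H : Λ ⊆ Λ') : Fac Λ' φ :=
  fun γ γ' hγ => h γ γ' fun i hi => hγ i (H hi)

theorem exists_fac (f : L1 G0) (θ : ℝ) (hθ : 0 < θ) : ∃ φ Λ, ‖f - φ‖ < θ ∧ Fac Λ φ := by
  classical
  let P : Submodule ℂ (L1 G0) :=
    { carrier := {φ | ∃ Λ, Fac Λ φ}
      zero_mem' := ⟨∅, fun γ γ' _ => by rw [fourier_zero, fourier_zero]⟩
      add_mem' := by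
        rintro a b ⟨Λ, ha⟩ ⟨Λ', hb⟩
        refine ⟨Λ ∪ Λ', fun γ γ' h => ?_⟩
        rw [fourier_add, fourier_add, ha.mono Finset.subset_union_left γ γ' h,
          hb.mono Finset.subset_union_right γ γ' h]
      smul_mem' := by
        rintro c a ⟨Λ, ha⟩
        exact ⟨Λ, fun γ γ' h => by rw [fourier_smul, fourier_smul, ha γ γ' h]⟩ }
  have h := L1.dense_delta P.topologicalClosure P.isClosed_topologicalClosure fun g =>
    P.le_topologicalClosure ⟨(co g).support, fun γ γ' h => by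
      rw [fourier_delta', evg_eq_prod, evg_eq_prod]
      exact Finset.prod_congr rfl h⟩
  have hf : f ∈ closure (P : Set (L1 G0)) := by
    have : f ∈ P.topologicalClosure := h ▸ Submodule.mem_top
    exact this
  obtain ⟨φ, ⟨Λ, hφ⟩, hd⟩ := Metric.mem_closure_iff.1 hf θ hθ
  exact ⟨φ, Λ, by rwa [dist_eq_norm] at hd, hφ⟩

theorem exists_u (Λ : Finset Idx) (M : ℕ) : ∃ u : L1 G0, ‖u‖ ≤ 1 ∧
    (∀ γ ∈ EE, ‖fourier u γ - 1‖ ≤ 2 * eps M) ∧
    ∀ φ : L1 G0, Fac Λ φ → ∀ ρ : ℝ, 0 < ρ → (∀ γ ∈ EE, ‖fourier φ γ‖ ≤ ρ) →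
      ∃ a : L1 G0, ‖a‖ ≤ 2 * ρ ∧ ∀ᶠ γ in 𝓝ˢ EE, fourier a γ = fourier φ γ * fourier u γ := by
  classical
  obtain ⟨u, hu1, hu2, hu3⟩ := exists_u0 Λ M
  refine ⟨u, hu1, hu2, fun φ hφ ρ hρ hb => ?_⟩
  let c : Finset Idx → ℂ := fun S =>
    if h : ∃ γ ∈ EE, pat Λ γ = S then fourier φ h.choose else 0
  have hc : ∀ S, ‖c S‖ ≤ ρ := by
    intro S
    simp only [c]
    split_ifs with h
    · exact hb _ h.choose_spec.1
    · simpa using hρ.le
  have hnear : ∀ᶠ γ in 𝓝ˢ EE, c (pat Λ γ) = fourier φ γ := by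
    have hO : IsOpen (pat Λ ⁻¹' {S | ∃ γ ∈ EE, pat Λ γ = S}) := lc_pat Λ _
    filter_upwards [hO.mem_nhdsSet.2 (fun γ hγ => ⟨γ, hγ, rfl⟩)] with γ h
    have h' : ∃ γ' ∈ EE, pat Λ γ' = pat Λ γ := h
    simp only [c, dif_pos h']
    exact hφ _ _ ((pat_eq_iff _ _ _).1 h'.choose_spec.2)
  obtain ⟨a1, ha1, h1⟩ := hu3 (fun S => (c S).re / ρ) fun S _ => by
    rw [abs_div, abs_of_pos hρ, div_le_one hρ]
    exact (Complex.abs_re_le_norm _).trans (hc S)
  obtain ⟨a2, ha2, h2⟩ := hu3 (fun S => (c S).im / ρ) fun S _ => by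
    rw [abs_div, abs_of_pos hρ, div_le_one hρ]
    exact (Complex.abs_im_le_norm _).trans (hc S)
  refine ⟨(ρ : ℂ) • (a1 + Complex.I • a2), ?_, ?_⟩
  · rw [norm_smul, Complex.norm_real, Real.norm_of_nonneg hρ.le, mul_comm]
    gcongr
    refine (norm_add_le _ _).trans ?_
    rw [norm_smul, Complex.norm_I]
    linarith
  · filter_upwards [hnear, h1, h2] with γ e e1 e2
    rw [fourier_smul, fourier_add, fourier_smul, e1, e2, ← e]
    have hρ' : (ρ : ℂ) ≠ 0 := by exact_mod_cast hρ.ne'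
    conv_rhs => rw [← Complex.re_add_im (c (pat Λ γ))]
    push_cast
    field_simp

theorem helson_step (f : L1 G0) (ρ : ℝ) (hρ : 0 < ρ) (hf : ∀ γ ∈ EE, ‖fourier f γ‖ ≤ ρ) :
    ∃ a : L1 G0, ‖a‖ ≤ 3 * ρ ∧ ∀ γ ∈ EE, ‖fourier (f - a) γ‖ ≤ ρ / 2 := by
  obtain ⟨φ, Λ, h1, h2⟩ := exists_fac f (ρ / 8) (by positivity)
  obtain ⟨u, -, hu2, hu3⟩ := exists_u Λ 0
  have h3 : ∀ γ, ‖fourier f γ - fourier φ γ‖ ≤ ρ / 8 := fun γ => by
    rw [← fourier_sub]
    exact (norm_fourier_le _ _).trans h1.le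
  have h4 : ∀ γ ∈ EE, ‖fourier φ γ‖ ≤ ρ + ρ / 8 := fun γ hγ => by
    have := norm_sub_le (fourier f γ) (fourier f γ - fourier φ γ)
    rw [sub_sub_cancel] at this
    linarith [hf γ hγ, h3 γ]
  obtain ⟨a, ha1, ha2⟩ := hu3 φ h2 (ρ + ρ / 8) (by positivity) h4
  refine ⟨a, by linarith, fun γ hγ => ?_⟩
  rw [fourier_sub, ha2.self_of_nhdsSet γ hγ]
  have e : fourier f γ - fourier φ γ * fourier u γ =
      (fourier f γ - fourier φ γ) - fourier φ γ * (fourier u γ - 1) := by ring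
  rw [e]
  refine (norm_sub_le _ _).trans ?_
  have h5 := norm_mul_le_of_le (h4 γ hγ) (hu2 γ hγ)
  have h6 : eps 0 = 1 / 32 := by simp [eps]
  rw [h6] at h5
  linarith [h3 γ]

theorem helson (f : L1 G0) (ρ : ℝ) (hρ : 0 < ρ) (hf : ∀ γ ∈ EE, ‖fourier f γ‖ ≤ ρ) :
    ∃ r : L1 G0, ‖r‖ ≤ 6 * ρ ∧ ∀ γ ∈ EE, fourier r γ = fourier f γ := by
  choose! A hA1 hA2 using helson_step
  let F : ℕ → L1 G0 := fun n => Nat.rec f (fun n x => x - A x (ρ / 2 ^ n)) n
  have hF : ∀ n, F (n + 1) = F n - A (F n) (ρ / 2 ^ n) := fun n => rfl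
  have h1 : ∀ n, ∀ γ ∈ EE, ‖fourier (F n) γ‖ ≤ ρ / 2 ^ n := by
    intro n
    induction n with
    | zero => simpa [F] using hf
    | succ n ih =>
      intro γ hγ
      rw [hF, pow_succ, ← div_div]
      exact hA2 _ _ (by positivity) ih γ hγ
  have h2 : ∀ n, ‖A (F n) (ρ / 2 ^ n)‖ ≤ 6 * ρ / 2 / 2 ^ n := fun n =>
    (hA1 _ _ (by positivity) (h1 n)).trans (le_of_eq (by ring))
  have hs := hasSum_geometric_two' (6 * ρ)
  have hsum : Summable fun n => A (F n) (ρ / 2 ^ n) := Summable.of_norm_bounded hs.summable h2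
  refine ⟨∑' n, A (F n) (ρ / 2 ^ n), tsum_of_norm_bounded hs h2, fun γ hγ => ?_⟩
  have h3 := (fourier_hasSum hsum.hasSum γ).tendsto_sum_nat
  have h4 : ∀ n, ∑ k ∈ Finset.range n, fourier (A (F k) (ρ / 2 ^ k)) γ =
      fourier f γ - fourier (F n) γ := by
    intro n
    induction n with
    | zero => simp [F]
    | succ n ih => rw [Finset.sum_range_succ, ih, hF, fourier_sub]; ring
  simp only [h4] at h3
  have h5 : Tendsto (fun n => fourier (F n) γ) atTop (𝓝 0) := by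
    refine squeeze_zero_norm (fun n => h1 n γ hγ) ?_
    exact tendsto_const_nhds.div_atTop (tendsto_pow_atTop_atTop_of_one_lt one_lt_two)
  have h6 := (tendsto_const_nhds (x := fourier f γ)).sub h5
  rw [sub_zero] at h6
  exact tendsto_nhds_unique h3 h6

theorem failsSynthesis_EE : FailsSynthesis fourierChar EE := by
  refine lt_of_le_of_ne (closure_idealJ_le fourierChar EE) fun h => ?_
  obtain ⟨r, hr1, hr2⟩ := helson (1 - (BB 0).v) (eps 0) (eps_pos 0) fun γ hγ => by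
    rw [fourier_sub, fourier_one, norm_sub_rev]
    exact (Set.mem_iInter.1 hγ 0).2
  have he : 1 - (BB 0).v - r ∈ idealI fourierChar EE := mem_idealI.2 fun γ hγ => by
    rw [fourier_sub, hr2 γ hγ, sub_self]
  rw [← h] at he
  obtain ⟨a, ⟨V, hV, ha⟩, hd⟩ := Metric.mem_closure_iff.1 he (1 / 4) (by norm_num)
  obtain ⟨m, hm⟩ := exists_subset_of_mem_nhdsSet hV
  have h1 : pairCLM (Tm (m + 1)) a = 0 :=
    suppIn_Tm (m + 1) _ fun γ hγ => ha γ (hm γ fun k hk => hγ.1 k (by omega))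
  have h2 : pairCLM (Tm (m + 1)) 1 = 1 := by
    rw [pairCLM_apply, show fourier (1 : L1 G0) = fun _ => 1 from funext fourier_one]
    exact Tm_one _
  have h3 : ‖pairCLM (Tm (m + 1)) (BB 0).v‖ ≤ 1 / 4 := norm_Tm_v m
  have h4 := norm_pair_Tm (m + 1) r
  have h5 := norm_pair_Tm (m + 1) (1 - (BB 0).v - r - a)
  rw [dist_eq_norm] at hd
  simp only [map_sub, h1, h2, sub_zero] at h5
  have h6 : eps 0 = 1 / 32 := by simp [eps]
  have h7 : (1 : ℂ) = (1 - pairCLM (Tm (m + 1)) (BB 0).v - pairCLM (Tm (m + 1)) r) +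
      pairCLM (Tm (m + 1)) (BB 0).v + pairCLM (Tm (m + 1)) r := by ring
  have h8 := norm_add₃_le (a := 1 - pairCLM (Tm (m + 1)) (BB 0).v - pairCLM (Tm (m + 1)) r)
    (b := pairCLM (Tm (m + 1)) (BB 0).v) (c := pairCLM (Tm (m + 1)) r)
  rw [← h7, norm_one] at h8
  linarith

theorem exists_bai : ∃ e : ℕ → L1 G0, (∀ n, e n ∈ idealI fourierChar EE) ∧ (∀ n, ‖e n‖ ≤ 3) ∧
    ∀ f ∈ idealI fourierChar EE, Tendsto (fun n => ‖Ideal.Quotient.mk (idealJ fourierChar EE).closure (f - f * e n)‖)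
      atTop (𝓝 0) := by
  obtain ⟨Λ, hΛ⟩ : ∃ Λ : ℕ → Finset Idx, Tendsto Λ atTop atTop :=
    exists_seq_tendsto (atTop : Filter (Finset Idx))
  choose u hu1 hu2 hu3 using fun n => exists_u (Λ n) n
  choose r hr1 hr2 using fun n => helson (1 - u n) (2 * eps n)
    (mul_pos two_pos (eps_pos n)) fun γ hγ => by
      rw [fourier_sub, fourier_one, norm_sub_rev]
      exact hu2 n γ hγ
  have heps : ∀ n, eps n ≤ 1 / 32 := fun n => by
    unfold eps
    gcongr
    exact pow_le_one₀ (by norm_num) (by norm_num)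
  refine ⟨fun n => 1 - u n - r n, fun n => mem_idealI.2 fun γ hγ => by rw [fourier_sub, hr2 n γ hγ, sub_self],
    fun n => ?_, fun f hf => ?_⟩
  · have h1 := norm_sub_le (1 - u n) (r n)
    have h2 := norm_sub_le 1 (u n)
    rw [norm_one] at h2
    linarith [hu1 n, hr1 n, heps n]
  · have hr0 : Tendsto (fun n => ‖f‖ * (6 * (2 * eps n))) atTop (𝓝 0) := by
      have h0 : Tendsto eps atTop (𝓝 0) := by
        have := (tendsto_pow_atTop_nhds_zero_of_lt_one (r := (1 / 2 : ℝ)) (by norm_num)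
          (by norm_num)).div_const 32
        rw [zero_div] at this
        exact this
      simpa using ((h0.const_mul 2).const_mul 6).const_mul ‖f‖
    rw [Metric.tendsto_nhds] at hr0 ⊢
    intro ε hε
    obtain ⟨φ, Λ0, h1, h2⟩ := exists_fac f (ε / 4) (by positivity)
    filter_upwards [hr0 (ε / 4) (by positivity), hΛ.eventually (eventually_ge_atTop Λ0)]
      with n hn1 hn2
    obtain ⟨a, ha1, ha2⟩ := hu3 n φ (h2.mono hn2) (ε / 4) (by positivity) fun γ hγ => by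
      have := norm_fourier_le (f - φ) γ
      rw [fourier_sub, mem_idealI.1 hf γ hγ, zero_sub, norm_neg] at this
      exact this.trans h1.le
    have hJ : φ * u n - a ∈ (idealJ fourierChar EE).closure := subset_closure
      (mem_idealJ.2
        ⟨_, ha2, fun γ hγ => by rw [fourier_sub, fourier_mul, sub_eq_zero]; exact hγ.symm⟩)
    have e : Ideal.Quotient.mk (idealJ fourierChar EE).closure (f - f * (1 - u n - r n)) =
        Ideal.Quotient.mk (idealJ fourierChar EE).closure ((f - φ) * u n + a + f * r n) := by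
      rw [Ideal.Quotient.eq]
      convert hJ using 1
      ring
    rw [e, dist_zero_right, norm_norm]
    refine (Ideal.Quotient.norm_mk_le _ _).trans_lt (norm_add₃_le.trans_lt ?_)
    have h3 : ‖(f - φ) * u n‖ ≤ ε / 4 * 1 := norm_mul_le_of_le h1.le (hu1 n)
    have h4 : ‖f * r n‖ ≤ ‖f‖ * (6 * (2 * eps n)) := norm_mul_le_of_le le_rfl (hr1 n)
    rw [dist_zero_right] at hn1
    have h5 := le_abs_self (‖f‖ * (6 * (2 * eps n)))
    rw [Real.norm_eq_abs] at hn1
    linarith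

theorem isAmenable_RE : IsAmenable.{u} (RE fourierChar EE) := by
  obtain ⟨K, hK1, hK2⟩ := exists_exhaustion
  obtain ⟨e, he1, he2, he3⟩ := exists_bai
  let mk := Ideal.Quotient.mk (idealJ fourierChar EE).closure
  refine isAmenable_of_bai (RE fourierChar EE) ?_ (mk.toMonoidHom.comp L1.deltaHom) ?_ ?_ K hK1 hK2
    (fun n => ⟨mk (e n), e n, he1 n, rfl⟩) 3 ?_ ?_
  · rintro b _ ⟨f, hf, rfl⟩
    obtain ⟨b, rfl⟩ := Ideal.Quotient.mk_surjective b
    exact ⟨b * f, (idealI fourierChar EE).mul_mem_left b hf, map_mul _ _ _⟩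
  · exact fun g => (Ideal.Quotient.norm_mk_le _ _).trans (L1.norm_delta g).le
  · intro P hP hd
    have := L1.dense_delta (P.comap (Ideal.Quotient.mkₐ ℂ (idealJ fourierChar EE).closure).toLinearMap)
      (hP.preimage continuous_quot_mk) hd
    rw [eq_top_iff]
    intro b _
    obtain ⟨b, rfl⟩ := Ideal.Quotient.mk_surjective b
    have hb : b ∈ P.comap (Ideal.Quotient.mkₐ ℂ (idealJ fourierChar EE).closure).toLinearMap :=
      this ▸ Submodule.mem_top
    exact hb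
  · exact fun n => (Ideal.Quotient.norm_mk_le _ _).trans (he2 n)
  · rintro ⟨_, f, hf, rfl⟩
    rw [tendsto_iff_norm_sub_tendsto_zero]
    refine (he3 f hf).congr fun n => ?_
    rw [norm_sub_rev, map_sub, map_mul]
    rfl

end Pool.Agent.P.MP_bf3635_an
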